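import Pool.Agent.Lib.MP_04fdae_co.X.LowStar

/-! Rotation of the polygon: every ear star is large. -/

namespace Pool.Agent.Lib.MP_04fdae_co.X

open Finset

variable {n : ℕ}

/-- Rotation by one step. -/
def rot54 (n : ℕ) (p : ℕ × ℕ) : ℕ × ℕ :=
  if p.2 + 1 < n then (p.1 + 1, p.2 + 1) else (0, p.1 + 1)

theorem rot54_dg {p : ℕ × ℕ} (h : Dg n 0 p) : Dg n 0 (rot54 n p) := by
  obtain ⟨a, b⟩ := p
  unfold rot54 Dg at *
  split_ifs <;> simp only [true_and] at * <;> omega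

theorem rot54_cr {p q : ℕ × ℕ} (hp : Dg n 0 p) (hq : Dg n 0 q) :
    Cr (rot54 n p) (rot54 n q) ↔ Cr p q := by
  obtain ⟨a, b⟩ := p
  obtain ⟨c, d⟩ := q
  unfold rot54 Dg Cr at *
  split_ifs <;> simp only at * <;> omega

theorem rot54_inj {p q : ℕ × ℕ} (hp : Dg n 0 p) (hq : Dg n 0 q) (h : rot54 n p = rot54 n q) :
    p = q := by
  obtain ⟨a, b⟩ := p
  obtain ⟨c, d⟩ := q
  unfold rot54 Dg at *
  split_ifs at h <;> simp only [Prod.mk.injEq] at * <;> omega

theorem rot54_surj {q : ℕ × ℕ} (hq : Dg n 0 q) : ∃ p, Dg n 0 p ∧ rot54 n p = q := by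
  obtain ⟨c, d⟩ := q
  unfold Dg at hq
  simp only at hq
  by_cases h : c = 0
  · refine ⟨(d - 1, n - 1), ?_, ?_⟩
    · unfold Dg
      simp only
      omega
    · unfold rot54
      rw [if_neg (by simp only; omega)]
      simp only [Prod.mk.injEq]
      omega
  · refine ⟨(c - 1, d - 1), ?_, ?_⟩
    · unfold Dg
      simp only
      omega
    · unfold rot54
      rw [if_pos (by simp only; omega)]
      simp only [Prod.mk.injEq]
      omega

theorem rot54_tri {S : Finset (ℕ × ℕ)} (hS : Tri n 0 S) : Tri n 0 (S.image (rot54 n)) := by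
  refine ⟨?_, ?_, ?_⟩
  · intro p hp
    obtain ⟨q, hq, rfl⟩ := mem_image.1 hp
    exact rot54_dg (hS.dg q hq)
  · intro p hp p' hp'
    obtain ⟨q, hq, rfl⟩ := mem_image.1 hp
    obtain ⟨q', hq', rfl⟩ := mem_image.1 hp'
    rw [rot54_cr (hS.dg q hq) (hS.dg q' hq')]
    exact hS.nc q hq q' hq'
  · intro p hp h
    obtain ⟨q, hq, rfl⟩ := rot54_surj hp
    refine mem_image_of_mem _ (hS.mx q hq fun r hr hc => ?_)
    exact h _ (mem_image_of_mem _ hr) ((rot54_cr hq (hS.dg r hr)).2 hc)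

theorem rot54_sub {S T : Finset (ℕ × ℕ)} (hS : Tri n 0 S) (hT : Tri n 0 T)
    (h : S.image (rot54 n) = T.image (rot54 n)) : S ⊆ T := by
  intro p hp
  have h1 : rot54 n p ∈ T.image (rot54 n) := h ▸ mem_image_of_mem _ hp
  obtain ⟨q, hq, e⟩ := mem_image.1 h1
  exact rot54_inj (hT.dg q hq) (hS.dg p hp) e ▸ hq

theorem rot54_step {c : ℕ × ℕ} {k : ℕ}
    (h : ∃ F : Finset (Finset (ℕ × ℕ)), (∀ S ∈ F, Tri n 0 S ∧ c ∈ S) ∧ k ≤ F.card) :
    ∃ F : Finset (Finset (ℕ × ℕ)), (∀ S ∈ F, Tri n 0 S ∧ rot54 n c ∈ S) ∧ k ≤ F.card := by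
  obtain ⟨F, h1, h2⟩ := h
  refine ⟨F.image (fun S => S.image (rot54 n)), ?_, h2.trans (le_of_eq ?_)⟩
  · intro S hS
    obtain ⟨T, hT, rfl⟩ := mem_image.1 hS
    exact ⟨rot54_tri (h1 T hT).1, mem_image_of_mem _ (h1 T hT).2⟩
  · rw [card_image_of_injOn]
    intro S hS T hT e
    exact Subset.antisymm (rot54_sub (h1 S hS).1 (h1 T hT).1 e)
      (rot54_sub (h1 T hT).1 (h1 S hS).1 e.symm)

theorem low_short (hn : 4 ≤ n) (a : ℕ) (ha : a + 2 < n) : ∃ F : Finset (Finset (ℕ × ℕ)),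
    (∀ S ∈ F, Tri n 0 S ∧ (a, a + 2) ∈ S) ∧ catalan (n - 3) ≤ F.card := by
  induction a with
  | zero => exact low_star' hn
  | succ a ih =>
    have h := rot54_step (ih (by omega))
    have e : rot54 n (a, a + 2) = (a + 1, a + 1 + 2) := by
      unfold rot54
      rw [if_pos (by simp only; omega)]
    rwa [e] at h

theorem low_ear' (hn : 4 ≤ n) {c : ℕ × ℕ} (hc : Ear n c) : ∃ F : Finset (Finset (ℕ × ℕ)),
    (∀ S ∈ F, Tri n 0 S ∧ c ∈ S) ∧ catalan (n - 3) ≤ F.card := by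
  have h0 := rot54_step (low_short hn (n - 3) (by omega))
  have e0 : rot54 n (n - 3, n - 3 + 2) = (0, n - 2) := by
    unfold rot54
    rw [if_neg (by simp only; omega)]
    simp only [Prod.mk.injEq, true_and]
    omega
  rw [e0] at h0
  have h1 := rot54_step h0
  have e1 : rot54 n (0, n - 2) = (1, n - 1) := by
    unfold rot54
    rw [if_pos (by simp only; omega)]
    simp only [Prod.mk.injEq, zero_add, true_and]
    omega
  rw [e1] at h1
  rcases hc with ⟨h2, h3⟩ | rfl | rfl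
  · obtain ⟨a, b⟩ := c
    simp only at h2 h3
    subst h2
    exact low_short hn a h3
  · exact h0
  · exact h1

end Pool.Agent.Lib.MP_04fdae_co.X
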