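import Pool.Agent.Lib.MP_04fdae_co.X.WEkr

/-! Motzkin numbers, their binomial transform and Catalan numbers. -/

set_option autoImplicit false

namespace Pool.Agent.MP04fdae.X

open Finset

/-- number of Motzkin paths of length `m` between the heights `h` and `0` -/
def mot : ℕ → ℕ → ℕ
  | 0, h => if h = 0 then 1 else 0
  | m + 1, h => mot m h + mot m (h + 1) + (if h = 0 then 0 else mot m (h - 1))

/-- the same with two kinds of flat steps -/
def mot2 : ℕ → ℕ → ℕ
  | 0, h => if h = 0 then 1 else 0
  | m + 1, h => 2 * mot2 m h + mot2 m (h + 1) + (if h = 0 then 0 else mot2 m (h - 1))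

lemma mot_succ (m h : ℕ) :
    mot (m + 1) h = mot m h + mot m (h + 1) + (if h = 0 then 0 else mot m (h - 1)) := rfl

lemma mot2_succ (m h : ℕ) :
    mot2 (m + 1) h = 2 * mot2 m h + mot2 m (h + 1) + (if h = 0 then 0 else mot2 m (h - 1)) := rfl

lemma mot_mono (h : ℕ) : Monotone fun m => mot m h := by
  apply monotone_nat_of_le_succ
  intro m
  rw [mot_succ]
  omega

lemma mot_one_lt {m : ℕ} (hm : 2 ≤ m) : mot 1 0 < mot m 0 := by
  have h1 : mot 2 0 ≤ mot m 0 := mot_mono 0 hm
  have h2 : mot 1 0 = 1 := by decide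
  have h3 : mot 2 0 = 2 := by decide
  omega

lemma mot2_eq_sum (m : ℕ) : ∀ h, mot2 m h = ∑ j ∈ range (m + 1), m.choose j * mot (m - j) h := by
  induction m with
  | zero => intro h; simp [mot2, mot]
  | succ m ih =>
    intro h
    have key : ∑ j ∈ range (m + 2), (m + 1).choose j * mot (m + 1 - j) h
        = ∑ j ∈ range (m + 1), m.choose j * mot (m + 1 - j) h
          + ∑ j ∈ range (m + 1), m.choose j * mot (m - j) h := by
      have := Finset.sum_choose_succ_mul (R := ℕ) (fun _ b => mot b h) m
      simpa using this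
    have k2 : ∑ j ∈ range (m + 1), m.choose j * mot (m + 1 - j) h
        = ∑ j ∈ range (m + 1), m.choose j * mot (m - j) h
          + ∑ j ∈ range (m + 1), m.choose j * mot (m - j) (h + 1)
          + (if h = 0 then 0 else ∑ j ∈ range (m + 1), m.choose j * mot (m - j) (h - 1)) := by
      split_ifs with h0
      · rw [add_zero, ← sum_add_distrib]
        apply sum_congr rfl
        intro j hj
        rw [mem_range] at hj
        have e : m + 1 - j = (m - j) + 1 := by omega
        rw [e, mot_succ, if_pos h0]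
        ring
      · rw [← sum_add_distrib, ← sum_add_distrib]
        apply sum_congr rfl
        intro j hj
        rw [mem_range] at hj
        have e : m + 1 - j = (m - j) + 1 := by omega
        rw [e, mot_succ, if_neg h0]
        ring
    rw [key, k2, mot2_succ, ih h, ih (h + 1), ih (h - 1)]
    ring

lemma choose_two_step (a k : ℕ) :
    (a + 2).choose (k + 2) = a.choose (k + 2) + 2 * a.choose (k + 1) + a.choose k := by
  rw [Nat.choose_succ_succ' (a + 1) (k + 1), Nat.choose_succ_succ' a k,
    Nat.choose_succ_succ' a (k + 1)]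
  ring

lemma mot2_closed (m : ℕ) :
    ∀ h, mot2 m h + (2 * m).choose (m + h + 2) = (2 * m).choose (m + h) := by
  induction m with
  | zero =>
    intro h
    rcases h with _ | h <;> simp [mot2]
  | succ m ih =>
    intro h
    have e0 : 2 * (m + 1) = 2 * m + 2 := by ring
    have e1 : m + 1 + h + 2 = (m + h + 1) + 2 := by ring
    rw [mot2_succ, e0, e1, choose_two_step]
    have i0 := ih h
    have i1 := ih (h + 1)
    have e2 : m + (h + 1) + 2 = m + h + 1 + 2 := by ring
    have e3 : m + (h + 1) = m + h + 1 := by ring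
    rw [e2, e3] at i1
    have e4 : m + h + 1 + 1 = m + h + 2 := by ring
    rw [e4]
    rcases h with _ | h
    · rw [if_pos rfl]
      rcases m with _ | m
      · simp [mot2]
      · have e5 : m + 1 + 1 + 0 = m + 2 := by ring
        rw [e5, choose_two_step]
        have e6 : (2 * (m + 1)).choose m = (2 * (m + 1)).choose (m + 2) :=
          Nat.choose_symm_of_eq_add (by ring)
        have e7 : m + 1 + 0 + 1 = m + 2 := by ring
        have e8 : m + 1 + 0 = m + 1 := by ring
        rw [e7] at i1 ⊢
        rw [e8] at i0 ⊢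
        omega
    · rw [if_neg (Nat.succ_ne_zero h)]
      have i2 := ih h
      have e5 : m + 1 + (h + 1) = (m + h) + 2 := by ring
      rw [e5, choose_two_step]
      have e6 : h + 1 - 1 = h := by omega
      have e7 : m + (h + 1) = m + h + 1 := by ring
      rw [e6]
      rw [e7] at i0 i1 ⊢
      have e8 : m + h + 1 + 1 = m + h + 2 := by ring
      rw [e8] at i1 ⊢
      omega

lemma mot2_zero (m : ℕ) : mot2 m 0 = catalan (m + 1) := by
  have h0 := mot2_closed m 0
  simp only [add_zero] at h0
  have h1 := succ_mul_catalan_eq_centralBinom (m + 1)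
  have h2 : (2 * m).choose (m + 1) * (m + 1) = (2 * m).choose m * m := by
    have := Nat.choose_succ_right_eq (2 * m) m
    have e : 2 * m - m = m := by omega
    rwa [e] at this
  have h3 : (2 * m).choose (m + 2) * (m + 2) = (2 * m).choose (m + 1) * (m - 1) := by
    have := Nat.choose_succ_right_eq (2 * m) (m + 1)
    have e : 2 * m - (m + 1) = m - 1 := by omega
    rwa [e] at this
  rcases m with _ | m
  · simp [mot2]
  · have h4 : Nat.centralBinom (m + 1 + 1)
        = 2 * (2 * (m + 1)).choose (m + 1) + 2 * (2 * (m + 1)).choose (m + 2) := by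
      rw [Nat.centralBinom]
      have e0 : 2 * (m + 1 + 1) = 2 * (m + 1) + 2 := by ring
      have e1 : m + 1 + 1 = m + 2 := by ring
      rw [e0, e1, choose_two_step]
      have e6 : (2 * (m + 1)).choose m = (2 * (m + 1)).choose (m + 2) :=
        Nat.choose_symm_of_eq_add (by ring)
      omega
    have e2 : m + 1 - 1 = m := by omega
    have e3 : m + 1 + 1 = m + 2 := by ring
    have e4 : m + 1 + 2 = m + 3 := by ring
    rw [e2, e3, e4] at h3
    rw [e3] at h2 h4 h1 ⊢
    rw [e4] at h0
    have e5 : m + 2 + 1 = m + 3 := by ring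
    rw [e5, h4] at h1
    apply Nat.eq_of_mul_eq_mul_left (show 0 < m + 3 by omega)
    rw [h1]
    nlinarith [h0, h2, h3]

/-- the weight of a star is a Catalan number -/
theorem star_sum (d : ℕ) (hd : 1 ≤ d) :
    ∑ k ∈ range (d + 1), starLev d k * mot (d - k) 0 = catalan d := by
  obtain ⟨m, rfl⟩ : ∃ m, d = m + 1 := ⟨d - 1, by omega⟩
  rw [← mot2_zero, mot2_eq_sum, sum_range_succ']
  have : starLev (m + 1) 0 = 0 := by simp [starLev]
  rw [this, zero_mul, add_zero]
  apply sum_congr rfl
  intro j _
  have e : m + 1 - (j + 1) = m - j := by omega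
  rw [e]
  simp [starLev]

/-- weighted EKR with Motzkin weights -/
theorem mot_ekr_le {d : ℕ} {Z : Finset (Finset (Fin d))}
    (h : ∀ s ∈ Z, ∀ t ∈ Z, (s ∩ t).Nonempty) (hd : 1 ≤ d) :
    ∑ s ∈ Z, mot (d - #s) 0 ≤ catalan d := by
  rw [← star_sum d hd]
  exact wekr_le h hd (fun m => mot m 0) (mot_mono 0)

/-- equality forces a common point -/
theorem mot_ekr_eq {d : ℕ} {Z : Finset (Finset (Fin d))}
    (h : ∀ s ∈ Z, ∀ t ∈ Z, (s ∩ t).Nonempty) (hd : 3 ≤ d)
    (he : catalan d ≤ ∑ s ∈ Z, mot (d - #s) 0) : ∃ i : Fin d, ∀ s ∈ Z, i ∈ s := by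
  rw [← star_sum d (by omega)] at he
  exact wekr_eq h (by omega) (fun m => mot m 0) (mot_mono 0) (mot_one_lt (by omega)) he

/-- equality forces a common point, for every `d ≥ 1` -/
theorem mot_ekr_eq' {d : ℕ} {Z : Finset (Finset (Fin d))}
    (h : ∀ s ∈ Z, ∀ t ∈ Z, (s ∩ t).Nonempty) (hd : 1 ≤ d)
    (he : catalan d ≤ ∑ s ∈ Z, mot (d - #s) 0) : ∃ i : Fin d, ∀ s ∈ Z, i ∈ s := by
  rcases Nat.lt_or_ge d 3 with h3 | h3
  · have hd' : d = 1 ∨ d = 2 := by omega
    rcases hd' with rfl | rfl
    · refine ⟨0, fun s hs => ?_⟩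
      obtain ⟨x, hx⟩ := h s hs s hs
      rw [inter_self] at hx
      rwa [Subsingleton.elim x 0] at hx
    · rw [catalan_two] at he
      revert Z
      decide
  · exact mot_ekr_eq h h3 he

end Pool.Agent.MP04fdae.X
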