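import Pool.Agent.Lib.MP_04fdae_co.X.Defs
import Pool.Agent.Lib.MP_04fdae_co.X.MotCat

/-! Counting Motzkin words; the Catalan identities and the weighted bound on subsets of a range. -/

set_option autoImplicit false

namespace Pool.Agent.Lib.MP_04fdae_co.X

open Finset Pool.Agent.MP04fdae.X

lemma disj_cons (A B : Finset (List (Fin 3))) {a b : Fin 3} (hab : a ≠ b) :
    Disjoint (A.image (List.cons a)) (B.image (List.cons b)) := by
  rw [Finset.disjoint_left]
  intro w h1 h2
  obtain ⟨x, _, rfl⟩ := mem_image.1 h1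
  obtain ⟨y, _, hy⟩ := mem_image.1 h2
  exact hab (List.cons.inj hy).1.symm

lemma card_cons (A : Finset (List (Fin 3))) (a : Fin 3) : (A.image (List.cons a)).card = A.card :=
  card_image_of_injective _ List.cons_injective

theorem mz_card (k : ℕ) : ∀ h, (MzF k h).card = mot k h := by
  induction k with
  | zero =>
    intro h
    rcases h with _ | h <;> simp [MzF, mot]
  | succ k ih =>
    intro h
    rcases h with _ | h
    · rw [MzF, card_union_of_disjoint (disj_cons _ _ (by decide)), card_cons, card_cons, ih, ih,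
        mot_succ]
      simp
    · rw [MzF, card_union_of_disjoint, card_union_of_disjoint (disj_cons _ _ (by decide)),
        card_cons, card_cons, card_cons, ih, ih, ih, mot_succ]
      · simp
      · rw [disjoint_union_left]
        exact ⟨disj_cons _ _ (by decide), disj_cons _ _ (by decide)⟩

theorem mz_catalan' (k : ℕ) :
    ∑ j ∈ range (k + 1), k.choose j * (MzF (k - j) 0).card = catalan (k + 1) := by
  rw [← mot2_zero, mot2_eq_sum]
  exact sum_congr rfl fun j _ => by rw [mz_card]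

theorem red_star' {d : ℕ} (hd : 1 ≤ d) :
    ∑ Z ∈ (range d).powerset.filter (fun Z => 0 ∈ Z), (MzF (d - Z.card) 0).card = catalan d := by
  obtain ⟨m, rfl⟩ : ∃ m, d = m + 1 := ⟨d - 1, by omega⟩
  have h0 : (0 : ℕ) ∈ range (m + 1) := by simp
  have hc : ((range (m + 1)).erase 0).card = m := by
    rw [card_erase_of_mem h0, card_range]; rfl
  have h1 : ∑ Z ∈ (range (m + 1)).powerset.filter (fun Z => 0 ∈ Z),
        (MzF (m + 1 - Z.card) 0).card
      = ∑ Y ∈ ((range (m + 1)).erase 0).powerset, (MzF (m - Y.card) 0).card := by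
    apply sum_nbij' (fun Z => Z.erase 0) (fun Y => insert 0 Y)
    · intro Z hZ
      rw [mem_filter, mem_powerset] at hZ
      rw [mem_powerset]
      exact erase_subset_erase _ hZ.1
    · intro Y hY
      rw [mem_powerset] at hY
      rw [mem_filter, mem_powerset]
      exact ⟨insert_subset h0 (hY.trans (erase_subset _ _)), mem_insert_self _ _⟩
    · intro Z hZ
      rw [mem_filter] at hZ
      exact insert_erase hZ.2
    · intro Y hY
      rw [mem_powerset] at hY
      exact erase_insert fun h => notMem_erase 0 _ (hY h)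
    · intro Z hZ
      rw [mem_filter] at hZ
      have h2 := card_erase_of_mem hZ.2
      have h3 : 0 < Z.card := card_pos.2 ⟨0, hZ.2⟩
      have e : m + 1 - Z.card = m - (Z.erase 0).card := by omega
      rw [e]
  rw [h1, sum_powerset_apply_card (fun c => (MzF (m - c) 0).card), hc, ← mz_catalan' m]
  exact sum_congr rfl fun j _ => by rw [smul_eq_mul]

/-- equality in the weighted bound forces a singleton -/
theorem wekr_sing {d : ℕ} {Z : Finset (Finset (Fin d))}
    (h : ∀ s ∈ Z, ∀ t ∈ Z, (s ∩ t).Nonempty) (hd : 2 ≤ d) (M : ℕ → ℕ)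
    (hM : Monotone M) (hs : M 1 < M (d - 1))
    (he : ∑ k ∈ range (d + 1), starLev d k * M (d - k) ≤ ∑ s ∈ Z, M (d - #s)) :
    ∃ i : Fin d, ({i} : Finset (Fin d)) ∈ Z := by
  have hd1 : 1 ≤ d := by omega
  have h1 := two_mul_def (Z := Z) M
  have hnn : ∀ k ∈ range (d + 1), (0 : ℤ) ≤ (((starLev d k : ℤ) - lev Z k) * M (d - k)
        + ((starLev d (d - k) : ℤ) - lev Z (d - k)) * M k) :=
    fun k hk => pair_nonneg h hd1 M hM (by rw [mem_range] at hk; omega)
  have h2 := sum_nonneg hnn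
  have h3 : ∑ k ∈ range (d + 1), (((starLev d k : ℤ) - lev Z k) * M (d - k)
        + ((starLev d (d - k) : ℤ) - lev Z (d - k)) * M k) = 0 := by omega
  have h4 := (sum_eq_zero_iff_of_nonneg hnn).1 h3 1 (by rw [mem_range]; omega)
  have h5 := starLev_add d 1 hd1 hd1
  have h6 := lev_add_le h hd1
  have h7 := lev_le_star h (k := 1) (by omega)
  have h8 : starLev d 1 = 1 := by simp [starLev]
  have h9 : lev Z 1 = 1 := by
    by_contra hne
    have h10 : lev Z 1 = 0 := by omega
    have h11 : (M 1 : ℤ) < M (d - 1) := by exact_mod_cast hs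
    have h12 : (0 : ℤ) ≤ 1 + ((starLev d (d - 1) : ℤ) - lev Z (d - 1)) := by omega
    have h13 : (0 : ℤ) ≤ M 1 := by positivity
    rw [h8, h10] at h4
    push_cast at h4
    nlinarith [mul_nonneg h12 h13]
  unfold lev at h9
  obtain ⟨s, hs1⟩ := card_eq_one.1 h9
  have hs2 : s ∈ Z.filter fun s => #s = 1 := by rw [hs1]; exact mem_singleton_self _
  rw [mem_filter] at hs2
  obtain ⟨i, rfl⟩ := card_eq_one.1 hs2.2
  exact ⟨i, hs2.1⟩

theorem mot_ekr_sing {d : ℕ} {Z : Finset (Finset (Fin d))}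
    (h : ∀ s ∈ Z, ∀ t ∈ Z, (s ∩ t).Nonempty) (hd : 1 ≤ d)
    (he : catalan d ≤ ∑ s ∈ Z, mot (d - #s) 0) : ∃ i : Fin d, ({i} : Finset (Fin d)) ∈ Z := by
  rcases Nat.lt_or_ge d 3 with h3 | h3
  · have hd' : d = 1 ∨ d = 2 := by omega
    rcases hd' with rfl | rfl
    · rw [catalan_one] at he
      revert Z
      decide
    · rw [catalan_two] at he
      revert Z
      decide
  · rw [← star_sum d (by omega)] at he
    exact wekr_sing h (by omega) (fun m => mot m 0) (mot_mono 0) (mot_one_lt (by omega)) he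

theorem ekr_w' {d : ℕ} (hd : 1 ≤ d) (A : Finset (Finset ℕ)) (h1 : ∀ Z ∈ A, Z ⊆ range d)
    (h2 : ∀ Z ∈ A, ∀ Z' ∈ A, ∃ i ∈ Z, i ∈ Z') :
    ∑ Z ∈ A, (MzF (d - Z.card) 0).card ≤ catalan d ∧
      (∑ Z ∈ A, (MzF (d - Z.card) 0).card = catalan d → ∃ i, ({i} : Finset ℕ) ∈ A) := by
  let B : Finset (Finset (Fin d)) := univ.filter fun s => s.map Fin.valEmbedding ∈ A
  have hB : ∀ s, s ∈ B ↔ s.map Fin.valEmbedding ∈ A := fun s => by simp [B]
  have hsum : ∑ s ∈ B, mot (d - #s) 0 = ∑ Z ∈ A, (MzF (d - Z.card) 0).card := by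
    apply sum_bij (fun s _ => s.map Fin.valEmbedding)
    · intro s hs
      exact (hB s).1 hs
    · intro s _ t _ hst
      exact map_injective _ hst
    · intro Z hZ
      have hlt : ∀ m ∈ Z, m < d := fun m hm => mem_range.1 (h1 Z hZ hm)
      have e : (Z.attachFin hlt).map Fin.valEmbedding = Z := map_valEmbedding_attachFin hlt
      exact ⟨Z.attachFin hlt, (hB _).2 (by rw [e]; exact hZ), e⟩
    · intro s _
      rw [card_map, mz_card]
  have hint : ∀ s ∈ B, ∀ t ∈ B, (s ∩ t).Nonempty := by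
    intro s hs t ht
    obtain ⟨i, hi1, hi2⟩ := h2 _ ((hB s).1 hs) _ ((hB t).1 ht)
    obtain ⟨a, ha, rfl⟩ := mem_map.1 hi1
    exact ⟨a, mem_inter.2 ⟨ha, (mem_map' _).1 hi2⟩⟩
  rw [← hsum]
  refine ⟨mot_ekr_le hint hd, fun he => ?_⟩
  obtain ⟨i, hi⟩ := mot_ekr_sing hint hd he.ge
  have := (hB _).1 hi
  rw [map_singleton] at this
  exact ⟨_, this⟩

end Pool.Agent.Lib.MP_04fdae_co.X
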