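import Pool.Agent.Lib.MP_04fdae_co.X.Defs
import Pool.Agent.Lib.MP_04fdae_co.X.NumCat
import Pool.Agent.Lib.MP_04fdae_co.X.MotCat

/-! Motzkin words and the weighted Erdos-Ko-Rado inequality. -/

namespace Pool.Agent.Lib.MP_04fdae_co.X

open Finset

theorem mz_flat {k h : ℕ} {w : List (Fin 3)} : (0 : Fin 3) :: w ∈ MzF (k + 1) h ↔ w ∈ MzF k h := by
  cases h <;> simp [MzF]

theorem mz_up {k h : ℕ} {w : List (Fin 3)} :
    (1 : Fin 3) :: w ∈ MzF (k + 1) (h + 1) ↔ w ∈ MzF k h := by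
  simp [MzF]

theorem mz_up_zero {k : ℕ} {w : List (Fin 3)} : (1 : Fin 3) :: w ∉ MzF (k + 1) 0 := by
  simp [MzF]

theorem mz_down {k h : ℕ} {w : List (Fin 3)} :
    (2 : Fin 3) :: w ∈ MzF (k + 1) h ↔ w ∈ MzF k (h + 1) := by
  cases h <;> simp [MzF]

theorem mz_length {k h : ℕ} {w : List (Fin 3)} (hw : w ∈ MzF k h) : w.length = k := by
  induction k generalizing h w with
  | zero =>
    cases h with
    | zero => simpa [MzF] using hw
    | succ h => simp [MzF] at hw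
  | succ k ih =>
    cases h with
    | zero =>
      simp only [MzF, mem_union, mem_image] at hw
      rcases hw with ⟨a, ha, rfl⟩ | ⟨a, ha, rfl⟩ <;> simp [ih ha]
    | succ h =>
      simp only [MzF, mem_union, mem_image] at hw
      rcases hw with (⟨a, ha, rfl⟩ | ⟨a, ha, rfl⟩) | ⟨a, ha, rfl⟩ <;> simp [ih ha]

theorem mz_nil {h : ℕ} : ([] : List (Fin 3)) ∈ MzF 0 h ↔ h = 0 := by
  cases h <;> simp [MzF]

theorem mz_rep (k : ℕ) : List.replicate k (0 : Fin 3) ∈ MzF k 0 := by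
  induction k with
  | zero => simp [MzF]
  | succ k ih => exact mz_flat.2 ih

theorem mz_one (k : ℕ) : (1 : Fin 3) :: List.replicate k (0 : Fin 3) ∈ MzF (k + 1) 1 := by
  exact mz_up.2 (mz_rep k)

/-- Binomial transform: `V k h = ∑ j, choose k j * card (MzF (k - j) h)` satisfies
`V (k+1) h = 2 V k h + V k (h+1) + V k (h-1)`, so
`V k h + choose (2k+1) (k+h+2) = choose (2k+1) (k+h+1)`. -/
theorem mz_catalan (k : ℕ) :
    ∑ j ∈ range (k + 1), k.choose j * (MzF (k - j) 0).card = catalan (k + 1) :=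
  mz_catalan' k

theorem red_star {d : ℕ} (hd : 1 ≤ d) :
    ∑ Z ∈ (range d).powerset.filter (fun Z => 0 ∈ Z), (MzF (d - Z.card) 0).card = catalan d :=
  red_star' hd

theorem mz_card_eq : ∀ k h, (MzF k h).card = Pool.Agent.MP04fdae.X.mot k h
  | 0, 0 => rfl
  | 0, _ + 1 => rfl
  | k + 1, 0 => by
    rw [MzF, card_union_of_disjoint (by simp [disjoint_left]),
      card_image_of_injective _ List.cons_injective, card_image_of_injective _ List.cons_injective,
      mz_card_eq k 0, mz_card_eq k 1, Pool.Agent.MP04fdae.X.mot_succ]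
    simp
  | k + 1, h + 1 => by
    rw [MzF, card_union_of_disjoint (by simp [disjoint_left]; grind),
      card_union_of_disjoint (by simp [disjoint_left]),
      card_image_of_injective _ List.cons_injective, card_image_of_injective _ List.cons_injective,
      card_image_of_injective _ List.cons_injective,
      mz_card_eq k (h + 1), mz_card_eq k (h + 2), mz_card_eq k h, Pool.Agent.MP04fdae.X.mot_succ]
    simp

/-- Pair the levels `k` and `d - k`: `a k ≤ choose (d-1) (k-1)` for `2k ≤ d`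
(`Finset.erdos_ko_rado`, move to `Fin d`), `a k + a (d-k) ≤ choose d k` (complements), and
`card (MzF k 0)` increases, strictly from `k = 1` on. -/
theorem ekr_w {d : ℕ} (hd : 1 ≤ d) (A : Finset (Finset ℕ)) (h1 : ∀ Z ∈ A, Z ⊆ range d)
    (h2 : ∀ Z ∈ A, ∀ Z' ∈ A, ∃ i ∈ Z, i ∈ Z') :
    ∑ Z ∈ A, (MzF (d - Z.card) 0).card ≤ catalan d ∧
      (∑ Z ∈ A, (MzF (d - Z.card) 0).card = catalan d → ∃ i, ({i} : Finset ℕ) ∈ A) := by
  classical
  have key : ∀ B : Finset (Finset ℕ), (∀ Z ∈ B, Z ⊆ range d) →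
      (∀ Z ∈ B, ∀ Z' ∈ B, ∃ i ∈ Z, i ∈ Z') →
      ∑ Z ∈ B, (MzF (d - Z.card) 0).card ≤ catalan d ∧
        (catalan d ≤ ∑ Z ∈ B, (MzF (d - Z.card) 0).card → ∃ i < d, ∀ Z ∈ B, i ∈ Z) := by
    intro B k1 k2
    let f : Finset ℕ → Finset (Fin d) := fun Z => univ.filter fun i => i.val ∈ Z
    have hf : ∀ Z ∈ B, (f Z).map Fin.valEmbedding = Z := by
      intro Z hZ
      ext x
      simp only [f, mem_map, mem_filter, mem_univ, true_and, Fin.valEmbedding_apply]
      constructor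
      · rintro ⟨i, hi, rfl⟩
        exact hi
      · intro hx
        exact ⟨⟨x, mem_range.1 (k1 Z hZ hx)⟩, hx, rfl⟩
    have hc : ∀ Z ∈ B, (f Z).card = Z.card := fun Z hZ => by
      have := congrArg card (hf Z hZ)
      rwa [card_map] at this
    have hZ : ∀ s ∈ B.image f, ∀ t ∈ B.image f, (s ∩ t).Nonempty := by
      intro s hs t ht
      obtain ⟨Z, hZ, rfl⟩ := mem_image.1 hs
      obtain ⟨Z', hZ', rfl⟩ := mem_image.1 ht
      obtain ⟨x, hx, hx'⟩ := k2 Z hZ Z' hZ'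
      exact ⟨⟨x, mem_range.1 (k1 Z hZ hx)⟩, by simp [f, hx, hx']⟩
    have hS : ∑ s ∈ B.image f, Pool.Agent.MP04fdae.X.mot (d - s.card) 0 =
        ∑ Z ∈ B, (MzF (d - Z.card) 0).card := by
      rw [sum_image fun Z hZ Z' hZ' e => by
        rw [← hf Z (mem_coe.1 hZ), ← hf Z' (mem_coe.1 hZ'), e]]
      exact sum_congr rfl fun Z hZ => by rw [hc Z hZ, mz_card_eq]
    refine ⟨hS ▸ Pool.Agent.MP04fdae.X.mot_ekr_le hZ hd, fun he => ?_⟩
    obtain ⟨i, hi⟩ := Pool.Agent.MP04fdae.X.mot_ekr_eq' hZ hd (hS ▸ he)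
    exact ⟨i, i.2, fun Z k => (mem_filter.1 (hi _ (mem_image_of_mem f k))).2⟩
  refine ⟨(key A h1 h2).1, fun he => ?_⟩
  obtain ⟨i, hi, hA⟩ := (key A h1 h2).2 he.ge
  refine ⟨i, by_contra fun hn => ?_⟩
  have hall : ∀ Z ∈ insert ({i} : Finset ℕ) A, i ∈ Z := by
    intro Z hZ
    rcases mem_insert.1 hZ with rfl | hZ
    · exact mem_singleton_self i
    · exact hA Z hZ
  have h3 := (key (insert {i} A) (fun Z hZ => by
    rcases mem_insert.1 hZ with rfl | hZ
    · exact singleton_subset_iff.2 (mem_range.2 hi)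
    · exact h1 Z hZ) fun Z hZ Z' hZ' => ⟨i, hall Z hZ, hall Z' hZ'⟩).1
  rw [sum_insert hn] at h3
  have h4 := card_pos.2 ⟨_, mz_rep (d - ({i} : Finset ℕ).card)⟩
  omega

end Pool.Agent.Lib.MP_04fdae_co.X
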