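import Pool.Agent.Lib.MP_04fdae_co.X.Geo
import Pool.Agent.Lib.MP_04fdae_co.X.Num
import Pool.Agent.Lib.MP_04fdae_co.X.LowEar54

/-! The star of the ear `(0, 2)` is large. -/

namespace Pool.Agent.Lib.MP_04fdae_co.X

open Finset

variable {n : ℕ}

/-- Start: all `(Z, w, ∅, ∅)` with `0 ∈ Z`, counted by `red_star`. -/
theorem low_top (hn : 4 ≤ n) : ∃ G : Finset Ob, (∀ o ∈ G, Val n (n - 3) o ∧ 0 ∈ o.Z) ∧
    catalan (n - 3) ≤ G.card := by
  exact low_top' hn

/-- One step down with `con_surj`: if `l ∈ Z` erase it and take the apex `l + 2`; letter `0`: apex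
the least mark (or `n - 1`); letter `1`: apex the least mark, which is erased; letter `2`: apex
`l + 2`, which is marked. The map is injective (read the apex off `Con`). -/
theorem low_step {l : ℕ} (hl0 : 1 ≤ l) (hl : l + 3 < n) {G : Finset Ob}
    (h : ∀ o ∈ G, Val n (l + 1) o ∧ 0 ∈ o.Z) :
    ∃ G' : Finset Ob, (∀ o ∈ G', Val n l o ∧ 0 ∈ o.Z) ∧ G.card ≤ G'.card := by
  exact low_step' hl0 hl h

theorem low_star (hn : 4 ≤ n) : ∃ F : Finset (Finset (ℕ × ℕ)),
    (∀ S ∈ F, Tri n 0 S ∧ (0, 2) ∈ S) ∧ catalan (n - 3) ≤ F.card := by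
  exact low_star' hn

/-- Rotate: `(a, b) ↦ if b + 1 < n then (a + 1, b + 1) else (0, a + 1)` is a bijection of the
diagonals of level `0` that keeps crossings; start from `low_star`. -/
theorem low_ear (hn : 4 ≤ n) {c : ℕ × ℕ} (hc : Ear n c) : ∃ F : Finset (Finset (ℕ × ℕ)),
    (∀ S ∈ F, Tri n 0 S ∧ c ∈ S) ∧ catalan (n - 3) ≤ F.card := by
  exact low_ear' hn hc

end Pool.Agent.Lib.MP_04fdae_co.X
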