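import Mathlib

/-! Triangulations of the polygon with vertices `0, v, v + 1, ..., z`: contraction of the side
`(0, v)`, its inverse, flips of a chord at `0`, and fans. -/

namespace Pool.Agent.MP04fdae.X

/-- `p` is a diagonal of the polygon with vertices `0, v, v + 1, ..., z`. -/
def Dg (v z : ℕ) (p : ℕ × ℕ) : Prop :=
  (p.1 = 0 ∧ v < p.2 ∧ p.2 < z) ∨ (v ≤ p.1 ∧ p.1 + 2 ≤ p.2 ∧ p.2 ≤ z)

/-- The chords `p` and `q` cross. -/
def Cr (p q : ℕ × ℕ) : Prop :=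
  (p.1 < q.1 ∧ q.1 < p.2 ∧ p.2 < q.2) ∨ (q.1 < p.1 ∧ p.1 < q.2 ∧ q.2 < p.2)

/-- `S` is a maximal set of pairwise non-crossing diagonals. -/
def Tri (v z : ℕ) (S : Finset (ℕ × ℕ)) : Prop :=
  (∀ p ∈ S, Dg v z p) ∧ (∀ p ∈ S, ∀ q ∈ S, ¬ Cr p q) ∧
    ∀ p, Dg v z p → (∀ q ∈ S, ¬ Cr p q) → p ∈ S

/-- `x` is a neighbour of the vertex `0` in `R` (the two sides count). -/
def Nb (v z : ℕ) (R : Finset (ℕ × ℕ)) (x : ℕ) : Prop := x = v ∨ x = z ∨ (0, x) ∈ R

instance (v z : ℕ) (p : ℕ × ℕ) : Decidable (Dg v z p) := by unfold Dg; infer_instance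
instance (p q : ℕ × ℕ) : Decidable (Cr p q) := by unfold Cr; infer_instance
instance (v z : ℕ) (R : Finset (ℕ × ℕ)) (x : ℕ) : Decidable (Nb v z R x) := by
  unfold Nb; infer_instance

theorem Cr.symm {p q : ℕ × ℕ} (h : Cr p q) : Cr q p := Or.symm h

variable {v z : ℕ} {S R : Finset (ℕ × ℕ)}

theorem Tri.dg (h : Tri v z S) {a b : ℕ} (hp : (a, b) ∈ S) :
    (a = 0 ∧ v < b ∧ b < z) ∨ (v ≤ a ∧ a + 2 ≤ b ∧ b ≤ z) := h.1 _ hp

theorem Tri.nc (h : Tri v z S) {a b c d : ℕ} (hp : (a, b) ∈ S) (hq : (c, d) ∈ S) :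
    ¬ (a < c ∧ c < b ∧ b < d) := fun hc => h.2.1 _ hp _ hq (Or.inl hc)

theorem Tri.mx (h : Tri v z S) {a b : ℕ}
    (hd : (a = 0 ∧ v < b ∧ b < z) ∨ (v ≤ a ∧ a + 2 ≤ b ∧ b ≤ z))
    (h1 : ∀ c d, (c, d) ∈ S → a < c → c < b → b < d → False)
    (h2 : ∀ c d, (c, d) ∈ S → c < a → a < d → d < b → False) : (a, b) ∈ S := by
  refine h.2.2 (a, b) hd ?_
  rintro ⟨c, d⟩ hq (⟨x1, x2, x3⟩ | ⟨x1, x2, x3⟩)
  · exact h1 c d hq x1 x2 x3
  · exact h2 c d hq x1 x2 x3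

theorem tri_mk (h0 : ∀ a b, (a, b) ∈ S → (a = 0 ∧ v < b ∧ b < z) ∨ (v ≤ a ∧ a + 2 ≤ b ∧ b ≤ z))
    (h1 : ∀ a b c d, (a, b) ∈ S → (c, d) ∈ S → a < c → c < b → b < d → False)
    (h2 : ∀ a b, ((a = 0 ∧ v < b ∧ b < z) ∨ (v ≤ a ∧ a + 2 ≤ b ∧ b ≤ z)) →
      (∀ c d, (c, d) ∈ S → a < c → c < b → b < d → False) →
      (∀ c d, (c, d) ∈ S → c < a → a < d → d < b → False) → (a, b) ∈ S) : Tri v z S := by
  refine ⟨fun p hp => h0 p.1 p.2 hp, ?_, ?_⟩
  · rintro ⟨a, b⟩ hp ⟨c, d⟩ hq (⟨x1, x2, x3⟩ | ⟨x1, x2, x3⟩)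
    · exact h1 a b c d hp hq x1 x2 x3
    · exact h1 c d a b hq hp x1 x2 x3
  · rintro ⟨a, b⟩ hd hn
    exact h2 a b hd (fun c d hq x1 x2 x3 => hn _ hq (Or.inl ⟨x1, x2, x3⟩))
      (fun c d hq x1 x2 x3 => hn _ hq (Or.inr ⟨x1, x2, x3⟩))

/-- A chord at `0` ends strictly between `v` and `z`. -/
theorem Tri.w_bd (h : Tri v z S) (hv : 1 ≤ v) {x : ℕ} (hx : (0, x) ∈ S) : v < x ∧ x < z := by
  have := h.dg hx
  omega

theorem Tri.nb_bd (h : Tri v z S) (hv : 1 ≤ v) (hz : v ≤ z) {x : ℕ} (hx : Nb v z S x) :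
    v ≤ x ∧ x ≤ z := by
  rcases hx with rfl | rfl | hx
  · omega
  · omega
  · have := h.w_bd hv hx
    omega

/-- No chord away from `0` jumps over a neighbour of `0`. -/
theorem Tri.nb_nc (h : Tri v z S) {a b x : ℕ} (hp : (a, b) ∈ S) (ha : 0 < a) (hx : Nb v z S x) :
    ¬ (a < x ∧ x < b) := by
  have h1 := h.dg hp
  rcases hx with rfl | rfl | hx
  · omega
  · omega
  · have := h.nc hx hp
    omega

/-! ### Contraction -/

/-- Contract the side `(0, v)`. -/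
def con (v z : ℕ) (S : Finset (ℕ × ℕ)) : Finset (ℕ × ℕ) :=
  S.filter (fun p => v < p.1) ∪
    ((Finset.Ioo (v + 1) z).filter (fun x => (0, x) ∈ S ∨ (v, x) ∈ S)).image (fun x => (0, x))

theorem mem_con {a b : ℕ} : (a, b) ∈ con v z S ↔
    (v < a ∧ (a, b) ∈ S) ∨ (a = 0 ∧ v + 1 < b ∧ b < z ∧ ((0, b) ∈ S ∨ (v, b) ∈ S)) := by
  simp only [con, Finset.mem_union, Finset.mem_filter, Finset.mem_image, Finset.mem_Ioo,
    Prod.mk.injEq]
  constructor
  · rintro (⟨h1, h2⟩ | ⟨x, ⟨⟨h1, h2⟩, h3⟩, rfl, rfl⟩)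
    · exact Or.inl ⟨h2, h1⟩
    · exact Or.inr ⟨rfl, h1, h2, h3⟩
  · rintro (⟨h1, h2⟩ | ⟨rfl, h1, h2, h3⟩)
    · exact Or.inl ⟨h2, h1⟩
    · exact Or.inr ⟨b, ⟨⟨h1, h2⟩, h3⟩, rfl, rfl⟩

theorem mem_con_w {b : ℕ} : (0, b) ∈ con v z S ↔
    v + 1 < b ∧ b < z ∧ ((0, b) ∈ S ∨ (v, b) ∈ S) := by
  rw [mem_con]
  simp

/-- Chords away from `0` and `v` are kept. -/
theorem mem_far {a b : ℕ} (ha : v < a) : (a, b) ∈ S ↔ (a, b) ∈ con v z S := by
  rw [mem_con]
  constructor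
  · exact fun h => Or.inl ⟨ha, h⟩
  · rintro (⟨_, h⟩ | ⟨h, _⟩)
    · exact h
    · omega

/-- The third vertex of the triangle on the side `(0, v)`. -/
def apex (z : ℕ) (S : Finset (ℕ × ℕ)) : ℕ :=
  Nat.find (⟨z, Or.inl rfl⟩ : ∃ x, x = z ∨ (0, x) ∈ S)

theorem apex_spec (z : ℕ) (S : Finset (ℕ × ℕ)) : apex z S = z ∨ (0, apex z S) ∈ S :=
  Nat.find_spec (⟨z, Or.inl rfl⟩ : ∃ x, x = z ∨ (0, x) ∈ S)

theorem apex_le_z (z : ℕ) (S : Finset (ℕ × ℕ)) : apex z S ≤ z := Nat.find_min' _ (Or.inl rfl)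

theorem apex_le {x : ℕ} (hx : (0, x) ∈ S) : apex z S ≤ x := Nat.find_min' _ (Or.inr hx)

theorem Tri.lt_apex (h : Tri v z S) (hv : 1 ≤ v) (hz : v < z) : v < apex z S := by
  rcases apex_spec z S with h1 | h1
  · omega
  · exact (h.w_bd hv h1).1

theorem Tri.le_apex (h : Tri v z S) (hv : 1 ≤ v) (hz : v < z) {x : ℕ} (hx : (v, x) ∈ S) :
    x ≤ apex z S := by
  have h0 := h.dg hx
  have h2 := h.lt_apex hv hz
  rcases apex_spec z S with h1 | h1
  · omega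
  · have := h.nc h1 hx
    omega

theorem Tri.v_apex (h : Tri v z S) (hv : 1 ≤ v) (hu : v + 1 < apex z S) : (v, apex z S) ∈ S := by
  have h3 := apex_le_z z S
  refine h.mx (by omega) ?_ ?_
  · intro c d hq x1 x2 x3
    have h0 := h.dg hq
    rcases apex_spec z S with h1 | h1
    · omega
    · have := h.nc h1 hq
      omega
  · intro c d hq x1 x2 x3
    have h0 := h.dg hq
    obtain rfl : c = 0 := by omega
    have := apex_le (z := z) hq
    omega

theorem Tri.mem_w (h : Tri v z S) (hv : 1 ≤ v) (hz : v < z) {x : ℕ} :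
    (0, x) ∈ S ↔ Nb (v + 1) z (con v z S) x ∧ apex z S ≤ x ∧ x < z := by
  have h2 := h.lt_apex hv hz
  constructor
  · intro hx
    have h0 := h.w_bd hv hx
    refine ⟨?_, apex_le hx, h0.2⟩
    by_cases e : x = v + 1
    · exact Or.inl e
    · exact Or.inr (Or.inr (mem_con_w.2 ⟨by omega, h0.2, Or.inl hx⟩))
  · rintro ⟨hn, h3, h4⟩
    have h5 : (0, apex z S) ∈ S := (apex_spec z S).resolve_left (by omega)
    rcases hn with e | e | hn
    · obtain e2 : x = apex z S := by omega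
      exact e2 ▸ h5
    · omega
    · rcases (mem_con_w.1 hn).2.2 with h6 | h6
      · exact h6
      · have := h.le_apex hv hz h6
        obtain e2 : x = apex z S := by omega
        exact e2 ▸ h5

theorem Tri.mem_v (h : Tri v z S) (hv : 1 ≤ v) (hz : v < z) {x : ℕ} :
    (v, x) ∈ S ↔ Nb (v + 1) z (con v z S) x ∧ v + 1 < x ∧ x ≤ apex z S := by
  have h2 := apex_le_z z S
  constructor
  · intro hx
    have h0 := h.dg hx
    refine ⟨?_, by omega, h.le_apex hv hz hx⟩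
    by_cases e : x = z
    · exact Or.inr (Or.inl e)
    · exact Or.inr (Or.inr (mem_con_w.2 ⟨by omega, by omega, Or.inr hx⟩))
  · rintro ⟨hn, h3, h4⟩
    have h5 := h.v_apex hv (by omega)
    rcases hn with e | e | hn
    · omega
    · obtain e2 : x = apex z S := by omega
      exact e2 ▸ h5
    · rcases (mem_con_w.1 hn).2.2 with h6 | h6
      · have := apex_le (z := z) h6
        obtain e2 : x = apex z S := by omega
        exact e2 ▸ h5
      · exact h6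

theorem Tri.apex_nb (h : Tri v z S) (hv : 1 ≤ v) (hz : v < z) :
    Nb (v + 1) z (con v z S) (apex z S) := by
  rcases apex_spec z S with h1 | h1
  · exact Or.inr (Or.inl h1)
  · exact ((h.mem_w hv hz).1 h1).1

theorem Tri.con_tri (h : Tri v z S) (hv : 1 ≤ v) (hz : v < z) : Tri (v + 1) z (con v z S) := by
  refine tri_mk ?_ ?_ ?_
  · intro a b hp
    rcases mem_con.1 hp with ⟨h1, h2⟩ | ⟨h1, h2, h3, _⟩
    · have := h.dg h2
      omega
    · omega
  · intro a b c d hp hq x1 x2 x3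
    rcases mem_con.1 hq with ⟨k1, k2⟩ | ⟨k1, _⟩
    · rcases mem_con.1 hp with ⟨_, h2⟩ | ⟨_, _, _, h4 | h4⟩
      · exact h.nc h2 k2 ⟨x1, x2, x3⟩
      · exact h.nc h4 k2 ⟨by omega, x2, x3⟩
      · exact h.nc h4 k2 ⟨k1, x2, x3⟩
    · omega
  · intro a b hd h1 h2
    rcases hd with ⟨rfl, d1, d2⟩ | ⟨d1, d2, d3⟩
    · refine mem_con_w.2 ⟨d1, d2, ?_⟩
      rcases Nat.lt_or_ge b (apex z S) with e | e
      · refine Or.inr (h.mx (by omega) ?_ ?_)
        · intro c d hq x1 x2 x3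
          exact h1 c d ((mem_far x1).1 hq) (by omega) x2 x3
        · intro c d hq x1 x2 x3
          have h0 := h.dg hq
          obtain rfl : c = 0 := by omega
          have := apex_le (z := z) hq
          omega
      · refine Or.inl (h.mx (by omega) ?_ ?_)
        · intro c d hq x1 x2 x3
          have h0 := h.dg hq
          by_cases e2 : c = v
          · subst e2
            have := h.le_apex hv hz hq
            omega
          · exact h1 c d ((mem_far (by omega)).1 hq) x1 x2 x3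
        · intro c d _ x1
          omega
    · refine (mem_far (by omega)).1 (h.mx (by omega) ?_ ?_)
      · intro c d hq x1 x2 x3
        exact h1 c d ((mem_far (by omega)).1 hq) x1 x2 x3
      · intro c d hq x1 x2 x3
        have h0 := h.dg hq
        by_cases e2 : v < c
        · exact h2 c d ((mem_far e2).1 hq) x1 x2 x3
        · refine h2 0 d (mem_con_w.2 ⟨by omega, by omega, ?_⟩) (by omega) x2 x3
          by_cases e3 : c = 0
          · exact Or.inl (e3 ▸ hq)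
          · obtain e4 : c = v := by omega
            exact Or.inr (e4 ▸ hq)

/-! ### Expansion -/

/-- Split the vertex `0` of `R` into the side `(0, v)` with apex `u`. -/
def ex (v z : ℕ) (R : Finset (ℕ × ℕ)) (u : ℕ) : Finset (ℕ × ℕ) :=
  R.filter (fun p => 0 < p.1) ∪
    (((Finset.Ioc (v + 1) u).filter (Nb (v + 1) z R)).image (fun x => (v, x)) ∪
      ((Finset.Ico u z).filter (Nb (v + 1) z R)).image (fun x => (0, x)))

theorem mem_ex {u a b : ℕ} : (a, b) ∈ ex v z R u ↔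
    (0 < a ∧ (a, b) ∈ R) ∨ (a = v ∧ v + 1 < b ∧ b ≤ u ∧ Nb (v + 1) z R b) ∨
      (a = 0 ∧ u ≤ b ∧ b < z ∧ Nb (v + 1) z R b) := by
  simp only [ex, Finset.mem_union, Finset.mem_filter, Finset.mem_image, Finset.mem_Ioc,
    Finset.mem_Ico, Prod.mk.injEq]
  constructor
  · rintro (⟨h1, h2⟩ | ⟨x, ⟨⟨h1, h2⟩, h3⟩, rfl, rfl⟩ | ⟨x, ⟨⟨h1, h2⟩, h3⟩, rfl, rfl⟩)
    · exact Or.inl ⟨h2, h1⟩
    · exact Or.inr (Or.inl ⟨rfl, h1, h2, h3⟩)
    · exact Or.inr (Or.inr ⟨rfl, h1, h2, h3⟩)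
  · rintro (⟨h1, h2⟩ | ⟨rfl, h1, h2, h3⟩ | ⟨rfl, h1, h2, h3⟩)
    · exact Or.inl ⟨h2, h1⟩
    · exact Or.inr (Or.inl ⟨b, ⟨⟨h1, h2⟩, h3⟩, rfl, rfl⟩)
    · exact Or.inr (Or.inr ⟨b, ⟨⟨h1, h2⟩, h3⟩, rfl, rfl⟩)

theorem mem_ex_w (hv : 1 ≤ v) {u b : ℕ} :
    (0, b) ∈ ex v z R u ↔ Nb (v + 1) z R b ∧ u ≤ b ∧ b < z := by
  rw [mem_ex]
  constructor
  · rintro (⟨h1, _⟩ | ⟨h1, _⟩ | ⟨_, h1, h2, h3⟩)
    · omega
    · omega
    · exact ⟨h3, h1, h2⟩
  · rintro ⟨h3, h1, h2⟩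
    exact Or.inr (Or.inr ⟨rfl, h1, h2, h3⟩)

theorem Tri.mem_ex_v (h : Tri (v + 1) z R) (hv : 1 ≤ v) {u b : ℕ} :
    (v, b) ∈ ex v z R u ↔ Nb (v + 1) z R b ∧ v + 1 < b ∧ b ≤ u := by
  rw [mem_ex]
  constructor
  · rintro (⟨_, h2⟩ | ⟨_, h1, h2, h3⟩ | ⟨h1, _⟩)
    · have := h.dg h2
      omega
    · exact ⟨h3, h1, h2⟩
    · omega
  · rintro ⟨h3, h1, h2⟩
    exact Or.inr (Or.inl ⟨rfl, h1, h2, h3⟩)

theorem mem_ex_far {u a b : ℕ} (ha : v < a) : (a, b) ∈ ex v z R u ↔ (a, b) ∈ R := by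
  rw [mem_ex]
  constructor
  · rintro (⟨_, h2⟩ | ⟨h1, _⟩ | ⟨h1, _⟩)
    · exact h2
    · omega
    · omega
  · exact fun h => Or.inl ⟨by omega, h⟩

theorem Tri.ex_tri (h : Tri (v + 1) z R) (hv : 1 ≤ v) (hz : v < z) {u : ℕ}
    (hu : Nb (v + 1) z R u) : Tri v z (ex v z R u) := by
  have hb := h.nb_bd (by omega) (by omega) hu
  refine tri_mk ?_ ?_ ?_
  · intro a b hp
    rcases mem_ex.1 hp with ⟨h1, h2⟩ | ⟨h1, h2, h3, _⟩ | ⟨h1, h2, h3, _⟩
    · have := h.dg h2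
      omega
    · omega
    · omega
  · intro a b c d hp hq x1 x2 x3
    rcases mem_ex.1 hq with ⟨k1, k2⟩ | ⟨k1, k2, k3, k4⟩ | ⟨k1, _⟩
    · rcases mem_ex.1 hp with ⟨_, h2⟩ | ⟨_, _, _, h4⟩ | ⟨_, _, _, h4⟩
      · exact h.nc h2 k2 ⟨x1, x2, x3⟩
      · exact h.nb_nc k2 k1 h4 ⟨x2, x3⟩
      · exact h.nb_nc k2 k1 h4 ⟨x2, x3⟩
    · rcases mem_ex.1 hp with ⟨h1, h2⟩ | ⟨h1, _⟩ | ⟨_, h2, _⟩
      · have := h.dg h2
        omega
      · omega
      · omega
    · omega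
  · intro a b hd h1 h2
    have key : b < z → v + 1 < b → a ≤ v → (0, b) ∈ R := by
      intro e1 e2 e3
      refine h.mx (by omega) ?_ ?_
      · intro c d hq x1 x2 x3
        have h0 := h.dg hq
        exact h1 c d ((mem_ex_far (by omega)).2 hq) (by omega) x2 x3
      · intro c d _ x1
        omega
    rcases hd with ⟨rfl, d1, d2⟩ | ⟨d1, d2, d3⟩
    · refine (mem_ex_w hv).2 ⟨?_, ?_, d2⟩
      · by_cases e : b = v + 1
        · exact Or.inl e
        · exact Or.inr (Or.inr (key d2 (by omega) (by omega)))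
      · by_contra e
        exact h1 v u ((h.mem_ex_v hv).2 ⟨hu, by omega, le_rfl⟩) (by omega) d1 (by omega)
    · by_cases e0 : a = v
      · subst e0
        refine (h.mem_ex_v hv).2 ⟨?_, by omega, ?_⟩
        · by_cases e : b = z
          · exact Or.inr (Or.inl e)
          · exact Or.inr (Or.inr (key (by omega) (by omega) le_rfl))
        · by_contra e
          exact h2 0 u ((mem_ex_w hv).2 ⟨hu, le_rfl, by omega⟩) (by omega) (by omega) (by omega)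
      · refine (mem_ex_far (by omega)).2 (h.mx (by omega) ?_ ?_)
        · intro c d hq x1 x2 x3
          exact h1 c d ((mem_ex_far (by omega)).2 hq) x1 x2 x3
        · intro c d hq x1 x2 x3
          have h0 := h.dg hq
          by_cases e2 : c = 0
          · subst e2
            rcases Nat.lt_or_ge d u with e3 | e3
            · exact h2 v d ((h.mem_ex_v hv).2 ⟨Or.inr (Or.inr hq), by omega, by omega⟩)
                (by omega) x2 x3
            · exact h2 0 d ((mem_ex_w hv).2 ⟨Or.inr (Or.inr hq), e3, by omega⟩) x1 x2 x3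
          · exact h2 c d ((mem_ex_far (by omega)).2 hq) x1 x2 x3

theorem Tri.con_ex (h : Tri (v + 1) z R) (hv : 1 ≤ v) (u : ℕ) : con v z (ex v z R u) = R := by
  ext ⟨a, b⟩
  rw [mem_con]
  constructor
  · rintro (⟨h1, h2⟩ | ⟨rfl, h1, h2, h3⟩)
    · exact (mem_ex_far h1).1 h2
    · have hn : Nb (v + 1) z R b := by
        rcases h3 with h3 | h3
        · exact ((mem_ex_w hv).1 h3).1
        · exact ((h.mem_ex_v hv).1 h3).1
      rcases hn with e | e | hn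
      · omega
      · omega
      · exact hn
  · intro hp
    rcases h.dg hp with ⟨rfl, d1, d2⟩ | ⟨d1, _⟩
    · refine Or.inr ⟨rfl, d1, d2, ?_⟩
      rcases Nat.lt_or_ge b u with e | e
      · exact Or.inr ((h.mem_ex_v hv).2 ⟨Or.inr (Or.inr hp), d1, by omega⟩)
      · exact Or.inl ((mem_ex_w hv).2 ⟨Or.inr (Or.inr hp), e, d2⟩)
    · exact Or.inl ⟨by omega, (mem_ex_far (by omega)).2 hp⟩

theorem Tri.apex_ex (h : Tri (v + 1) z R) (hv : 1 ≤ v) (hz : v < z) {u : ℕ}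
    (hu : Nb (v + 1) z R u) : apex z (ex v z R u) = u := by
  have hb := h.nb_bd (by omega) (by omega) hu
  apply le_antisymm
  · by_cases e : u = z
    · exact e ▸ apex_le_z _ _
    · exact apex_le ((mem_ex_w hv).2 ⟨hu, le_rfl, by omega⟩)
  · rcases apex_spec z (ex v z R u) with h1 | h1
    · omega
    · exact ((mem_ex_w hv).1 h1).2.1

theorem Tri.ex_con (h : Tri v z S) (hv : 1 ≤ v) (hz : v < z) :
    ex v z (con v z S) (apex z S) = S := by
  ext ⟨a, b⟩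
  by_cases e0 : a = 0
  · subst e0
    rw [mem_ex_w hv, h.mem_w hv hz]
  by_cases e1 : a = v
  · subst e1
    rw [(h.con_tri hv hz).mem_ex_v hv, h.mem_v hv hz]
  by_cases e2 : v < a
  · rw [mem_ex_far e2, ← mem_far e2]
  constructor
  · intro hp
    have := ((h.con_tri hv hz).ex_tri hv hz (h.apex_nb hv hz)).dg hp
    omega
  · intro hp
    have := h.dg hp
    omega

/-- A triangulation is determined by its contraction and its apex. -/
theorem Tri.eq_of_con {S' : Finset (ℕ × ℕ)} (h : Tri v z S) (h' : Tri v z S') (hv : 1 ≤ v)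
    (hz : v < z) (e1 : con v z S = con v z S') (e2 : apex z S = apex z S') : S = S' := by
  rw [← h.ex_con hv hz, ← h'.ex_con hv hz, e1, e2]

/-- At the last level (a triangle) there is no chord. -/
theorem tri_last : Tri v (v + 1) S ↔ S = ∅ := by
  constructor
  · intro h
    refine Finset.eq_empty_of_forall_notMem ?_
    rintro ⟨a, b⟩ hp
    have := h.dg hp
    omega
  · rintro rfl
    refine tri_mk ?_ ?_ ?_
    · intro a b hp
      simp at hp
    · intro a b c d hp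
      simp at hp
    · intro a b hd
      omega

end Pool.Agent.MP04fdae.X
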