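import Mathlib

/-! Exact bound for intersecting families of triangulations: definitions.
Level `l`: the polygon with vertices `0, l + 1, ..., n - 1`. -/

namespace Pool.Agent.Lib.MP_04fdae_co.X

open Finset

/-- Diagonals of the polygon of level `l`. -/
def Dg (n l : ℕ) (p : ℕ × ℕ) : Prop :=
  (p.1 = 0 ∧ l + 2 ≤ p.2 ∧ p.2 + 1 < n) ∨ (l + 1 ≤ p.1 ∧ p.1 + 2 ≤ p.2 ∧ p.2 < n)

/-- Crossing chords. -/
def Cr (p q : ℕ × ℕ) : Prop :=
  (p.1 < q.1 ∧ q.1 < p.2 ∧ p.2 < q.2) ∨ (q.1 < p.1 ∧ p.1 < q.2 ∧ q.2 < p.2)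

/-- Triangulations of the polygon of level `l`. -/
structure Tri (n l : ℕ) (S : Finset (ℕ × ℕ)) : Prop where
  dg : ∀ p ∈ S, Dg n l p
  nc : ∀ p ∈ S, ∀ q ∈ S, ¬ Cr p q
  mx : ∀ p, Dg n l p → (∀ q ∈ S, ¬ Cr p q) → p ∈ S

/-- `R` is the contraction of `S` along the edge `(0, l + 1)`, and `u` is the apex of the
triangle of `S` on that edge. -/
structure Con (n l : ℕ) (S R : Finset (ℕ × ℕ)) (u : ℕ) : Prop where
  ap : u = l + 2 ∨ u + 1 = n ∨ (0, u) ∈ R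
  far : ∀ a b, l + 2 ≤ a → ((a, b) ∈ S ↔ (a, b) ∈ R)
  vch : ∀ x, (l + 1, x) ∈ S ↔ x ≤ u ∧ ((0, x) ∈ R ∨ x + 1 = n)
  wch : ∀ x, (0, x) ∈ S ↔ u ≤ x ∧ ((0, x) ∈ R ∨ x = l + 2)

open Classical in
/-- All diagonals at the vertex `y`. -/
noncomputable def Fan (n l y : ℕ) : Finset (ℕ × ℕ) :=
  (range n ×ˢ range n).filter fun p => Dg n l p ∧ (p.1 = y ∨ p.2 = y)

/-- Motzkin words (latest letter first; `0` flat, `1` up, `2` down) by length and final height. -/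
def MzF : ℕ → ℕ → Finset (List (Fin 3))
  | 0, 0 => {[]}
  | 0, _ + 1 => ∅
  | k + 1, 0 => (MzF k 0).image (List.cons 0) ∪ (MzF k 1).image (List.cons 2)
  | k + 1, h + 1 => (MzF k (h + 1)).image (List.cons 0) ∪ (MzF k (h + 2)).image (List.cons 2) ∪
      (MzF k h).image (List.cons 1)

/-- An object: red positions, the word of the other letters, a triangulation, marked chords at
the vertex `0`. -/
@[ext] structure Ob where
  Z : Finset ℕ
  w : List (Fin 3)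
  S : Finset (ℕ × ℕ)
  H : Finset ℕ

structure Val (n l : ℕ) (o : Ob) : Prop where
  red : o.Z ⊆ range l
  word : o.w ∈ MzF (l - o.Z.card) o.H.card
  tri : Tri n l o.S
  mark : ∀ x ∈ o.H, (0, x) ∈ o.S

/-- A common red position, or a common chord that is marked in neither object. -/
def Meet (o o' : Ob) : Prop :=
  (∃ i ∈ o.Z, i ∈ o'.Z) ∨ ∃ p ∈ o.S, p ∈ o'.S ∧ ¬ (p.1 = 0 ∧ (p.2 ∈ o.H ∨ p.2 ∈ o'.H))

/-- A meeting family of objects of level `l`. -/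
structure Fam (n l : ℕ) (G : Finset Ob) : Prop where
  val : ∀ o ∈ G, Val n l o
  meet : ∀ o ∈ G, ∀ o' ∈ G, Meet o o'

/-- The ear diagonals of the whole polygon. -/
def Ear (n : ℕ) (c : ℕ × ℕ) : Prop :=
  (c.2 = c.1 + 2 ∧ c.2 < n) ∨ c = (0, n - 2) ∨ c = (1, n - 1)

end Pool.Agent.Lib.MP_04fdae_co.X
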