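import Pool.Agent.Lib.MP_04fdae_co.X.Lab

/-! The equality case: far chords and a common red position. -/

namespace Pool.Agent.Lib.MP_04fdae_co.X

open Finset

variable {n l : ℕ} {E : Finset EOb}

theorem eq_far' (_hl : l + 3 < n) (_hE : FamE n l E) {c : ℕ × ℕ} (_hc : c.1 ≠ 0)
    (h : ∀ e ∈ E, c ∈ (lab n l E e).S) : ∀ e ∈ E, c ∈ e.R := by
  classical
  intro e he
  obtain ⟨a, ha, hmin⟩ := exists_min_image (E.filter (Key e)) (fun a => a.u)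
    ⟨e, mem_filter.2 ⟨he, rfl, rfl, rfl, rfl⟩⟩
  obtain ⟨ha1, k1, k2, k3, k4⟩ := mem_filter.1 ha
  have hno : ¬ Lower E a := by
    rintro ⟨b, hb, ⟨j1, j2, j3, j4⟩, hlt⟩
    have := hmin b (mem_filter.2 ⟨hb, j1.trans k1, j2.trans k2, j3.trans k3, j4.trans k4⟩)
    omega
  have h1 := h a ha1
  rw [← k3]
  rcases lab_cases n l E a with ⟨-, e1⟩ | ⟨-, -, e1⟩ | ⟨k, -⟩ | ⟨k, -⟩ | ⟨k, -⟩
  · rw [e1] at h1
    exact h1
  · rw [e1] at h1
    exact h1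
  all_goals exact absurd k hno

theorem red_no_lower (hE : FamE n l E) (h : ∀ e ∈ E, l ∈ (lab n l E e).Z) {e : EOb} (he : e ∈ E) :
    ¬ Lower E e := by
  classical
  rintro ⟨a, ha, ⟨j1, j2, j3, j4⟩, hlt⟩
  obtain ⟨b, hb, hmax⟩ := exists_max_image (E.filter (Key e)) (fun a => a.u)
    ⟨e, mem_filter.2 ⟨he, rfl, rfl, rfl, rfl⟩⟩
  obtain ⟨hb1, k1, k2, k3, k4⟩ := mem_filter.1 hb
  have h0 := hmax e (mem_filter.2 ⟨he, rfl, rfl, rfl, rfl⟩)
  have hL : Lower E b :=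
    ⟨a, ha, ⟨j1.trans k1.symm, j2.trans k2.symm, j3.trans k3.symm, j4.trans k4.symm⟩, by omega⟩
  have hU : ¬ Upper E b := by
    rintro ⟨g, hg, ⟨i1, i2, i3, i4⟩, hlt'⟩
    have := hmax g (mem_filter.2 ⟨hg, i1.trans k1, i2.trans k2, i3.trans k3, i4.trans k4⟩)
    omega
  have h1 := h b hb1
  rcases lab_cases n l E b with ⟨k, -⟩ | ⟨-, k, -⟩ | ⟨-, -, e1⟩ | ⟨-, k, -⟩ | ⟨-, k, -⟩
  · exact k.1.1 hL
  · exact k hL
  · rw [e1] at h1
    exact lt_irrefl l (mem_range.1 ((hE.val b hb1).red h1))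
  · exact hU k
  · exact hU k

theorem red_no_cand (hE : FamE n l E) (h : ∀ e ∈ E, l ∈ (lab n l E e).Z) {e : EOb} (he : e ∈ E) :
    ¬ Cand E e := by
  classical
  intro hc
  obtain ⟨a, ha, hmin⟩ := exists_min_image (E.filter fun k => Cand E k ∧ k.Z = e.Z ∧ k.w = e.w ∧
    k.R = e.R ∧ k.H.erase k.u = e.H.erase e.u) (fun a => a.u)
    ⟨e, mem_filter.2 ⟨he, hc, rfl, rfl, rfl, rfl⟩⟩
  obtain ⟨ha1, hca, k1, k2, k3, k4⟩ := mem_filter.1 ha
  have hT : TakesD E a := ⟨hca, fun k hk ck j1 j2 j3 j4 => hmin k (mem_filter.2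
    ⟨hk, ck, j1.trans k1, j2.trans k2, j3.trans k3, j4.trans k4⟩)⟩
  have h1 := h a ha1
  rcases lab_cases n l E a with ⟨-, e1⟩ | ⟨k, -⟩ | ⟨k, -⟩ | ⟨k, -⟩ | ⟨k, -⟩
  · rw [e1] at h1
    exact lt_irrefl l (mem_range.1 ((hE.val a ha1).red h1))
  · exact k hT
  all_goals exact hca.1 k

theorem eq_red' (hl : l + 3 < n) (hE : FamE n l E) (h : ∀ e ∈ E, l ∈ (lab n l E e).Z)
    (hfull : ∀ o, Val n (l + 1) o → l ∈ o.Z → ∃ e ∈ E, lab n l E e = o) :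
    (∀ e ∈ E, e.u = l + 2 ∧ l + 2 ∉ e.H) ∨ ((l = 0 ∨ l + 4 = n) ∧ ∀ e ∈ E, e.u + 1 = n) := by
  have hU : ∀ e ∈ E, ¬ Upper E e := by
    rintro e he ⟨b, hb, ⟨j1, j2, j3, j4⟩, hlt⟩
    exact red_no_lower hE h hb ⟨e, he, ⟨j1.symm, j2.symm, j3.symm, j4.symm⟩, hlt⟩
  have hu : ∀ e ∈ E, e.u ∉ e.H := fun e he k =>
    red_no_cand hE h he ⟨red_no_lower hE h he, hU e he, k⟩
  have hR : ∀ e ∈ E, lab n l E e = obR l e := by
    intro e he
    rcases lab_cases n l E e with ⟨k, -⟩ | ⟨-, -, e1⟩ | ⟨k, -⟩ | ⟨k, -⟩ | ⟨k, -⟩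
    · exact absurd k.1 (red_no_cand hE h he)
    · exact e1
    all_goals exact absurd k (red_no_lower hE h he)
  have hsub : ({l} : Finset ℕ) ⊆ range (l + 1) := by simp
  have hb : ∀ R, Tri n (l + 1) R → ∃ e ∈ E, e.Z = ∅ ∧ e.R = R := by
    intro R hT
    obtain ⟨e, he, e1⟩ := hfull ⟨{l}, List.replicate l 0, R, ∅⟩
      ⟨hsub, mz_rep l, hT, fun x hx => absurd hx (notMem_empty x)⟩ (mem_singleton_self l)
    rw [hR e he] at e1
    refine ⟨e, he, eq_empty_of_forall_notMem fun x hx => ?_, congrArg Ob.S e1⟩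
    have e2 : insert l e.Z = {l} := congrArg Ob.Z e1
    have h1 : x = l := mem_singleton.1 (e2 ▸ mem_insert_of_mem hx)
    have h2 := mem_range.1 ((hE.val e he).red hx)
    omega
  have hm : ∀ e ∈ E, ∀ g ∈ E, g.Z = ∅ → (∀ p ∈ e.R, p ∉ g.R) →
      e.u = g.u ∧ (g.u = l + 2 ∨ g.u + 1 = n) := by
    intro e he g hg hZ hd
    rcases hE.meet e he g hg with (⟨i, -, hi⟩ | ⟨p, h1, h2, -⟩) | k | k | ⟨x, k, -⟩
    · rw [hZ] at hi
      exact absurd hi (notMem_empty i)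
    · exact absurd h2 (hd p h1)
    · omega
    · omega
    · exact absurd k.2 (hd _ k.1)
  obtain ⟨b, hbE, hbZ, hbR⟩ := hb (Fan n (l + 1) (l + 2)) (tri_fan (by omega))
  have hA : ∀ j, l + 2 + j < n → ∃ g ∈ E, g.Z = ∅ ∧ g.R = Fan n (l + 1) (l + 2 + j) ∧ g.u = b.u := by
    intro j
    induction j with
    | zero => exact fun _ => ⟨b, hbE, hbZ, hbR, rfl⟩
    | succ j ih =>
      intro hj
      obtain ⟨g, hg, gZ, gR, gu⟩ := ih (by omega)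
      obtain ⟨g', hg', gZ', gR'⟩ := hb (Fan n (l + 1) (l + 2 + (j + 1))) (tri_fan (by omega))
      refine ⟨g', hg', gZ', gR', (hm g' hg' g hg gZ fun p h1 h2 => ?_).1.trans gu⟩
      rw [gR', mem_fan] at h1
      rw [gR, mem_fan] at h2
      have h3 := h1.1
      have h4 := h1.2
      have h5 := h2.2
      unfold Dg at h3
      omega
  have hall : ∀ e ∈ E, e.u = b.u ∧ (b.u = l + 2 ∨ b.u + 1 = n) := by
    intro e he
    obtain ⟨y, y1, y2, y3⟩ := free_vertex (by omega) (hE.val e he).tri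
    obtain ⟨g, hg, gZ, gR, gu⟩ := hA (y - (l + 2)) (by omega)
    rw [← gu]
    refine hm e he g hg gZ fun p h1 h2 => ?_
    rw [gR, mem_fan] at h2
    have h3 := y3 p h1
    have h4 := h2.2
    omega
  rcases (hall b hbE).2 with k | k
  · refine Or.inl fun e he => ?_
    have h1 : e.u = l + 2 := (hall e he).1.trans k
    exact ⟨h1, h1 ▸ hu e he⟩
  · refine Or.inr ⟨?_, fun e he => (hall e he).1 ▸ k⟩
    by_contra hne
    obtain ⟨j, rfl⟩ : ∃ j, l = j + 1 := ⟨l - 1, by omega⟩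
    obtain ⟨e, he, e1⟩ := hfull ⟨{j + 1}, 1 :: List.replicate j 0, Fan n (j + 1 + 1) 0, {j + 4}⟩
      ⟨hsub, mz_one j, tri_fan (Or.inl rfl), fun x hx => by
        rw [mem_singleton.1 hx]
        exact mem_fan.2 ⟨Or.inl ⟨rfl, le_refl _, by show j + 4 + 1 < n; omega⟩, Or.inl rfl⟩⟩
      (mem_singleton_self _)
    rw [hR e he] at e1
    have e2 : e.H = {j + 4} := congrArg Ob.H e1
    have h1 := ((hE.val e he).mark (j + 4) (e2 ▸ mem_singleton_self _)).1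
    have h2 := (hall e he).1
    omega

end Pool.Agent.Lib.MP_04fdae_co.X
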