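import Pool.Agent.Lib.MP_04fdae_co.X.Step

/-! The equality case for a chord at the vertex `0`. -/

namespace Pool.Agent.Lib.MP_04fdae_co.X

open Finset

variable {n l : ℕ} {E : Finset EOb}

theorem fan0_mem {x : ℕ} : (0, x) ∈ Fan n (l + 1) 0 ↔ l + 3 ≤ x ∧ x + 1 < n := by
  rw [mem_fan]
  unfold Dg
  constructor
  · rintro ⟨h1, -⟩
    simp only at h1
    omega
  · intro h1
    exact ⟨Or.inl ⟨rfl, h1.1, h1.2⟩, Or.inl rfl⟩

theorem fan0_fst {p : ℕ × ℕ} (hp : p ∈ Fan n (l + 1) 0) : p.1 = 0 := by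
  rw [mem_fan] at hp
  unfold Dg at hp
  omega

theorem not_easy_fan {e a : EOb} (hZ : a.Z = ∅) (hR : a.R = Fan n (l + 1) 0) : ¬ Easy e a := by
  rintro (⟨i, _, hi⟩ | ⟨p, _, hp, hp0⟩)
  · rw [hZ] at hi
    exact notMem_empty _ hi
  · rw [hR] at hp
    exact hp0 (fan0_fst hp)

theorem red_notMem {e : EOb} (h : ValE n l e) : l ∉ e.Z := fun hl =>
  lt_irrefl _ (mem_range.1 (h.red hl))

theorem no_moved (hl : l + 3 < n) (hE : FamE n l E) {y : ℕ}
    (h : ∀ e ∈ E, (0, y) ∈ (lab n l E e).S ∧ y ∉ (lab n l E e).H)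
    (hfull : ∀ o, Val n (l + 1) o → (0, y) ∈ o.S → y ∉ o.H → ∃ e ∈ E, lab n l E e = o)
    {e : EOb} (he : e ∈ E) (h1 : Lower E e) (h2 : Upper E e) (h3 : Bad l E e)
    (h4 : lab n l E e = obM n l e) : False := by
  have hv := hE.val e he
  obtain ⟨hu, hH⟩ := inner_mem hl hE he h1 h2
  obtain ⟨f1, -, f3, -⟩ := flp_spec hv.tri hu
  have hy := h e he
  rw [h4] at hy
  have hc : e.Z.card ≤ l := by simpa using card_le_card hv.red
  have hval : Val n (l + 1) ⟨e.Z, 0 :: e.w, flp n (l + 1) e.R e.u, e.H⟩ := by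
    refine ⟨hv.red.trans (range_subset_range.2 (Nat.le_succ l)), ?_, f1, fun x hx => ?_⟩
    · have e1 : l + 1 - e.Z.card = (l - e.Z.card) + 1 := by omega
      show (0 : Fin 3) :: e.w ∈ MzF (l + 1 - e.Z.card) e.H.card
      rw [e1]
      exact mz_flat.2 hv.word
    · have h5 := hH x hx
      have h6 := hv.bd hl
      rcases (hv.mark x hx).2 with h7 | h7
      · exact f3 _ h7 fun h8 => by
          have := (Prod.mk.inj h8).2
          omega
      · omega
  obtain ⟨g, hg, hg2⟩ := hfull _ hval hy.1 hy.2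
  have hl0 := red_notMem hv
  rcases lab_cases n l E g with ⟨-, k⟩ | ⟨-, -, k⟩ | ⟨-, -, k⟩ | ⟨-, -, -, k⟩ | ⟨-, -, -, k⟩
  · rw [k] at hg2
    have := congrArg Ob.w hg2
    simp [obD] at this
  · rw [k] at hg2
    have h9 : insert l g.Z = e.Z := congrArg Ob.Z hg2
    exact hl0 (h9 ▸ mem_insert_self _ _)
  · rw [k] at hg2
    exact moved_empty hl hE he hg h1 h2 h3 (congrArg Ob.Z hg2) (congrArg Ob.S hg2)
      (congrArg Ob.H hg2)
  · rw [k] at hg2
    have h9 : insert l g.Z = e.Z := congrArg Ob.Z hg2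
    exact hl0 (h9 ▸ mem_insert_self _ _)
  · rw [k] at hg2
    have := congrArg Ob.w hg2
    simp [obU] at this

theorem eq_w' (hl : l + 3 < n) (hE : FamE n l E) {y : ℕ} (hy : l + 3 ≤ y ∧ y + 1 < n)
    (h : ∀ e ∈ E, (0, y) ∈ (lab n l E e).S ∧ y ∉ (lab n l E e).H)
    (hfull : ∀ o, Val n (l + 1) o → (0, y) ∈ o.S → y ∉ o.H → ∃ e ∈ E, lab n l E e = o) :
    (y = l + 3 ∧ ∀ e ∈ E, y ≤ e.u ∧ (0, y) ∈ e.R) ∨
      (y + 2 = n ∧ ∀ e ∈ E, e.u ≤ y ∧ (0, y) ∈ e.R ∧ y ∉ e.H) := by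
  have hnm : ∀ e ∈ E, Lower E e → Upper E e → Bad l E e → lab n l E e = obM n l e → False :=
    fun e he => no_moved hl hE h hfull he
  have hall : ∀ e ∈ E, (0, y) ∈ e.R ∧ (y ∈ e.H → y = e.u) := by
    intro e he
    have hy1 := h e he
    rcases lab_cases n l E e with ⟨-, k⟩ | ⟨-, -, k⟩ | ⟨-, -, k⟩ | ⟨k1, k2, k3, k⟩ | ⟨-, -, -, k⟩
    · rw [k] at hy1
      refine ⟨hy1.1, fun hH => ?_⟩
      by_contra hne
      exact hy1.2 (mem_erase.2 ⟨hne, hH⟩)
    · rw [k] at hy1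
      exact ⟨hy1.1, fun hH => absurd hH hy1.2⟩
    · rw [k] at hy1
      exact ⟨hy1.1, fun hH => absurd hH hy1.2⟩
    · exact (hnm e he k1 k2 k3 k).elim
    · rw [k] at hy1
      exact ⟨hy1.1, fun hH => absurd (mem_insert_of_mem hH) hy1.2⟩
  have hF : Tri n (l + 1) (Fan n (l + 1) 0) := tri_fan (Or.inl rfl)
  have hyF : (0, y) ∈ Fan n (l + 1) 0 := fan0_mem.2 hy
  -- the red slot
  obtain ⟨a, ha, aZ, aw, aR, aH, aL⟩ : ∃ a ∈ E, a.Z = ∅ ∧ a.w = List.replicate l 0 ∧
      a.R = Fan n (l + 1) 0 ∧ a.H = ∅ ∧ ¬ Lower E a := by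
    have hval : Val n (l + 1) ⟨{l}, List.replicate l 0, Fan n (l + 1) 0, ∅⟩ := by
      refine ⟨by simp, ?_, hF, by simp⟩
      simpa using mz_rep l
    obtain ⟨g, hg, hg2⟩ := hfull _ hval hyF (notMem_empty _)
    have hl0 := red_notMem (hE.val g hg)
    rcases lab_cases n l E g with ⟨-, k⟩ | ⟨-, k1, k⟩ | ⟨-, -, k⟩ | ⟨k1, k2, k3, k⟩ | ⟨-, -, -, k⟩
    · rw [k] at hg2
      have h9 : g.Z = {l} := congrArg Ob.Z hg2
      exact absurd (h9 ▸ mem_singleton_self l) hl0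
    · rw [k] at hg2
      have h9 : insert l g.Z = {l} := congrArg Ob.Z hg2
      refine ⟨g, hg, ?_, congrArg Ob.w hg2, congrArg Ob.S hg2, congrArg Ob.H hg2, k1⟩
      rw [eq_empty_iff_forall_notMem]
      intro x hx
      have h10 : x ∈ ({l} : Finset ℕ) := h9 ▸ mem_insert_of_mem hx
      rw [mem_singleton] at h10
      exact hl0 (h10 ▸ hx)
    · rw [k] at hg2
      have h9 : g.Z = {l} := congrArg Ob.Z hg2
      exact absurd (h9 ▸ mem_singleton_self l) hl0
    · exact (hnm g hg k1 k2 k3 k).elim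
    · rw [k] at hg2
      have h9 : g.Z = {l} := congrArg Ob.Z hg2
      exact absurd (h9 ▸ mem_singleton_self l) hl0
  -- the blue slot
  obtain ⟨b, hb, bZ, bw, bR, bH, bL, bU⟩ : ∃ b ∈ E, b.Z = ∅ ∧ b.w = List.replicate l 0 ∧
      b.R = Fan n (l + 1) 0 ∧ b.H = ∅ ∧ Lower E b ∧ ¬ Upper E b := by
    have hval : Val n (l + 1) ⟨∅, 0 :: List.replicate l 0, Fan n (l + 1) 0, ∅⟩ := by
      refine ⟨by simp, ?_, hF, by simp⟩
      simpa using mz_flat.2 (mz_rep l)
    obtain ⟨g, hg, hg2⟩ := hfull _ hval hyF (notMem_empty _)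
    rcases lab_cases n l E g with ⟨-, k⟩ | ⟨-, -, k⟩ | ⟨k1, k2, k⟩ | ⟨k1, k2, k3, k⟩ | ⟨-, -, -, k⟩
    · rw [k] at hg2
      have := congrArg Ob.w hg2
      simp [obD] at this
    · rw [k] at hg2
      have h9 : insert l g.Z = ∅ := congrArg Ob.Z hg2
      exact absurd h9 (insert_ne_empty _ _)
    · rw [k] at hg2
      have h9 : (0 : Fin 3) :: g.w = 0 :: List.replicate l 0 := congrArg Ob.w hg2
      exact ⟨g, hg, congrArg Ob.Z hg2, (List.cons.inj h9).2, congrArg Ob.S hg2,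
        congrArg Ob.H hg2, k1, k2⟩
    · exact (hnm g hg k1 k2 k3 k).elim
    · rw [k] at hg2
      have := congrArg Ob.w hg2
      simp [obU] at this
  have hlo : ∀ g ∈ E, g.Z = ∅ → g.w = List.replicate l 0 → g.R = Fan n (l + 1) 0 → g.H = ∅ →
      a.u ≤ g.u ∧ g.u ≤ b.u := by
    intro g hg g1 g2 g3 g4
    constructor
    · by_contra hc
      exact aL ⟨g, hg, ⟨g1.trans aZ.symm, g2.trans aw.symm, g3.trans aR.symm, g4.trans aH.symm⟩,
        not_le.1 hc⟩
    · by_contra hc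
      exact bU ⟨g, hg, ⟨g1.trans bZ.symm, g2.trans bw.symm, g3.trans bR.symm, g4.trans bH.symm⟩,
        not_le.1 hc⟩
  have hab : a.u < b.u := by
    obtain ⟨g, hg, ⟨g1, g2, g3, g4⟩, g5⟩ := bL
    exact lt_of_le_of_lt
      (hlo g hg (g1.trans bZ) (g2.trans bw) (g3.trans bR) (g4.trans bH)).1 g5
  -- the up slots
  have hin : ∀ x, l + 3 ≤ x → x + 1 < n → x ≠ y → a.u < x ∧ x < b.u := by
    intro x x1 x2 x3
    have hval : Val n (l + 1) ⟨∅, 1 :: List.replicate l 0, Fan n (l + 1) 0, {x}⟩ := by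
      refine ⟨by simp, ?_, hF, ?_⟩
      · simpa using mz_one l
      · intro t ht
        have ht2 : t = x := mem_singleton.1 ht
        rw [ht2]
        exact fan0_mem.2 ⟨x1, x2⟩
    obtain ⟨g, hg, hg2⟩ := hfull _ hval hyF (fun hc => x3 (mem_singleton.1 hc).symm)
    rcases lab_cases n l E g with ⟨-, k⟩ | ⟨-, -, k⟩ | ⟨-, -, k⟩ | ⟨k1, k2, k3, k⟩ | ⟨k1, k2, -, k⟩
    · rw [k] at hg2
      have := congrArg Ob.w hg2
      simp [obD] at this
    · rw [k] at hg2
      have h9 : insert l g.Z = ∅ := congrArg Ob.Z hg2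
      exact absurd h9 (insert_ne_empty _ _)
    · rw [k] at hg2
      have := congrArg Ob.w hg2
      simp [obB] at this
    · exact (hnm g hg k1 k2 k3 k).elim
    · rw [k] at hg2
      have g1 : g.Z = ∅ := congrArg Ob.Z hg2
      have h9 : (1 : Fin 3) :: g.w = 1 :: List.replicate l 0 := congrArg Ob.w hg2
      have g2 := (List.cons.inj h9).2
      have g3 : g.R = Fan n (l + 1) 0 := congrArg Ob.S hg2
      have h10 : insert g.u g.H = {x} := congrArg Ob.H hg2
      have h11 : g.u = x := mem_singleton.1 (h10 ▸ mem_insert_self _ _)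
      have g4 : g.H = ∅ := by
        rw [eq_empty_iff_forall_notMem]
        intro t ht
        have h12 : t = x := mem_singleton.1 (h10 ▸ mem_insert_of_mem ht)
        have h13 := (inner_mem hl hE hg k1 k2).2 t ht
        omega
      obtain ⟨p, hp, ⟨p1, p2, p3, p4⟩, p5⟩ := k1
      obtain ⟨q, hq, ⟨q1, q2, q3, q4⟩, q5⟩ := k2
      have h14 := (hlo p hp (p1.trans g1) (p2.trans g2) (p3.trans g3) (p4.trans g4)).1
      have h15 := (hlo q hq (q1.trans g1) (q2.trans g2) (q3.trans g3) (q4.trans g4)).2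
      omega
  have ba := (hE.val a ha).bd hl
  have bb := (hE.val b hb).bd hl
  have hcase : y ≤ a.u ∨ b.u ≤ y := by
    rcases hE.meet a ha b hb with h1 | h1 | h1 | ⟨x, ⟨-, hx⟩, h1⟩
    · exact absurd h1 (not_easy_fan bZ bR)
    · omega
    · omega
    · rw [bR, fan0_mem] at hx
      by_cases hxy : x = y
      · omega
      · have := hin x hx.1 hx.2 hxy
        omega
  rcases hcase with hc | hc
  · have y1 : y = l + 3 := by
      by_contra hne
      have := hin (l + 3) le_rfl (by omega) (fun h => hne h.symm)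
      omega
    have b1 : b.u + 1 = n := by
      by_cases hq : n - 2 = y
      · omega
      · have := hin (n - 2) (by omega) (by omega) hq
        omega
    refine Or.inl ⟨y1, fun e he => ⟨?_, (hall e he).1⟩⟩
    rcases hE.meet e he b hb with h1 | h1 | h1 | ⟨x, ⟨-, hx⟩, h1⟩
    · exact absurd h1 (not_easy_fan bZ bR)
    · omega
    · omega
    · rw [bR, fan0_mem] at hx
      omega
  · have y1 : y + 2 = n := by
      by_contra hne
      have := hin (n - 2) (by omega) (by omega) (by omega)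
      omega
    have a1 : a.u = l + 2 := by
      by_cases hq : l + 3 = y
      · omega
      · have := hin (l + 3) le_rfl (by omega) hq
        omega
    refine Or.inr ⟨y1, fun e he => ?_⟩
    have h2 := hall e he
    rcases hE.meet e he a ha with h1 | h1 | h1 | ⟨x, ⟨-, hx⟩, h1⟩
    · exact absurd h1 (not_easy_fan aZ aR)
    · exact ⟨by omega, h2.1, fun hH => by have := h2.2 hH; omega⟩
    · omega
    · rw [aR, fan0_mem] at hx
      rcases h1 with h1 | h1
      · omega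
      · refine ⟨by omega, h2.1, fun hH => ?_⟩
        have h3 := h2.2 hH
        have h4 : x = y := by omega
        exact h1.2.2.1 (h4 ▸ hH)

end Pool.Agent.Lib.MP_04fdae_co.X
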