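import Pool.Agent.Lib.MP_04fdae_co.X.Step
import Pool.Agent.Lib.MP_04fdae_co.X.EqRed
import Pool.Agent.Lib.MP_04fdae_co.X.EqW43

/-! The equality case: pulling a star back through one step. -/

namespace Pool.Agent.Lib.MP_04fdae_co.X

open Finset

variable {n l : ℕ} {E : Finset EOb}

/-- A moved object has a lower element in its fibre whose label keeps `R` or is moved too; take the
least apex of the fibre (label `obR`, it is no candidate). -/
theorem eq_far (hl : l + 3 < n) (hE : FamE n l E) {c : ℕ × ℕ} (hc : c.1 ≠ 0)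
    (h : ∀ e ∈ E, c ∈ (lab n l E e).S) : ∀ e ∈ E, c ∈ e.R :=
  eq_far' hl hE hc h

/-- All labels are red and all red slots are filled. No `obB` (so no `Lower`, no `Upper`: take the
largest apex of a fibre), no `obD` (so no `Cand`: take the least candidate). Compare with the
objects `(∅, replicate l 0, R', ∅)`: `free_vertex`, and `Fan y`, `Fan (y + 1)` are disjoint. If
`1 ≤ l` and `l + 4 < n` the slot `({l}, 1 :: replicate (l - 1) 0, Fan 0, {l + 3})` has a mark. -/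
theorem eq_red (hl : l + 3 < n) (hE : FamE n l E) (h : ∀ e ∈ E, l ∈ (lab n l E e).Z)
    (hfull : ∀ o, Val n (l + 1) o → l ∈ o.Z → ∃ e ∈ E, lab n l E e = o) :
    (∀ e ∈ E, e.u = l + 2 ∧ l + 2 ∉ e.H) ∨ ((l = 0 ∨ l + 4 = n) ∧ ∀ e ∈ E, e.u + 1 = n) :=
  eq_red' hl hE h hfull

/-- No moved object (`moved_empty`: the `obB` slot over the flip is filled). Look at the fibre of
`(∅, replicate l 0, Fan 0, ∅)`: every `x ≠ y` is an inner apex, the least and the largest apex
meet. -/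
theorem eq_w (hl : l + 3 < n) (hE : FamE n l E) {y : ℕ} (hy : l + 3 ≤ y ∧ y + 1 < n)
    (h : ∀ e ∈ E, (0, y) ∈ (lab n l E e).S ∧ y ∉ (lab n l E e).H)
    (hfull : ∀ o, Val n (l + 1) o → (0, y) ∈ o.S → y ∉ o.H → ∃ e ∈ E, lab n l E e = o) :
    (y = l + 3 ∧ ∀ e ∈ E, y ≤ e.u ∧ (0, y) ∈ e.R) ∨
      (y + 2 = n ∧ ∀ e ∈ E, e.u ≤ y ∧ (0, y) ∈ e.R ∧ y ∉ e.H) :=
  eq_w' hl hE hy h hfull

end Pool.Agent.Lib.MP_04fdae_co.X
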