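import Pool.Agent.Lib.MP_04fdae_co.X.Step

/-! The equality case for a chord at the vertex `0`. -/

namespace Pool.Agent.Lib.MP_04fdae_co.X

open Finset

variable {n l : ℕ} {E : Finset EOb}

/-- The least apex of a fibre. -/
theorem w85_min {e : EOb} (he : e ∈ E) :
    ∃ a ∈ E, Key e a ∧ ∀ b ∈ E, Key e b → a.u ≤ b.u := by
  classical
  obtain ⟨a, ha, hm⟩ := Finset.exists_min_image (E.filter fun a => Key e a) EOb.u
    ⟨e, mem_filter.2 ⟨he, rfl, rfl, rfl, rfl⟩⟩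
  exact ⟨a, (mem_filter.1 ha).1, (mem_filter.1 ha).2,
    fun b hb hk => hm b (mem_filter.2 ⟨hb, hk⟩)⟩

theorem w85_trans {a b c : EOb} (h : Key a b) (h' : Key b c) : Key a c :=
  ⟨h'.1.trans h.1, h'.2.1.trans h.2.1, h'.2.2.1.trans h.2.2.1, h'.2.2.2.trans h.2.2.2⟩

theorem w85_R {c : ℕ × ℕ} (h : ∀ e ∈ E, c ∈ (lab n l E e).S) : ∀ e ∈ E, c ∈ e.R := by
  intro e he
  obtain ⟨a, ha, hk, hm⟩ := w85_min he
  have hL : ¬ Lower E a := by
    rintro ⟨b, hb, kb, hlt⟩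
    have := hm b hb (w85_trans hk kb)
    omega
  have h1 := h a ha
  rw [← hk.2.2.1]
  rcases lab_cases n l E a with ⟨-, k⟩ | ⟨-, -, k⟩ | ⟨k, -⟩ | ⟨k, -⟩ | ⟨k, -⟩
  · rw [k] at h1
    exact h1
  · rw [k] at h1
    exact h1
  · exact absurd k hL
  · exact absurd k hL
  · exact absurd k hL

theorem w85_fan {p : ℕ × ℕ} : p ∈ Fan n (l + 1) 0 ↔ p.1 = 0 ∧ l + 3 ≤ p.2 ∧ p.2 + 1 < n := by
  rw [mem_fan]
  unfold Dg
  omega

/-- Meeting an object of the fibre over the fan at `0`. -/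
theorem w85_meet (hE : FamE n l E) {e g : EOb} (he : e ∈ E) (hg : g ∈ E) (hZ : g.Z = ∅)
    (hR : g.R = Fan n (l + 1) 0) :
    (e.u = l + 2 ∧ g.u = l + 2 ∧ l + 2 ∉ e.H) ∨ (e.u + 1 = n ∧ g.u + 1 = n) ∨
      ∃ x, l + 3 ≤ x ∧ x + 1 < n ∧ ((x ≤ e.u ∧ x ≤ g.u) ∨ (e.u ≤ x ∧ g.u ≤ x ∧ x ∉ e.H)) := by
  rcases hE.meet e he g hg with (⟨i, -, hi⟩ | ⟨p, -, hp, hp0⟩) | ⟨k1, k2, k3, -⟩ | k |
    ⟨x, ⟨-, hx⟩, k⟩
  · rw [hZ] at hi
    exact absurd hi (notMem_empty i)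
  · rw [hR] at hp
    exact absurd (w85_fan.1 hp).1 hp0
  · exact Or.inl ⟨k1, k2, k3⟩
  · exact Or.inr (Or.inl k)
  · rw [hR] at hx
    have hb := (w85_fan.1 hx).2
    refine Or.inr (Or.inr ⟨x, hb.1, hb.2, ?_⟩)
    rcases k with k | ⟨k1, k2, k3, -⟩
    · exact Or.inl k
    · exact Or.inr ⟨k1, k2, k3⟩

/-- The preimage of the flat slot over the fan at `0`. -/
theorem w85_hi {e : EOb}
    (h : lab n l E e = ⟨∅, 0 :: List.replicate l 0, Fan n (l + 1) 0, ∅⟩) :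
    Lower E e ∧ ¬ Upper E e ∧ e.Z = ∅ ∧ e.w = List.replicate l 0 ∧ e.R = Fan n (l + 1) 0 ∧
      e.H = ∅ := by
  rcases lab_cases n l E e with ⟨-, k⟩ | ⟨-, -, k⟩ | ⟨k1, k2, k⟩ | ⟨-, -, -, k⟩ | ⟨-, -, -, k⟩
  · have h1 := congrArg Ob.w (k.symm.trans h)
    exact absurd (List.cons.inj h1).1 (by decide)
  · exact absurd (congrArg Ob.Z (k.symm.trans h)) (insert_ne_empty _ _)
  · have h1 := k.symm.trans h
    exact ⟨k1, k2, congrArg Ob.Z h1, (List.cons.inj (congrArg Ob.w h1)).2, congrArg Ob.S h1,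
      congrArg Ob.H h1⟩
  · exact absurd (congrArg Ob.Z (k.symm.trans h)) (insert_ne_empty _ _)
  · have h1 := congrArg Ob.w (k.symm.trans h)
    exact absurd (List.cons.inj h1).1 (by decide)

/-- The preimage of an up slot over the fan at `0`. -/
theorem w85_in (hl : l + 3 < n) (hE : FamE n l E) {e : EOb} (he : e ∈ E) {μ : ℕ}
    (h : lab n l E e = ⟨∅, 1 :: List.replicate l 0, Fan n (l + 1) 0, {μ}⟩) :
    Lower E e ∧ Upper E e ∧ e.Z = ∅ ∧ e.w = List.replicate l 0 ∧ e.R = Fan n (l + 1) 0 ∧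
      e.H = ∅ ∧ e.u = μ := by
  rcases lab_cases n l E e with ⟨-, k⟩ | ⟨-, -, k⟩ | ⟨-, -, k⟩ | ⟨-, -, -, k⟩ | ⟨k1, k2, -, k⟩
  · have h1 := congrArg Ob.w (k.symm.trans h)
    exact absurd (List.cons.inj h1).1 (by decide)
  · exact absurd (congrArg Ob.Z (k.symm.trans h)) (insert_ne_empty _ _)
  · have h1 := congrArg Ob.w (k.symm.trans h)
    exact absurd (List.cons.inj h1).1 (by decide)
  · exact absurd (congrArg Ob.Z (k.symm.trans h)) (insert_ne_empty _ _)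
  · have h1 := k.symm.trans h
    have h2 : insert e.u e.H = {μ} := congrArg Ob.H h1
    have h3 : e.u = μ := mem_singleton.1 (h2 ▸ mem_insert_self _ _)
    have h4 := (inner_mem hl hE he k1 k2).2
    refine ⟨k1, k2, congrArg Ob.Z h1, (List.cons.inj (congrArg Ob.w h1)).2, congrArg Ob.S h1,
      eq_empty_of_forall_notMem fun x hx => ?_, h3⟩
    have h5 : x = μ := mem_singleton.1 (h2 ▸ mem_insert_of_mem hx)
    have := h4 x hx
    omega

theorem eq_w' (hl : l + 3 < n) (hE : FamE n l E) {y : ℕ} (hy : l + 3 ≤ y ∧ y + 1 < n)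
    (h : ∀ e ∈ E, (0, y) ∈ (lab n l E e).S ∧ y ∉ (lab n l E e).H)
    (hfull : ∀ o, Val n (l + 1) o → (0, y) ∈ o.S → y ∉ o.H → ∃ e ∈ E, lab n l E e = o) :
    (y = l + 3 ∧ ∀ e ∈ E, y ≤ e.u ∧ (0, y) ∈ e.R) ∨
      (y + 2 = n ∧ ∀ e ∈ E, e.u ≤ y ∧ (0, y) ∈ e.R ∧ y ∉ e.H) := by
  have hR := w85_R fun e he => (h e he).1
  have hy0 : (0, y) ∈ Fan n (l + 1) 0 := w85_fan.2 ⟨rfl, hy.1, hy.2⟩
  obtain ⟨hi, hhi, k⟩ := hfull ⟨∅, 0 :: List.replicate l 0, Fan n (l + 1) 0, ∅⟩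
    ⟨empty_subset _, mz_rep (l + 1), tri_fan (Or.inl rfl), fun x hx => absurd hx (notMem_empty x)⟩
    hy0 (notMem_empty y)
  obtain ⟨⟨a, ha, ka, hlt⟩, hU, z1, z2, z3, z4⟩ := w85_hi k
  obtain ⟨lo, hlo, klo, hm⟩ := w85_min hhi
  have b0 := hm a ha ka
  have b1 := (hE.val lo hlo).bd hl
  have b2 := (hE.val hi hhi).bd hl
  have hin : ∀ μ, l + 3 ≤ μ → μ + 1 < n → μ ≠ y → lo.u < μ ∧ μ < hi.u := by
    intro μ m1 m2 m3
    obtain ⟨g, hg, kg⟩ := hfull ⟨∅, 1 :: List.replicate l 0, Fan n (l + 1) 0, {μ}⟩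
      ⟨empty_subset _, mz_one l, tri_fan (Or.inl rfl),
        fun x hx => w85_fan.2 ⟨rfl, mem_singleton.1 hx ▸ m1, mem_singleton.1 hx ▸ m2⟩⟩
      hy0 (fun hx => m3 (mem_singleton.1 hx).symm)
    obtain ⟨⟨c, hc, kc, c1⟩, ⟨d, hd, kd, d1⟩, g1, g2, g3, g4, g5⟩ := w85_in hl hE hg kg
    have kk : Key hi g := ⟨g1.trans z1.symm, g2.trans z2.symm, g3.trans z3.symm, g4.trans z4.symm⟩
    have c2 := hm c hc (w85_trans kk kc)
    have d2 : ¬ hi.u < d.u := fun hh => hU ⟨d, hd, w85_trans kk kd, hh⟩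
    omega
  have hends : l + 3 ≤ lo.u ∨ hi.u + 1 < n := by
    rcases w85_meet hE hlo hhi z1 z3 with k | k | ⟨x, x1, x2, k | k⟩ <;> omega
  by_cases hc : l + 3 ≤ lo.u
  · have e1 : y = l + 3 := by
      by_contra hne
      have := hin (l + 3) le_rfl (by omega) (fun hh => hne hh.symm)
      omega
    have e2 : hi.u + 1 = n := by
      by_contra hne
      have := hin hi.u (by omega) (by omega) (by omega)
      omega
    refine Or.inl ⟨e1, fun e he => ⟨?_, hR e he⟩⟩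
    rcases w85_meet hE he hhi z1 z3 with k | k | ⟨x, x1, x2, k | k⟩ <;> omega
  · have e0 : lo.u = l + 2 := by omega
    have e1 : hi.u = y := by
      by_contra hne
      have := hin hi.u (by omega) (by omega) hne
      omega
    have e2 : y + 2 = n := by
      by_contra hne
      have := hin (n - 2) (by omega) (by omega) (by omega)
      omega
    refine Or.inr ⟨e2, fun e he => ?_⟩
    have hme := w85_meet hE he hlo (klo.1.trans z1) (klo.2.2.1.trans z3)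
    refine ⟨?_, hR e he, fun hyH => ?_⟩
    · rcases hme with k | k | ⟨x, x1, x2, k | k⟩ <;> omega
    · have h1 := (h e he).2
      rcases lab_cases n l E e with ⟨-, k⟩ | ⟨-, -, k⟩ | ⟨-, -, k⟩ | ⟨-, -, -, k⟩ | ⟨-, -, -, k⟩
      · rw [k] at h1
        have h2 : y = e.u := by
          by_contra hne
          exact h1 (mem_erase.2 ⟨hne, hyH⟩)
        rcases hme with k | k | ⟨x, x1, x2, k | ⟨k1, -, k3⟩⟩
        · omega
        · omega
        · omega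
        · obtain rfl : x = y := by omega
          exact k3 hyH
      · rw [k] at h1
        exact h1 hyH
      · rw [k] at h1
        exact h1 hyH
      · rw [k] at h1
        exact h1 hyH
      · rw [k] at h1
        exact h1 (mem_insert_of_mem hyH)

end Pool.Agent.Lib.MP_04fdae_co.X
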