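import Pool.Agent.Lib.MP_04fdae_co.X.Defs
import Pool.Agent.Lib.MP_04fdae_co.X.Ctr

/-! Geometry of contraction, flips and fans. -/

namespace Pool.Agent.Lib.MP_04fdae_co.X

open Finset

variable {n l : ℕ}

/-- Take a superset of largest cardinality among the non-crossing sets of diagonals. -/
theorem tri_ext {S : Finset (ℕ × ℕ)} (h1 : ∀ p ∈ S, Dg n l p) (h2 : ∀ p ∈ S, ∀ q ∈ S, ¬ Cr p q) :
    ∃ T, Tri n l T ∧ S ⊆ T := by
  classical
  have hsub : ∀ T : Finset (ℕ × ℕ), (∀ p ∈ T, Dg n l p) → T ⊆ range n ×ˢ range n := by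
    intro T hT p hp
    have := hT p hp
    unfold Dg at this
    simp only [mem_product, mem_range]
    omega
  obtain ⟨T, hT, hmax⟩ := Finset.exists_max_image
    (((range n ×ˢ range n).powerset).filter fun T =>
      S ⊆ T ∧ (∀ p ∈ T, Dg n l p) ∧ ∀ p ∈ T, ∀ q ∈ T, ¬ Cr p q) Finset.card
    ⟨S, mem_filter.2 ⟨mem_powerset.2 (hsub S h1), Subset.refl _, h1, h2⟩⟩
  obtain ⟨-, k1, k2, k3⟩ := mem_filter.1 hT
  refine ⟨T, ⟨k2, k3, fun p hp hn => ?_⟩, k1⟩
  by_contra hpT
  have d1 : ∀ q ∈ insert p T, Dg n l q := by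
    intro q hq
    rcases mem_insert.1 hq with rfl | hq
    · exact hp
    · exact k2 q hq
  have d2 : ∀ q ∈ insert p T, ∀ r ∈ insert p T, ¬ Cr q r := by
    intro q hq r hr
    rcases mem_insert.1 hq with e1 | hq
    · rcases mem_insert.1 hr with e2 | hr
      · rw [e1, e2]
        unfold Cr
        omega
      · rw [e1]
        exact hn r hr
    · rcases mem_insert.1 hr with e2 | hr
      · rw [e2]
        exact fun hc => hn q hq (Or.symm hc)
      · exact k3 q hq r hr
  have := hmax (insert p T) (mem_filter.2 ⟨mem_powerset.2 (hsub _ d1),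
    k1.trans (subset_insert _ _), d1, d2⟩)
  rw [card_insert_of_notMem hpT] at this
  omega

theorem tri_eq {S T : Finset (ℕ × ℕ)} (hS : Tri n l S) (hT : Tri n l T)
    (h : ∀ p ∈ S, ∀ q ∈ T, ¬ Cr p q) : S = T := by
  ext p
  constructor
  · exact fun hp => hT.mx p (hS.dg p hp) (h p hp)
  · exact fun hp => hS.mx p (hT.dg p hp) fun q hq hc => h q hq p hp (Or.symm hc)

theorem dg_iff (hn : 1 ≤ n) (p : ℕ × ℕ) : Dg n l p ↔ MP04fdae.X.Dg (l + 1) (n - 1) p := by
  unfold Dg MP04fdae.X.Dg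
  omega

theorem tri_iff (hn : 1 ≤ n) {S : Finset (ℕ × ℕ)} :
    Tri n l S ↔ MP04fdae.X.Tri (l + 1) (n - 1) S := by
  constructor
  · exact fun h => ⟨fun p hp => (dg_iff hn p).1 (h.dg p hp), h.nc,
      fun p hp => h.mx p ((dg_iff hn p).2 hp)⟩
  · exact fun h => ⟨fun p hp => (dg_iff hn p).2 (h.1 p hp), h.2.1,
      fun p hp => h.2.2 p ((dg_iff hn p).1 hp)⟩

theorem con_of_tri (hl : l + 3 < n) {S : Finset (ℕ × ℕ)}
    (h : MP04fdae.X.Tri (l + 1) (n - 1) S) :
    Con n l S (MP04fdae.X.con (l + 1) (n - 1) S) (MP04fdae.X.apex (n - 1) S) := by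
  have hv : 1 ≤ l + 1 := by omega
  have hz : l + 1 < n - 1 := by omega
  have hR := h.con_tri hv hz
  refine ⟨?_, fun a b ha => MP04fdae.X.mem_far (by omega), fun x => ?_, fun x => ?_⟩
  · rcases h.apex_nb hv hz with e | e | e
    · exact Or.inl e
    · exact Or.inr (Or.inl (by omega))
    · exact Or.inr (Or.inr e)
  · rw [h.mem_v hv hz]
    constructor
    · rintro ⟨e | e | e, h1, h2⟩
      · omega
      · exact ⟨h2, Or.inr (by omega)⟩
      · exact ⟨h2, Or.inl e⟩
    · rintro ⟨h2, e | e⟩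
      · exact ⟨Or.inr (Or.inr e), (hR.w_bd (by omega) e).1, h2⟩
      · exact ⟨Or.inr (Or.inl (by omega)), by omega, h2⟩
  · rw [h.mem_w hv hz]
    constructor
    · rintro ⟨e | e | e, h1, h2⟩
      · exact ⟨h1, Or.inr e⟩
      · omega
      · exact ⟨h1, Or.inl e⟩
    · rintro ⟨h2, e | e⟩
      · exact ⟨Or.inr (Or.inr e), h2, (hR.w_bd (by omega) e).2⟩
      · exact ⟨Or.inl e, h2, by omega⟩

/-- `u` = largest neighbour of `l + 1` (or `l + 2`); `R` = far chords and all `(0, x)` with
`l + 2 < x`, `x + 1 < n` and `(0, x) ∈ S` or `(l + 1, x) ∈ S`. -/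
theorem con_exists (hl : l + 3 < n) {S : Finset (ℕ × ℕ)} (hS : Tri n l S) :
    ∃ R u, Tri n (l + 1) R ∧ Con n l S R u := by
  have h := (tri_iff (by omega)).1 hS
  exact ⟨_, _, (tri_iff (by omega)).2 (h.con_tri (by omega) (by omega)), con_of_tri hl h⟩

theorem con_inj {S S' R : Finset (ℕ × ℕ)} {u : ℕ} (hS : Tri n l S) (hS' : Tri n l S')
    (h : Con n l S R u) (h' : Con n l S' R u) : S = S' := by
  ext ⟨a, b⟩
  by_cases e0 : a = 0
  · subst e0
    rw [h.wch, h'.wch]
  by_cases e1 : a = l + 1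
  · subst e1
    rw [h.vch, h'.vch]
  by_cases e2 : l + 2 ≤ a
  · rw [h.far a b e2, h'.far a b e2]
  constructor
  · intro hp
    have := hS.dg _ hp
    unfold Dg at this
    simp only at this
    omega
  · intro hp
    have := hS'.dg _ hp
    unfold Dg at this
    simp only at this
    omega

/-- Extend the expansion by `tri_ext`, contract it by `con_exists`, compare by `tri_eq`. -/
theorem con_surj (hl : l + 3 < n) {R : Finset (ℕ × ℕ)} (hR : Tri n (l + 1) R) {u : ℕ}
    (hu : u = l + 2 ∨ u + 1 = n ∨ (0, u) ∈ R) : ∃ S, Tri n l S ∧ Con n l S R u := by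
  have h : MP04fdae.X.Tri (l + 1 + 1) (n - 1) R := (tri_iff (by omega)).1 hR
  have hv : 1 ≤ l + 1 := by omega
  have hz : l + 1 < n - 1 := by omega
  have hn : MP04fdae.X.Nb (l + 1 + 1) (n - 1) R u := by
    rcases hu with e | e | e
    · exact Or.inl e
    · exact Or.inr (Or.inl (by omega))
    · exact Or.inr (Or.inr e)
  have ht := h.ex_tri hv hz hn
  have hc := con_of_tri hl ht
  rw [h.con_ex hv, h.apex_ex hv hz hn] at hc
  exact ⟨_, (tri_iff (by omega)).2 ht, hc⟩

/-- Add the chord between the two neighbours of `0` next to `μ`, then `tri_ext`. -/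
theorem flip_exists {R : Finset (ℕ × ℕ)} (hR : Tri n l R) {μ : ℕ} (hμ : (0, μ) ∈ R) :
    ∃ T, Tri n l T ∧ (0, μ) ∉ T ∧ ∀ p ∈ R, p ≠ (0, μ) → p ∈ T := by
  classical
  have hd := hR.dg _ hμ
  have hb : l + 2 ≤ μ ∧ μ + 1 < n := by
    unfold Dg at hd
    simp only at hd
    omega
  let A := (range μ).filter fun x => x = l + 1 ∨ (0, x) ∈ R
  let B := (range n).filter fun x => μ < x ∧ (x + 1 = n ∨ (0, x) ∈ R)
  have hA : A.Nonempty := ⟨l + 1, mem_filter.2 ⟨mem_range.2 (by omega), Or.inl rfl⟩⟩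
  have hB : B.Nonempty := ⟨n - 1, mem_filter.2 ⟨mem_range.2 (by omega), by omega, Or.inl (by omega)⟩⟩
  obtain ⟨a, ha, ha2⟩ := exists_max_image A id hA
  obtain ⟨b, hb1, hb2⟩ := exists_min_image B id hB
  rw [mem_filter, mem_range] at ha hb1
  have a1 : l + 1 ≤ a := ha2 (l + 1) (mem_filter.2 ⟨mem_range.2 (by omega), Or.inl rfl⟩)
  have hdg : Dg n l (a, b) := Or.inr ⟨a1, by simp only; omega, hb1.1⟩
  have hnc : ∀ q ∈ R, q ≠ (0, μ) → ¬ Cr (a, b) q := by
    rintro ⟨c, d⟩ hq hne hc
    have q1 := hR.dg _ hq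
    have q2 := hR.nc _ hq _ hμ
    have q3 : (0, a) ∈ R → ¬ Cr (c, d) (0, a) := fun h => hR.nc _ hq _ h
    have q4 : (0, b) ∈ R → ¬ Cr (c, d) (0, b) := fun h => hR.nc _ hq _ h
    by_cases h0 : c = 0
    · subst h0
      have d1 : d ≠ μ := fun h => hne (by rw [h])
      unfold Dg at q1
      unfold Cr at hc
      simp only at q1 hc
      rcases lt_or_gt_of_ne d1 with h | h
      · have : d ≤ a := ha2 d (mem_filter.2 ⟨mem_range.2 h, Or.inr hq⟩)
        omega
      · have : b ≤ d := hb2 d (mem_filter.2 ⟨mem_range.2 (by omega), h, Or.inr hq⟩)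
        omega
    · rcases ha.2 with k | k <;> rcases hb1.2.2 with k' | k'
      · unfold Dg at q1
        unfold Cr at hc q2
        simp only at q1 hc q2
        omega
      · have := q4 k'
        unfold Dg at q1
        unfold Cr at hc q2 this
        simp only at q1 hc q2 this
        omega
      · have := q3 k
        unfold Dg at q1
        unfold Cr at hc q2 this
        simp only at q1 hc q2 this
        omega
      · have t1 := q3 k
        have t2 := q4 k'
        unfold Dg at q1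
        unfold Cr at hc q2 t1 t2
        simp only at q1 hc q2 t1 t2
        omega
  have hsymm : ∀ p q : ℕ × ℕ, Cr p q → Cr q p := fun p q h => h.symm
  obtain ⟨T, hT, hsub⟩ := tri_ext (n := n) (l := l) (S := insert (a, b) (R.erase (0, μ)))
    (fun p hp => by
      rcases mem_insert.1 hp with h | h
      · exact h ▸ hdg
      · exact hR.dg p (mem_of_mem_erase h))
    (fun p hp q hq => by
      rcases mem_insert.1 hp with h | h <;> rcases mem_insert.1 hq with h' | h'
      · rw [h, h']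
        unfold Cr
        simp
      · rw [h]
        exact hnc q (mem_of_mem_erase h') (ne_of_mem_erase h')
      · rw [h']
        exact fun hc => hnc p (mem_of_mem_erase h) (ne_of_mem_erase h) (hsymm _ _ hc)
      · exact hR.nc p (mem_of_mem_erase h) q (mem_of_mem_erase h'))
  refine ⟨T, hT, fun hc => ?_, fun p hp hne => hsub (mem_insert_of_mem (mem_erase.2 ⟨hne, hp⟩))⟩
  apply hT.nc _ hc _ (hsub (mem_insert_self _ _))
  exact Or.inl ⟨by simp only; omega, ha.1, hb1.2.1⟩

theorem flip_mem {R T : Finset (ℕ × ℕ)} (hR : Tri n l R) (hT : Tri n l T) {μ : ℕ}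
    (h : ∀ p ∈ R, p ≠ (0, μ) → p ∈ T) : ∀ p ∈ T, p ∈ R ∨ Cr p (0, μ) := by
  intro p hp
  by_cases hc : Cr p (0, μ)
  · exact Or.inr hc
  · refine Or.inl (hR.mx p (hT.dg p hp) fun q hq => ?_)
    by_cases hq2 : q = (0, μ)
    · exact hq2 ▸ hc
    · exact hT.nc p hp q (h q hq hq2)

/-- Below a shortest chord there is a vertex without chords. -/
theorem free_vertex (hl : l + 3 ≤ n) {R : Finset (ℕ × ℕ)} (hR : Tri n l R) :
    ∃ y, l + 1 ≤ y ∧ y + 1 < n ∧ ∀ p ∈ R, p.1 ≠ y ∧ p.2 ≠ y := by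
  rcases R.eq_empty_or_nonempty with h0 | h0
  · exact ⟨l + 1, le_rfl, by omega, fun p hp => by rw [h0] at hp; exact absurd hp (notMem_empty _)⟩
  · obtain ⟨⟨a, b⟩, hc, hmin⟩ := exists_min_image R (fun p => p.2 - max p.1 l) h0
    have c1 := hR.dg _ hc
    refine ⟨max a l + 1, by omega, ?_, ?_⟩
    · unfold Dg at c1
      simp only at c1
      omega
    · rintro ⟨c, d⟩ hq
      have q1 := hR.dg _ hq
      have q2 := hR.nc _ hc _ hq
      have q3 := hmin _ hq
      unfold Dg at c1 q1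
      unfold Cr at q2
      simp only at c1 q1 q2 q3 ⊢
      omega

theorem mem_fan {y : ℕ} {p : ℕ × ℕ} : p ∈ Fan n l y ↔ Dg n l p ∧ (p.1 = y ∨ p.2 = y) := by
  classical
  unfold Fan
  rw [mem_filter, mem_product, mem_range, mem_range]
  refine ⟨fun h => h.2, fun h => ⟨?_, h⟩⟩
  have h1 := h.1
  unfold Dg at h1
  omega

theorem tri_fan {y : ℕ} (hy : y = 0 ∨ (l + 1 ≤ y ∧ y < n)) : Tri n l (Fan n l y) := by
  refine ⟨fun p hp => (mem_fan.1 hp).1, fun p hp q hq => ?_, ?_⟩
  · have h1 := (mem_fan.1 hp).2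
    have h2 := (mem_fan.1 hq).2
    unfold Cr
    omega
  · rintro ⟨a, b⟩ hp h
    rw [mem_fan]
    refine ⟨hp, ?_⟩
    by_contra hc
    unfold Dg at hp
    simp only at hp hc
    by_cases k1 : y < a
    · refine h (y, a + 1) (mem_fan.2 ⟨?_, Or.inl rfl⟩) ?_
      · unfold Dg
        simp only
        omega
      · unfold Cr
        simp only
        omega
    · by_cases k2 : b < y
      · refine h (b - 1, y) (mem_fan.2 ⟨?_, Or.inr rfl⟩) ?_
        · unfold Dg
          simp only
          omega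
        · unfold Cr
          simp only
          omega
      · by_cases k3 : a = 0
        · refine h (y, b + 1) (mem_fan.2 ⟨?_, Or.inl rfl⟩) ?_
          · unfold Dg
            simp only
            omega
          · unfold Cr
            simp only
            omega
        · refine h (0, y) (mem_fan.2 ⟨?_, Or.inr rfl⟩) ?_
          · exact Or.inl ⟨rfl, by simp only; omega, by simp only; omega⟩
          · unfold Cr
            simp only
            omega

theorem tri_top (hl : n ≤ l + 3) {S : Finset (ℕ × ℕ)} : Tri n l S ↔ S = ∅ := by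
  have h0 : ∀ p, ¬ Dg n l p := by
    intro p hp
    unfold Dg at hp
    omega
  constructor
  · intro h
    rw [eq_empty_iff_forall_notMem]
    exact fun p hp => h0 p (h.dg p hp)
  · rintro rfl
    exact ⟨fun p hp => absurd hp (notMem_empty _), fun p hp => absurd hp (notMem_empty _),
      fun p hp => absurd hp (h0 p)⟩

end Pool.Agent.Lib.MP_04fdae_co.X
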