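import Pool.Agent.Lib.MP_04fdae_co.X.Defs

/-! Flips and fans. -/

namespace Pool.Agent.Lib.MP_04fdae_co.X

open Finset

variable {n l : ℕ}

theorem flip_exists7 (tri_ext : ∀ {S : Finset (ℕ × ℕ)}, (∀ p ∈ S, Dg n l p) →
    (∀ p ∈ S, ∀ q ∈ S, ¬ Cr p q) → ∃ T, Tri n l T ∧ S ⊆ T)
    {R : Finset (ℕ × ℕ)} (hR : Tri n l R) {μ : ℕ} (hμ : (0, μ) ∈ R) :
    ∃ T, Tri n l T ∧ (0, μ) ∉ T ∧ ∀ p ∈ R, p ≠ (0, μ) → p ∈ T := by
  classical
  have d := hR.dg _ hμ
  unfold Dg at d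
  obtain ⟨a, ha, ma⟩ := exists_max_image ((range μ).filter fun x => x = l + 1 ∨ (0, x) ∈ R) id
    ⟨l + 1, by simp; omega⟩
  obtain ⟨b, hb, mb⟩ := exists_min_image ((Ioo μ n).filter fun x => x + 1 = n ∨ (0, x) ∈ R) id
    ⟨n - 1, by simp; omega⟩
  simp only [mem_filter, mem_range, mem_Ioo, id, and_imp] at ha hb ma mb
  have ka : l + 1 ≤ a := ma _ (by omega) (.inl rfl)
  have key : ∀ q ∈ R, q ≠ (0, μ) → ¬ Cr (a, b) q := by
    rintro ⟨c, e⟩ hq ne hc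
    have d' := hR.dg _ hq
    have n1 := fun h => hR.nc (0, a) h _ hq
    have n2 := fun h => hR.nc (0, b) h _ hq
    have m1 := ma e
    have m2 := mb e
    unfold Dg at d'
    unfold Cr at hc n1 n2
    grind
  obtain ⟨T, hT, hs⟩ := tri_ext (S := insert (a, b) (R.erase (0, μ))) (fun p hp => by
    rcases mem_insert.1 hp with rfl | hp
    · exact .inr ⟨ka, by omega, hb.1.2⟩
    · exact hR.dg p (mem_of_mem_erase hp)) fun p hp q hq => by
    rcases mem_insert.1 hp with rfl | hp <;> rcases mem_insert.1 hq with rfl | hq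
    · unfold Cr; omega
    · exact key q (mem_of_mem_erase hq) (ne_of_mem_erase hq)
    · exact fun c => key p (mem_of_mem_erase hp) (ne_of_mem_erase hp) c.symm
    · exact hR.nc p (mem_of_mem_erase hp) q (mem_of_mem_erase hq)
  exact ⟨T, hT, fun h => hT.nc _ h _ (hs (mem_insert_self _ _)) (.inl ⟨by omega, ha.1, hb.1.1⟩),
    fun p hp ne => hs (mem_insert_of_mem (mem_erase.2 ⟨ne, hp⟩))⟩

theorem flip_mem7 {R T : Finset (ℕ × ℕ)} (hR : Tri n l R) (hT : Tri n l T) {μ : ℕ}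
    (h : ∀ p ∈ R, p ≠ (0, μ) → p ∈ T) : ∀ p ∈ T, p ∈ R ∨ Cr p (0, μ) := fun p hp => by
  by_contra hc
  refine hc (.inl (hR.mx p (hT.dg p hp) fun q hq c => ?_))
  by_cases e : q = (0, μ)
  · exact hc (.inr (e ▸ c))
  · exact hT.nc p hp q (h q hq e) c

theorem free_vertex7 (hl : l + 3 ≤ n) {R : Finset (ℕ × ℕ)} (hR : Tri n l R) :
    ∃ y, l + 1 ≤ y ∧ y + 1 < n ∧ ∀ p ∈ R, p.1 ≠ y ∧ p.2 ≠ y := by
  rcases R.eq_empty_or_nonempty with rfl | ne
  · exact ⟨l + 1, le_rfl, by omega, by simp⟩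
  obtain ⟨⟨a, b⟩, hq, m⟩ := exists_min_image R (fun p => p.2 - p.1) ne
  have d := hR.dg _ hq
  unfold Dg at d
  refine ⟨b - 1, by omega, by omega, fun p hp => ?_⟩
  have d' := hR.dg _ hp
  have c := hR.nc _ hq _ hp
  have m' := m p hp
  unfold Dg at d'
  unfold Cr at c
  omega

theorem mem_fan7 {y : ℕ} {p : ℕ × ℕ} : p ∈ Fan n l y ↔ Dg n l p ∧ (p.1 = y ∨ p.2 = y) := by
  simp only [Fan, mem_filter, mem_product, mem_range]
  refine and_iff_right_of_imp fun h => ?_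
  have := h.1
  unfold Dg at this
  omega

theorem tri_fan7 {y : ℕ} (hy : y = 0 ∨ (l + 1 ≤ y ∧ y < n)) : Tri n l (Fan n l y) := by
  refine ⟨fun p hp => (mem_fan7.1 hp).1, fun p hp q hq => ?_, fun p hp h => ?_⟩
  · have := (mem_fan7.1 hp).2
    have := (mem_fan7.1 hq).2
    unfold Cr
    omega
  · refine mem_fan7.2 ⟨hp, ?_⟩
    have k : ∀ q : ℕ × ℕ, Dg n l q → (q.1 = y ∨ q.2 = y) → ¬ Cr p q := fun q a b =>
      h q (mem_fan7.2 ⟨a, b⟩)
    by_contra hc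
    unfold Dg Cr at k
    unfold Dg at hp
    rcases hy with rfl | hy
    · exact k (0, p.2 - 1) (by omega) (.inl rfl) (by omega)
    rcases lt_or_ge y p.1 with c | c
    · exact k (y, p.2 - 1) (by omega) (.inl rfl) (by omega)
    rcases lt_or_ge p.2 y with c' | c'
    · exact k (p.2 - 1, y) (by omega) (.inr rfl) (by omega)
    rcases hp with hp | hp
    · exact k (y, n - 1) (by omega) (.inl rfl) (by omega)
    · exact k (0, y) (by omega) (.inr rfl) (by omega)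

theorem tri_top7 (hl : n ≤ l + 3) {S : Finset (ℕ × ℕ)} : Tri n l S ↔ S = ∅ := by
  have d : ∀ p, ¬ Dg n l p := fun p h => by
    unfold Dg at h
    omega
  exact ⟨fun h => eq_empty_of_forall_notMem fun p hp => d p (h.dg p hp),
    fun h => h ▸ ⟨by simp, by simp, fun p hp => absurd hp (d p)⟩⟩

end Pool.Agent.Lib.MP_04fdae_co.X
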