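import Pool.Agent.Lib.MP_04fdae_co.X.Geo
import Pool.Agent.Lib.MP_04fdae_co.X.Num

/-! Expanded objects and the labelling map of one step. -/

namespace Pool.Agent.Lib.MP_04fdae_co.X

open Finset

/-- An object of level `l` read after the contraction: `R` has level `l + 1`, `u` is the apex. -/
@[ext] structure EOb where
  Z : Finset ℕ
  w : List (Fin 3)
  R : Finset (ℕ × ℕ)
  H : Finset ℕ
  u : ℕ

structure ValE (n l : ℕ) (e : EOb) : Prop where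
  red : e.Z ⊆ range l
  word : e.w ∈ MzF (l - e.Z.card) e.H.card
  tri : Tri n (l + 1) e.R
  ap : e.u = l + 2 ∨ e.u + 1 = n ∨ (0, e.u) ∈ e.R
  mark : ∀ x ∈ e.H, e.u ≤ x ∧ ((0, x) ∈ e.R ∨ x = l + 2)

/-- A common red position or a common far chord. -/
def Easy (e e' : EOb) : Prop := (∃ i ∈ e.Z, i ∈ e'.Z) ∨ ∃ p ∈ e.R, p ∈ e'.R ∧ p.1 ≠ 0

/-- Meeting through chords at the two contracted vertices. -/
def CoreN (r n : ℕ) (X : ℕ → Prop) (H H' : Finset ℕ) (u u' : ℕ) : Prop :=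
  (u = r ∧ u' = r ∧ r ∉ H ∧ r ∉ H') ∨ (u + 1 = n ∧ u' + 1 = n) ∨
    ∃ x, X x ∧ ((x ≤ u ∧ x ≤ u') ∨ (u ≤ x ∧ u' ≤ x ∧ x ∉ H ∧ x ∉ H'))

def MeetE (n l : ℕ) (e e' : EOb) : Prop :=
  Easy e e' ∨ CoreN (l + 2) n (fun x => (0, x) ∈ e.R ∧ (0, x) ∈ e'.R) e.H e'.H e.u e'.u

structure FamE (n l : ℕ) (E : Finset EOb) : Prop where
  val : ∀ e ∈ E, ValE n l e
  meet : ∀ e ∈ E, ∀ e' ∈ E, MeetE n l e e'

/-- The same fibre. -/
def Key (e e' : EOb) : Prop := e'.Z = e.Z ∧ e'.w = e.w ∧ e'.R = e.R ∧ e'.H = e.H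

def Lower (E : Finset EOb) (e : EOb) : Prop := ∃ a ∈ E, Key e a ∧ a.u < e.u

def Upper (E : Finset EOb) (e : EOb) : Prop := ∃ b ∈ E, Key e b ∧ e.u < b.u

/-- Alone in its fibre, and the apex is marked. -/
def Cand (E : Finset EOb) (e : EOb) : Prop := ¬ Lower E e ∧ ¬ Upper E e ∧ e.u ∈ e.H

/-- The least candidate for a down step. -/
def TakesD (E : Finset EOb) (e : EOb) : Prop :=
  Cand E e ∧ ∀ k ∈ E, Cand E k → k.Z = e.Z → k.w = e.w → k.R = e.R →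
    k.H.erase k.u = e.H.erase e.u → e.u ≤ k.u

open Classical in
/-- The flip of the chord `(0, μ)`. -/
noncomputable def flp (n l : ℕ) (R : Finset (ℕ × ℕ)) (μ : ℕ) : Finset (ℕ × ℕ) :=
  if h : ∃ T, Tri n l T ∧ (0, μ) ∉ T ∧ ∀ p ∈ R, p ≠ (0, μ) → p ∈ T then h.choose else R

def obR (l : ℕ) (e : EOb) : Ob := ⟨insert l e.Z, e.w, e.R, e.H⟩

def obB (e : EOb) : Ob := ⟨e.Z, 0 :: e.w, e.R, e.H⟩

def obU (e : EOb) : Ob := ⟨e.Z, 1 :: e.w, e.R, insert e.u e.H⟩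

def obD (e : EOb) : Ob := ⟨e.Z, 2 :: e.w, e.R, e.H.erase e.u⟩

noncomputable def obM (n l : ℕ) (e : EOb) : Ob :=
  ⟨insert l e.Z, e.w, flp n (l + 1) e.R e.u, e.H⟩

/-- The up object misses the red object of a singleton with unmarked apex. -/
def Bad (l : ℕ) (E : Finset EOb) (e : EOb) : Prop :=
  ∃ s ∈ E, ¬ Lower E s ∧ ¬ Upper E s ∧ s.u ∉ s.H ∧ ¬ Meet (obU e) (obR l s)

open Classical in
noncomputable def lab (n l : ℕ) (E : Finset EOb) (e : EOb) : Ob :=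
  if TakesD E e then obD e else if ¬ Lower E e then obR l e else if ¬ Upper E e then obB e
  else if Bad l E e then obM n l e else obU e

theorem lab_cases (n l : ℕ) (E : Finset EOb) (e : EOb) :
    (TakesD E e ∧ lab n l E e = obD e) ∨
    (¬ TakesD E e ∧ ¬ Lower E e ∧ lab n l E e = obR l e) ∨
    (Lower E e ∧ ¬ Upper E e ∧ lab n l E e = obB e) ∨
    (Lower E e ∧ Upper E e ∧ Bad l E e ∧ lab n l E e = obM n l e) ∨
    (Lower E e ∧ Upper E e ∧ ¬ Bad l E e ∧ lab n l E e = obU e) := by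
  unfold lab
  by_cases h1 : TakesD E e
  · exact Or.inl ⟨h1, if_pos h1⟩
  · rw [if_neg h1]
    by_cases h2 : Lower E e
    · rw [if_neg (not_not.2 h2)]
      by_cases h3 : Upper E e
      · rw [if_neg (not_not.2 h3)]
        by_cases h4 : Bad l E e
        · exact Or.inr (Or.inr (Or.inr (Or.inl ⟨h2, h3, h4, if_pos h4⟩)))
        · exact Or.inr (Or.inr (Or.inr (Or.inr ⟨h2, h3, h4, if_neg h4⟩)))
      · exact Or.inr (Or.inr (Or.inl ⟨h2, h3, if_pos h3⟩))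
    · exact Or.inr (Or.inl ⟨h1, h2, if_pos h2⟩)

theorem flp_spec {n l : ℕ} {R : Finset (ℕ × ℕ)} (hR : Tri n l R) {μ : ℕ} (hμ : (0, μ) ∈ R) :
    Tri n l (flp n l R μ) ∧ (0, μ) ∉ flp n l R μ ∧ (∀ p ∈ R, p ≠ (0, μ) → p ∈ flp n l R μ) ∧
      ∀ p ∈ flp n l R μ, p ∈ R ∨ Cr p (0, μ) := by
  have h := flip_exists hR hμ
  have h1 : flp n l R μ = h.choose := dif_pos h
  rw [h1]
  exact ⟨h.choose_spec.1, h.choose_spec.2.1, h.choose_spec.2.2,
    flip_mem hR h.choose_spec.1 h.choose_spec.2.2⟩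

theorem Tri.wch {n l : ℕ} {R : Finset (ℕ × ℕ)} (hR : Tri n l R) {x : ℕ} (hx : (0, x) ∈ R) :
    l + 2 ≤ x ∧ x + 1 < n := by
  have h := hR.dg _ hx
  unfold Dg at h
  simp only at h
  omega

theorem ValE.bd {n l : ℕ} (hl : l + 3 < n) {e : EOb} (h : ValE n l e) :
    l + 2 ≤ e.u ∧ e.u < n := by
  rcases h.ap with h1 | h1 | h1
  · omega
  · omega
  · have := h.tri.wch h1
    omega

/-- An apex with a smaller and a larger apex in its fibre is a chord. -/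
theorem inner_mem {n l : ℕ} (hl : l + 3 < n) {E : Finset EOb} (hE : FamE n l E) {e : EOb}
    (he : e ∈ E) (h1 : Lower E e) (h2 : Upper E e) : (0, e.u) ∈ e.R ∧ ∀ x ∈ e.H, e.u < x := by
  obtain ⟨a, ha, -, ha2⟩ := h1
  obtain ⟨b, hb, hb1, hb2⟩ := h2
  have h3 := (hE.val a ha).bd hl
  have h4 := (hE.val b hb).bd hl
  refine ⟨?_, fun x hx => lt_of_lt_of_le hb2 ((hE.val b hb).mark x (hb1.2.2.2 ▸ hx)).1⟩
  rcases (hE.val e he).ap with h5 | h5 | h5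
  · omega
  · omega
  · exact h5

end Pool.Agent.Lib.MP_04fdae_co.X
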