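import Pool.Agent.Lib.MP_04fdae_co.X.Geo
import Pool.Agent.Lib.MP_04fdae_co.X.Num

/-! Counting the star of the ear `(0, 2)` from below, level by level. -/

namespace Pool.Agent.Lib.MP_04fdae_co.X

open Finset

variable {n : ℕ}

theorem low_top' (hn : 4 ≤ n) : ∃ G : Finset Ob, (∀ o ∈ G, Val n (n - 3) o ∧ 0 ∈ o.Z) ∧
    catalan (n - 3) ≤ G.card := by
  classical
  refine ⟨(((range (n - 3)).powerset.filter (fun Z => 0 ∈ Z)).sigma
    (fun Z => MzF (n - 3 - Z.card) 0)).image (fun x => (⟨x.1, x.2, ∅, ∅⟩ : Ob)), ?_, ?_⟩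
  · intro o ho
    obtain ⟨⟨Z, w⟩, hx, rfl⟩ := mem_image.1 ho
    obtain ⟨h1, h2⟩ := mem_sigma.1 hx
    obtain ⟨h3, h4⟩ := mem_filter.1 h1
    exact ⟨⟨mem_powerset.1 h3, by simpa using h2, (tri_top (by omega)).2 rfl, by simp⟩, h4⟩
  · rw [card_image_of_injective, card_sigma, red_star (by omega)]
    rintro ⟨Z, w⟩ ⟨Z', w'⟩ h
    simp only [Ob.mk.injEq] at h
    obtain ⟨rfl, rfl, -⟩ := h
    rfl

theorem low_ge {l u : ℕ} (hl : l + 3 < n) {S R : Finset (ℕ × ℕ)} (hR : Tri n (l + 1) R)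
    (h : Con n l S R u) : l + 2 ≤ u := by
  rcases h.ap with h1 | h1 | h1
  · omega
  · omega
  · have := hR.dg _ h1
    simp only [Dg] at this
    omega

theorem low_le {l u u' : ℕ} (hl : l + 3 < n) {S R R' : Finset (ℕ × ℕ)} (hR : Tri n (l + 1) R)
    (h : Con n l S R u) (h' : Con n l S R' u') : u' ≤ u := by
  have h0 := low_ge hl hR h
  rcases h'.ap with h1 | h1 | h1
  · omega
  · exact ((h.vch u').1 ((h'.vch u').2 ⟨le_rfl, Or.inr h1⟩)).1
  · exact ((h.vch u').1 ((h'.vch u').2 ⟨le_rfl, Or.inl h1⟩)).1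

theorem low_sub {l u : ℕ} {S R R' : Finset (ℕ × ℕ)} (hR : Tri n (l + 1) R)
    (h : Con n l S R u) (h' : Con n l S R' u) : R ⊆ R' := by
  rintro ⟨a, b⟩ hp
  have hd := hR.dg _ hp
  simp only [Dg] at hd
  rcases hd with ⟨rfl, h1, h2⟩ | ⟨h1, -, -⟩
  · rcases le_total u b with h3 | h3
    · rcases ((h'.wch b).1 ((h.wch b).2 ⟨h3, Or.inl hp⟩)).2 with h4 | h4
      · exact h4
      · omega
    · rcases ((h'.vch b).1 ((h.vch b).2 ⟨h3, Or.inl hp⟩)).2 with h4 | h4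
      · exact h4
      · omega
  · exact (h'.far a b (by omega)).1 ((h.far a b (by omega)).2 hp)

theorem low_uniq {l u u' : ℕ} (hl : l + 3 < n) {S R R' : Finset (ℕ × ℕ)} (hR : Tri n (l + 1) R)
    (hR' : Tri n (l + 1) R') (h : Con n l S R u) (h' : Con n l S R' u') : R = R' ∧ u = u' := by
  have hu : u = u' := le_antisymm (low_le hl hR' h' h) (low_le hl hR h h')
  subst hu
  exact ⟨Subset.antisymm (low_sub hR h h') (low_sub hR' h' h), rfl⟩

theorem low_mark {l : ℕ} {o : Ob} (ho : Val n (l + 1) o) {x : ℕ} (hx : x ∈ o.H) :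
    l + 3 ≤ x ∧ x + 1 < n := by
  have := ho.tri.dg _ (ho.mark x hx)
  simp only [Dg] at this
  omega

/-- The relation between an object of level `l + 1` and its chosen preimage of level `l`. -/
def LowRel (n l : ℕ) (o o' : Ob) : Prop :=
  ∃ u, Con n l o'.S o.S u ∧
    ((l ∈ o.Z ∧ o'.Z = o.Z.erase l ∧ o.w = o'.w ∧ o'.H = o.H ∧ u = l + 2) ∨
     (l ∉ o.Z ∧ o'.Z = o.Z ∧ o.w = 0 :: o'.w ∧ o'.H = o.H ∧ (u ∈ o.H ∨ u + 1 = n)) ∨
     (l ∉ o.Z ∧ o'.Z = o.Z ∧ o.w = 1 :: o'.w ∧ o'.H = o.H.erase u ∧ u ∈ o.H) ∨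
     (l ∉ o.Z ∧ o'.Z = o.Z ∧ o.w = 2 :: o'.w ∧ o'.H = insert (l + 2) o.H ∧ u = l + 2))

theorem low_rel_exists {l : ℕ} (hl0 : 1 ≤ l) (hl : l + 3 < n) {o : Ob} (ho : Val n (l + 1) o)
    (h0 : 0 ∈ o.Z) : ∃ o', (Val n l o' ∧ 0 ∈ o'.Z) ∧ LowRel n l o o' := by
  classical
  by_cases hz : l ∈ o.Z
  · obtain ⟨S, hS, hc⟩ := con_surj hl ho.tri (u := l + 2) (Or.inl rfl)
    refine ⟨⟨o.Z.erase l, o.w, S, o.H⟩, ⟨⟨?_, ?_, hS, ?_⟩, ?_⟩, l + 2, hc,
      Or.inl ⟨hz, rfl, rfl, rfl, rfl⟩⟩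
    · intro i hi
      have h1 := mem_range.1 (ho.red (mem_of_mem_erase hi))
      have h2 := ne_of_mem_erase hi
      exact mem_range.2 (by omega)
    · have h1 := ho.word
      have h2 : (o.Z.erase l).card + 1 = o.Z.card := card_erase_add_one hz
      have h3 : l - (o.Z.erase l).card = l + 1 - o.Z.card := by omega
      simpa only [h3] using h1
    · intro x hx
      have := low_mark ho hx
      exact (hc.wch x).2 ⟨by omega, Or.inl (ho.mark x hx)⟩
    · exact mem_erase.2 ⟨by omega, h0⟩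
  · have hsub : o.Z ⊆ range l := by
      intro i hi
      have h1 := mem_range.1 (ho.red hi)
      have h2 : i ≠ l := fun h => hz (h ▸ hi)
      exact mem_range.2 (by omega)
    have hcard : o.Z.card ≤ l := by simpa using card_le_card hsub
    have hw := ho.word
    rw [show l + 1 - o.Z.card = l - o.Z.card + 1 by omega] at hw
    have hlen := mz_length hw
    obtain ⟨a, w, hw'⟩ : ∃ a w, o.w = a :: w := by
      cases h : o.w with
      | nil => rw [h] at hlen; simp at hlen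
      | cons a w => exact ⟨a, w, rfl⟩
    rw [hw'] at hw
    have hleast : ∃ u, (∀ x ∈ o.H, u ≤ x) ∧ (u ∈ o.H ∨ (o.H = ∅ ∧ u + 1 = n)) := by
      rcases o.H.eq_empty_or_nonempty with h | h
      · exact ⟨n - 1, by simp [h], Or.inr ⟨h, by omega⟩⟩
      · exact ⟨o.H.min' h, fun x hx => min'_le _ _ hx, Or.inl (min'_mem _ _)⟩
    obtain ⟨u, hu1, hu2⟩ := hleast
    have ha : a = 0 ∨ a = 1 ∨ a = 2 := (by decide : ∀ b : Fin 3, b = 0 ∨ b = 1 ∨ b = 2) a
    rcases ha with rfl | rfl | rfl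
    · obtain ⟨S, hS, hc⟩ := con_surj hl ho.tri (u := u) (by
        rcases hu2 with h | h
        · exact Or.inr (Or.inr (ho.mark u h))
        · exact Or.inr (Or.inl h.2))
      refine ⟨⟨o.Z, w, S, o.H⟩, ⟨⟨hsub, mz_flat.1 hw, hS, ?_⟩, h0⟩, u, hc,
        Or.inr (Or.inl ⟨hz, rfl, hw', rfl, hu2.imp id And.right⟩)⟩
      intro x hx
      exact (hc.wch x).2 ⟨hu1 x hx, Or.inl (ho.mark x hx)⟩
    · have hu : u ∈ o.H := by
        rcases hu2 with h | h
        · exact h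
        · rw [h.1, card_empty] at hw
          exact absurd hw mz_up_zero
      obtain ⟨S, hS, hc⟩ := con_surj hl ho.tri (u := u) (Or.inr (Or.inr (ho.mark u hu)))
      rw [← card_erase_add_one hu] at hw
      refine ⟨⟨o.Z, w, S, o.H.erase u⟩, ⟨⟨hsub, mz_up.1 hw, hS, ?_⟩, h0⟩, u, hc,
        Or.inr (Or.inr (Or.inl ⟨hz, rfl, hw', rfl, hu⟩))⟩
      intro x hx
      have hx' := mem_of_mem_erase hx
      exact (hc.wch x).2 ⟨hu1 x hx', Or.inl (ho.mark x hx')⟩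
    · obtain ⟨S, hS, hc⟩ := con_surj hl ho.tri (u := l + 2) (Or.inl rfl)
      have hn : l + 2 ∉ o.H := fun h => by
        have := low_mark ho h
        omega
      refine ⟨⟨o.Z, w, S, insert (l + 2) o.H⟩, ⟨⟨hsub, ?_, hS, ?_⟩, h0⟩, l + 2, hc,
        Or.inr (Or.inr (Or.inr ⟨hz, rfl, hw', rfl, rfl⟩))⟩
      · show w ∈ MzF (l - o.Z.card) (insert (l + 2) o.H).card
        rw [card_insert_of_notMem hn]
        exact mz_down.1 hw
      · intro x hx
        rcases mem_insert.1 hx with h | h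
        · exact (hc.wch x).2 ⟨by omega, Or.inr h⟩
        · have := low_mark ho h
          exact (hc.wch x).2 ⟨by omega, Or.inl (ho.mark x h)⟩

theorem low_rel_inj {l : ℕ} (hl : l + 3 < n) {o₁ o₂ o' : Ob} (h1 : Val n (l + 1) o₁)
    (h2 : Val n (l + 1) o₂) (r1 : LowRel n l o₁ o') (r2 : LowRel n l o₂ o') : o₁ = o₂ := by
  classical
  obtain ⟨u, c1, r1⟩ := r1
  obtain ⟨u', c2, r2⟩ := r2
  obtain ⟨hS, rfl⟩ := low_uniq hl h1.tri h2.tri c1 c2
  have m1 : ∀ x ∈ o₁.H, l + 3 ≤ x ∧ x + 1 < n := fun x hx => low_mark h1 hx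
  have m2 : ∀ x ∈ o₂.H, l + 3 ≤ x ∧ x + 1 < n := fun x hx => low_mark h2 hx
  have n1 : l + 2 ∉ o₁.H := fun h => by have := m1 _ h; omega
  have n2 : l + 2 ∉ o₂.H := fun h => by have := m2 _ h; omega
  rcases r1 with ⟨a1, a2, a3, a4, a5⟩ | ⟨a1, a2, a3, a4, a5⟩ | ⟨a1, a2, a3, a4, a5⟩ |
      ⟨a1, a2, a3, a4, a5⟩ <;>
    rcases r2 with ⟨b1, b2, b3, b4, b5⟩ | ⟨b1, b2, b3, b4, b5⟩ | ⟨b1, b2, b3, b4, b5⟩ |
      ⟨b1, b2, b3, b4, b5⟩
  · refine Ob.ext ?_ (a3.trans b3.symm) hS (a4.symm.trans b4)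
    rw [← insert_erase a1, ← insert_erase b1, ← a2, ← b2]
  · exfalso
    rcases b5 with h | h
    · have := m2 _ h; omega
    · omega
  · exfalso
    have := m2 _ b5; omega
  · exfalso
    exact n1 (a4 ▸ b4 ▸ mem_insert_self _ _)
  · exfalso
    rcases a5 with h | h
    · have := m1 _ h; omega
    · omega
  · exact Ob.ext (a2.symm.trans b2) (a3.trans b3.symm) hS (a4.symm.trans b4)
  · exfalso
    rcases a5 with h | h
    · rw [← a4, b4] at h
      exact notMem_erase _ _ h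
    · have := m2 _ b5; omega
  · exfalso
    rcases a5 with h | h
    · have := m1 _ h; omega
    · omega
  · exfalso
    have := m1 _ a5; omega
  · exfalso
    rcases b5 with h | h
    · rw [← b4, a4] at h
      exact notMem_erase _ _ h
    · have := m1 _ a5; omega
  · refine Ob.ext (a2.symm.trans b2) (a3.trans b3.symm) hS ?_
    rw [← insert_erase a5, ← insert_erase b5, ← a4, ← b4]
  · exfalso
    have := m1 _ a5; omega
  · exfalso
    exact n2 (b4 ▸ a4 ▸ mem_insert_self _ _)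
  · exfalso
    rcases b5 with h | h
    · have := m2 _ h; omega
    · omega
  · exfalso
    have := m2 _ b5; omega
  · refine Ob.ext (a2.symm.trans b2) (a3.trans b3.symm) hS ?_
    rw [← erase_insert n1, ← erase_insert n2, ← a4, ← b4]

theorem low_step' {l : ℕ} (hl0 : 1 ≤ l) (hl : l + 3 < n) {G : Finset Ob}
    (h : ∀ o ∈ G, Val n (l + 1) o ∧ 0 ∈ o.Z) :
    ∃ G' : Finset Ob, (∀ o ∈ G', Val n l o ∧ 0 ∈ o.Z) ∧ G.card ≤ G'.card := by
  classical
  have key : ∀ o : Ob, ∃ o', o ∈ G → (Val n l o' ∧ 0 ∈ o'.Z) ∧ LowRel n l o o' := by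
    intro o
    by_cases ho : o ∈ G
    · obtain ⟨o', h'⟩ := low_rel_exists hl0 hl (h o ho).1 (h o ho).2
      exact ⟨o', fun _ => h'⟩
    · exact ⟨o, fun h' => absurd h' ho⟩
  choose f hf using key
  refine ⟨G.image f, ?_, ?_⟩
  · intro o' ho'
    obtain ⟨o, ho, rfl⟩ := mem_image.1 ho'
    exact (hf o ho).1
  · rw [card_image_of_injOn]
    intro a ha b hb hab
    exact low_rel_inj hl (h a ha).1 (h b hb).1 (hf a ha).2 (hab ▸ (hf b hb).2)

theorem low_all (hn : 4 ≤ n) (k : ℕ) (hk : k + 4 ≤ n) :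
    ∃ G : Finset Ob, (∀ o ∈ G, Val n (n - 3 - k) o ∧ 0 ∈ o.Z) ∧ catalan (n - 3) ≤ G.card := by
  induction k with
  | zero => exact low_top' hn
  | succ k ih =>
    obtain ⟨G, h1, h2⟩ := ih (by omega)
    rw [show n - 3 - k = n - 3 - (k + 1) + 1 by omega] at h1
    obtain ⟨G', h3, h4⟩ := low_step' (by omega) (by omega) h1
    exact ⟨G', h3, h2.trans h4⟩

theorem low_star' (hn : 4 ≤ n) : ∃ F : Finset (Finset (ℕ × ℕ)),
    (∀ S ∈ F, Tri n 0 S ∧ (0, 2) ∈ S) ∧ catalan (n - 3) ≤ F.card := by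
  classical
  obtain ⟨G, h1, h2⟩ := low_all hn (n - 4) (by omega)
  rw [show n - 3 - (n - 4) = 0 + 1 by omega] at h1
  have key : ∀ o : Ob, ∃ S, o ∈ G → Tri n 0 S ∧ Con n 0 S o.S 2 := by
    intro o
    by_cases ho : o ∈ G
    · obtain ⟨S, h'⟩ := con_surj (by omega) (h1 o ho).1.tri (u := 2) (Or.inl rfl)
      exact ⟨S, fun _ => h'⟩
    · exact ⟨∅, fun h' => absurd h' ho⟩
  choose f hf using key
  have hz : ∀ o ∈ G, o.Z = {0} ∧ o.w = [] ∧ o.H = ∅ := by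
    intro o ho
    obtain ⟨hv, h0⟩ := h1 o ho
    have e1 : o.Z = {0} := by
      refine Subset.antisymm ?_ (singleton_subset_iff.2 h0)
      intro i hi
      have := mem_range.1 (hv.red hi)
      exact mem_singleton.2 (by omega)
    have hw := hv.word
    rw [e1, card_singleton, show 0 + 1 - 1 = 0 from rfl] at hw
    have e2 : o.w = [] := List.eq_nil_of_length_eq_zero (mz_length hw)
    rw [e2] at hw
    exact ⟨e1, e2, card_eq_zero.1 (mz_nil.1 hw)⟩
  refine ⟨G.image f, ?_, h2.trans (le_of_eq ?_)⟩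
  · intro S hS
    obtain ⟨o, ho, rfl⟩ := mem_image.1 hS
    exact ⟨(hf o ho).1, ((hf o ho).2.wch 2).2 ⟨le_rfl, Or.inr rfl⟩⟩
  · rw [card_image_of_injOn]
    intro a ha b hb hab
    obtain ⟨a1, a2, a3⟩ := hz a ha
    obtain ⟨b1, b2, b3⟩ := hz b hb
    have := low_uniq (by omega) (h1 a ha).1.tri (h1 b hb).1.tri (hf a ha).2 (hab ▸ (hf b hb).2)
    exact Ob.ext (a1.trans b1.symm) (a2.trans b2.symm) this.1 (a3.trans b3.symm)

end Pool.Agent.Lib.MP_04fdae_co.X
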