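import Pool.Agent.Lib.MP_04fdae_co.X.Lab

/-! Reading a meeting family of level `l` after the contraction. -/

namespace Pool.Agent.Lib.MP_04fdae_co.X

open Finset

variable {n l : ℕ}

theorem exists_E' (hl : l + 3 < n) {G : Finset Ob} (hG : Fam n l G) :
    ∃ E : Finset EOb, FamE n l E ∧ E.card = G.card ∧
      ∀ o ∈ G, ∃ e ∈ E, e.Z = o.Z ∧ e.H = o.H ∧ Con n l o.S e.R e.u := by
  classical
  have h0 : ∀ o : Ob, ∃ R u, o ∈ G → Tri n (l + 1) R ∧ Con n l o.S R u := fun o => by
    by_cases h : o ∈ G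
    · obtain ⟨R, u, h1⟩ := con_exists hl (hG.val o h).tri
      exact ⟨R, u, fun _ => h1⟩
    · exact ⟨∅, 0, fun h1 => absurd h1 h⟩
  choose R u h using h0
  have hv : ∀ o ∈ G, ValE n l ⟨o.Z, o.w, R o, o.H, u o⟩ := fun o ho =>
    ⟨(hG.val o ho).red, (hG.val o ho).word, (h o ho).1, (h o ho).2.ap,
      fun x hx => ((h o ho).2.wch x).1 ((hG.val o ho).mark x hx)⟩
  refine ⟨G.image fun o => ⟨o.Z, o.w, R o, o.H, u o⟩, ⟨?_, ?_⟩, card_image_of_injOn ?_,
    fun o ho => ⟨_, mem_image_of_mem _ ho, rfl, rfl, (h o ho).2⟩⟩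
  · intro e he
    obtain ⟨o, ho, rfl⟩ := mem_image.1 he
    exact hv o ho
  · intro e he e' he'
    obtain ⟨o, ho, rfl⟩ := mem_image.1 he
    obtain ⟨o', ho', rfl⟩ := mem_image.1 he'
    have b1 : l + 2 ≤ u o ∧ u o < n := (hv o ho).bd hl
    have b2 : l + 2 ≤ u o' ∧ u o' < n := (hv o' ho').bd hl
    rcases hG.meet o ho o' ho' with h1 | ⟨⟨a, b⟩, p1, p2, p3⟩
    · exact Or.inl (Or.inl h1)
    · by_cases a0 : a = 0
      · subst a0
        have q1 := ((h o ho).2.wch b).1 p1
        have q2 := ((h o' ho').2.wch b).1 p2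
        have m1 : b ∉ o.H := fun m => p3 ⟨rfl, Or.inl m⟩
        have m2 : b ∉ o'.H := fun m => p3 ⟨rfl, Or.inr m⟩
        by_cases hb : b = l + 2
        · subst hb
          exact Or.inr (Or.inl ⟨le_antisymm q1.1 b1.1, le_antisymm q2.1 b2.1, m1, m2⟩)
        · exact Or.inr (Or.inr (Or.inr ⟨b, ⟨q1.2.resolve_right hb, q2.2.resolve_right hb⟩,
            Or.inr ⟨q1.1, q2.1, m1, m2⟩⟩))
      · by_cases a1 : a = l + 1
        · subst a1
          have q1 := ((h o ho).2.vch b).1 p1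
          have q2 := ((h o' ho').2.vch b).1 p2
          by_cases hb : b + 1 = n
          · refine Or.inr (Or.inr (Or.inl ⟨?_, ?_⟩))
            · show u o + 1 = n
              omega
            · show u o' + 1 = n
              omega
          · exact Or.inr (Or.inr (Or.inr ⟨b, ⟨q1.2.resolve_right hb, q2.2.resolve_right hb⟩,
              Or.inl ⟨q1.1, q2.1⟩⟩))
        · have d := (hG.val o ho).tri.dg _ p1
          have a2 : l + 2 ≤ a := by
            unfold Dg at d
            simp only at d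
            omega
          exact Or.inl (Or.inr ⟨(a, b), ((h o ho).2.far a b a2).1 p1,
            ((h o' ho').2.far a b a2).1 p2, a0⟩)
  · intro o ho o' ho' e
    obtain ⟨e1, e2, e3, e4, e5⟩ := EOb.mk.inj e
    have c := (h o' ho').2
    rw [← e3, ← e5] at c
    exact Ob.ext e1 e2 (con_inj (hG.val o ho).tri (hG.val o' ho').tri (h o ho).2 c) e4

end Pool.Agent.Lib.MP_04fdae_co.X
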