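import Pool.Agent.Lib.MP_04fdae_co.X.Geo
import Pool.Agent.Lib.MP_04fdae_co.X.Num

/-! The last level: no chords, no marks. -/

namespace Pool.Agent.Lib.MP_04fdae_co.X

open Finset

variable {n : ℕ}

theorem fam_top' (hn : 4 ≤ n) {G : Finset Ob} (hG : Fam n (n - 3) G) :
    G.card ≤ catalan (n - 3) ∧ (G.card = catalan (n - 3) → ∃ i, ∀ o ∈ G, i ∈ o.Z) := by
  classical
  have hS : ∀ o ∈ G, o.S = ∅ := fun o ho => (tri_top (by omega)).1 (hG.val o ho).tri
  have hH : ∀ o ∈ G, o.H = ∅ := fun o ho => eq_empty_of_forall_notMem fun x hx => by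
    have := (hG.val o ho).mark x hx
    rw [hS o ho] at this
    exact notMem_empty _ this
  have hZ : ∀ o ∈ G, ∀ o' ∈ G, ∃ i ∈ o.Z, i ∈ o'.Z := fun o ho o' ho' => by
    rcases hG.meet o ho o' ho' with h | ⟨p, hp, -⟩
    · exact h
    · rw [hS o ho] at hp
      exact absurd hp (notMem_empty _)
  have hle : G.card ≤ ∑ Z ∈ G.image Ob.Z, (MzF (n - 3 - Z.card) 0).card := by
    rw [card_eq_sum_card_image Ob.Z G]
    refine sum_le_sum fun Z _ => card_le_card_of_injOn Ob.w (fun o ho => ?_) fun o ho o' ho' e => ?_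
    · obtain ⟨h1, h2⟩ := mem_filter.1 ho
      have := (hG.val o h1).word
      rwa [hH o h1, card_empty, h2] at this
    · obtain ⟨h1, h2⟩ := mem_filter.1 ho
      obtain ⟨h3, h4⟩ := mem_filter.1 ho'
      exact Ob.ext (h2.trans h4.symm) e ((hS o h1).trans (hS o' h3).symm)
        ((hH o h1).trans (hH o' h3).symm)
  obtain ⟨k1, k2⟩ := ekr_w (d := n - 3) (by omega) (G.image Ob.Z)
    (fun Z h => by
      obtain ⟨o, ho, rfl⟩ := mem_image.1 h
      exact (hG.val o ho).red)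
    fun Z h Z' h' => by
      obtain ⟨o, ho, rfl⟩ := mem_image.1 h
      obtain ⟨o', ho', rfl⟩ := mem_image.1 h'
      exact hZ o ho o' ho'
  refine ⟨hle.trans k1, fun he => ?_⟩
  obtain ⟨i, hi⟩ := k2 (by omega)
  obtain ⟨o', ho', e⟩ := mem_image.1 hi
  refine ⟨i, fun o ho => ?_⟩
  obtain ⟨j, h1, h2⟩ := hZ o ho o' ho'
  rw [e, mem_singleton] at h2
  exact h2 ▸ h1

end Pool.Agent.Lib.MP_04fdae_co.X
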