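import Pool.Agent.Lib.MP_04fdae_co.X.Eq
import Pool.Agent.Lib.MP_04fdae_co.X.MainE
import Pool.Agent.Lib.MP_04fdae_co.X.MainTop

/-! The bound and the equality case in the model on natural numbers. -/

namespace Pool.Agent.Lib.MP_04fdae_co.X

open Finset

variable {n l : ℕ}

/-- `con_exists`, `con_inj`; `MeetE` from `Meet` by cases on the first end of the chord. -/
theorem exists_E (hl : l + 3 < n) {G : Finset Ob} (hG : Fam n l G) :
    ∃ E : Finset EOb, FamE n l E ∧ E.card = G.card ∧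
      ∀ o ∈ G, ∃ e ∈ E, e.Z = o.Z ∧ e.H = o.H ∧ Con n l o.S e.R e.u :=
  exists_E' hl hG

/-- Level `n - 3`: `tri_top`, group by `Z`, `ekr_w`. -/
theorem fam_top (hn : 4 ≤ n) {G : Finset Ob} (hG : Fam n (n - 3) G) :
    G.card ≤ catalan (n - 3) ∧ (G.card = catalan (n - 3) → ∃ i, ∀ o ∈ G, i ∈ o.Z) :=
  fam_top' hn hG

open Classical in
theorem lab_fam (hl : l + 3 < n) {E : Finset EOb} (hE : FamE n l E) :
    Fam n (l + 1) (E.image (lab n l E)) ∧ (E.image (lab n l E)).card = E.card := by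
  refine ⟨⟨fun o ho => ?_, fun o ho o' ho' => ?_⟩,
    card_image_of_injOn fun e he e' he' h => lab_inj hl hE he he' h⟩
  · obtain ⟨e, he, rfl⟩ := mem_image.1 ho
    exact lab_val hl hE he
  · obtain ⟨e, he, rfl⟩ := mem_image.1 ho
    obtain ⟨e', he', rfl⟩ := mem_image.1 ho'
    exact lab_meet hl hE he he'

theorem cat_pos (k : ℕ) : 0 < catalan k := by
  have h1 := succ_mul_catalan_eq_centralBinom k
  have h2 := Nat.centralBinom_pos k
  rcases Nat.eq_zero_or_pos (catalan k) with h | h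
  · rw [h, mul_zero] at h1
    omega
  · exact h

/-- Downward induction on `l` with `exists_E`, `lab_val`, `lab_meet`, `lab_inj`. -/
theorem fam_bound (hn : 4 ≤ n) (hl : l + 3 ≤ n) {G : Finset Ob} (hG : Fam n l G) :
    G.card ≤ catalan (n - 3) := by
  obtain ⟨k, hk⟩ : ∃ k, n = l + 3 + k := ⟨n - (l + 3), by omega⟩
  induction k generalizing l G with
  | zero =>
    obtain rfl : l = n - 3 := by omega
    exact (fam_top hn hG).1
  | succ k ih =>
    obtain ⟨E, hE, hc, -⟩ := exists_E (by omega) hG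
    obtain ⟨h1, h2⟩ := lab_fam (by omega) hE
    rw [← hc, ← h2]
    exact ih (by omega) h1 (by omega)

/-- A family of largest size holds every valid object that meets itself and all members. -/
theorem fam_full (hn : 4 ≤ n) (hl : l + 3 ≤ n) {G : Finset Ob} (hG : Fam n l G)
    (hc : G.card = catalan (n - 3)) {o : Ob} (ho : Val n l o) (h0 : Meet o o)
    (h1 : ∀ g ∈ G, Meet o g ∧ Meet g o) : o ∈ G := by
  classical
  by_contra hno
  have hF : Fam n l (insert o G) := by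
    refine ⟨fun a ha => ?_, fun a ha b hb => ?_⟩
    · rcases mem_insert.1 ha with rfl | ha
      · exact ho
      · exact hG.val a ha
    · rcases mem_insert.1 ha with ha' | ha'
      · rcases mem_insert.1 hb with hb' | hb'
        · rw [ha', hb']
          exact h0
        · rw [ha']
          exact (h1 b hb').1
      · rcases mem_insert.1 hb with hb' | hb'
        · rw [hb']
          exact (h1 a ha').2
        · exact hG.meet a ha' b hb'
  have := fam_bound hn hl hF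
  rw [card_insert_of_notMem hno] at this
  omega

theorem lab_Z {E : Finset EOb} {e : EOb} {i : ℕ} (hi : i ≠ l) (h : i ∈ (lab n l E e).Z) :
    i ∈ e.Z := by
  rcases lab_cases n l E e with h1 | h1 | h1 | h1 | h1
  · rw [h1.2] at h
    exact h
  · rw [h1.2.2] at h
    exact (mem_insert.1 h).resolve_left hi
  · rw [h1.2.2] at h
    exact h
  · rw [h1.2.2.2] at h
    exact (mem_insert.1 h).resolve_left hi
  · rw [h1.2.2.2] at h
    exact h

/-- Downward induction on `l`; fullness comes from `fam_bound` applied to `insert o G'`. -/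
theorem fam_eq (hn : 4 ≤ n) (hl : l + 3 ≤ n) {G : Finset Ob} (hG : Fam n l G)
    (hc : G.card = catalan (n - 3)) :
    (∃ i, ∀ o ∈ G, i ∈ o.Z) ∨ ∃ c : ℕ × ℕ,
      ((l + 1 ≤ c.1 ∧ c.2 = c.1 + 2 ∧ c.2 < n) ∨ c = (0, l + 2) ∨ c = (0, n - 2) ∨
        (l = 0 ∧ c = (1, n - 1))) ∧ ∀ o ∈ G, c ∈ o.S ∧ ¬ (c.1 = 0 ∧ c.2 ∈ o.H) := by
  classical
  obtain ⟨k, hk⟩ : ∃ k, n = l + 3 + k := ⟨n - (l + 3), by omega⟩
  induction k generalizing l G with
  | zero =>
    obtain rfl : l = n - 3 := by omega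
    exact Or.inl ((fam_top hn hG).2 hc)
  | succ k ih =>
    have hl' : l + 3 < n := by omega
    obtain ⟨E, hE, hc', hr⟩ := exists_E hl' hG
    obtain ⟨h1, h2⟩ := lab_fam hl' hE
    have h3 : (E.image (lab n l E)).card = catalan (n - 3) := by rw [h2, hc', hc]
    have hw : ∀ y, (∀ o ∈ E.image (lab n l E), (0, y) ∈ o.S ∧ ¬ ((0 : ℕ) = 0 ∧ y ∈ o.H)) →
        ∃ c : ℕ × ℕ, ((l + 1 ≤ c.1 ∧ c.2 = c.1 + 2 ∧ c.2 < n) ∨ c = (0, l + 2) ∨ c = (0, n - 2) ∨
          (l = 0 ∧ c = (1, n - 1))) ∧ ∀ o ∈ G, c ∈ o.S ∧ ¬ (c.1 = 0 ∧ c.2 ∈ o.H) := by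
      intro y hy
      have hy' : ∀ o ∈ E.image (lab n l E), (0, y) ∈ o.S ∧ y ∉ o.H :=
        fun o ho => ⟨(hy o ho).1, fun h => (hy o ho).2 ⟨rfl, h⟩⟩
      obtain ⟨o₀, ho₀⟩ : (E.image (lab n l E)).Nonempty :=
        card_pos.1 (h3 ▸ cat_pos (n - 3))
      have hb := (h1.val o₀ ho₀).tri.wch (hy' o₀ ho₀).1
      rcases eq_w hl' hE (y := y) ⟨by omega, hb.2⟩
        (fun e he => hy' _ (mem_image_of_mem _ he))
        (fun o ho hS hH => mem_image.1 (fam_full hn (by omega) h1 h3 ho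
          (Or.inr ⟨(0, y), hS, hS, fun h => h.2.elim hH hH⟩) fun g hg =>
          ⟨Or.inr ⟨(0, y), hS, (hy' g hg).1, fun h => h.2.elim hH (hy' g hg).2⟩,
            Or.inr ⟨(0, y), (hy' g hg).1, hS, fun h => h.2.elim (hy' g hg).2 hH⟩⟩)) with h | h
      · refine ⟨(l + 1, y), Or.inl ⟨le_rfl, h.1, by omega⟩, fun o ho => ?_⟩
        obtain ⟨e, he, -, -, h4⟩ := hr o ho
        exact ⟨(h4.vch y).2 ⟨(h.2 e he).1, Or.inl (h.2 e he).2⟩, fun h5 => by simp at h5⟩
      · refine ⟨(0, y), Or.inr (Or.inr (Or.inl (by rw [show y = n - 2 by omega]))),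
          fun o ho => ?_⟩
        obtain ⟨e, he, -, h5, h4⟩ := hr o ho
        exact ⟨(h4.wch y).2 ⟨(h.2 e he).1, Or.inl (h.2 e he).2.1⟩,
          fun h6 => (h.2 e he).2.2 (h5 ▸ h6.2)⟩
    rcases ih (by omega) h1 h3 (by omega) with ⟨i, hi⟩ | ⟨c, hc1, hc2⟩
    · by_cases hil : i = l
      · subst hil
        right
        rcases eq_red hl' hE (fun e he => hi _ (mem_image_of_mem _ he))
          (fun o ho hZ => mem_image.1 (fam_full hn (by omega) h1 h3 ho (Or.inl ⟨i, hZ, hZ⟩)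
            fun g hg => ⟨Or.inl ⟨i, hZ, hi g hg⟩, Or.inl ⟨i, hi g hg, hZ⟩⟩)) with h | h
        · refine ⟨(0, i + 2), Or.inr (Or.inl rfl), fun o ho => ?_⟩
          obtain ⟨e, he, -, h5, h4⟩ := hr o ho
          exact ⟨(h4.wch _).2 ⟨(h e he).1.le, Or.inr rfl⟩, fun h6 => (h e he).2 (h5 ▸ h6.2)⟩
        · refine ⟨(i + 1, n - 1), ?_, fun o ho => ?_⟩
          · rcases h.1 with h0 | h0
            · exact Or.inr (Or.inr (Or.inr ⟨h0, by rw [h0]⟩))
            · exact Or.inl ⟨le_rfl, by simp only; omega, by simp only; omega⟩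
          · obtain ⟨e, he, -, -, h4⟩ := hr o ho
            have := h.2 e he
            exact ⟨(h4.vch _).2 ⟨by omega, Or.inr (by omega)⟩, fun h5 => by simp at h5⟩
      · refine Or.inl ⟨i, fun o ho => ?_⟩
        obtain ⟨e, he, h4, -, -⟩ := hr o ho
        exact h4 ▸ lab_Z hil (hi _ (mem_image_of_mem _ he))
    · right
      rcases hc1 with h | rfl | rfl | h
      · refine ⟨c, Or.inl ⟨by omega, h.2⟩, fun o ho => ?_⟩
        obtain ⟨e, he, -, -, h4⟩ := hr o ho
        have h0 : c.1 ≠ 0 := by omega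
        exact ⟨(h4.far c.1 c.2 h.1).2 (eq_far hl' hE h0
          (fun e he => (hc2 _ (mem_image_of_mem _ he)).1) e he), fun h5 => h0 h5.1⟩
      · exact hw _ hc2
      · exact hw _ hc2
      · omega

theorem main_nat (hn : 4 ≤ n) (F : Finset (Finset (ℕ × ℕ))) (h1 : ∀ S ∈ F, Tri n 0 S)
    (h2 : ∀ S ∈ F, ∀ S' ∈ F, ∃ p ∈ S, p ∈ S') :
    F.card ≤ catalan (n - 3) ∧ (F.card = catalan (n - 3) → ∃ c, Ear n c ∧ ∀ S ∈ F, c ∈ S) := by
  classical
  let f : Finset (ℕ × ℕ) → Ob := fun S => ⟨∅, [], S, ∅⟩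
  have hG : Fam n 0 (F.image f) := by
    refine ⟨fun o ho => ?_, fun o ho o' ho' => ?_⟩
    · obtain ⟨S, hS, rfl⟩ := mem_image.1 ho
      exact ⟨empty_subset _, mz_nil.2 rfl, h1 S hS, fun x hx => absurd hx (notMem_empty x)⟩
    · obtain ⟨S, hS, rfl⟩ := mem_image.1 ho
      obtain ⟨S', hS', rfl⟩ := mem_image.1 ho'
      obtain ⟨p, hp, hp'⟩ := h2 S hS S' hS'
      exact Or.inr ⟨p, hp, hp', fun h => h.2.elim (notMem_empty _) (notMem_empty _)⟩
  have hc : (F.image f).card = F.card :=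
    card_image_of_injective _ fun S S' h => congrArg Ob.S h
  refine ⟨hc ▸ fam_bound hn (by omega) hG, fun h => ?_⟩
  rcases fam_eq hn (by omega) hG (hc.trans h) with ⟨i, hi⟩ | ⟨c, hc1, hc2⟩
  · obtain ⟨S, hS⟩ : F.Nonempty := card_pos.1 (h ▸ cat_pos (n - 3))
    exact absurd (hi _ (mem_image_of_mem f hS)) (notMem_empty i)
  · refine ⟨c, ?_, fun S hS => (hc2 _ (mem_image_of_mem f hS)).1⟩
    rcases hc1 with h3 | rfl | rfl | h3
    · exact Or.inl h3.2
    · exact Or.inl ⟨rfl, by simp only; omega⟩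
    · exact Or.inr (Or.inl rfl)
    · exact Or.inr (Or.inr h3.2)

end Pool.Agent.Lib.MP_04fdae_co.X
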