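import Pool.Agent.Lib.MP_04fdae_co.X.Lab

/-! Order lemmas for the contraction step, and the meeting property of the labelling map. -/

namespace Pool.Agent.Lib.MP_04fdae_co.X

open Finset

/-- A common chord at `0` outside the two new sets of marks. -/
def NM (X : ℕ → Prop) (K K' : Finset ℕ) : Prop := ∃ x, X x ∧ x ∉ K ∧ x ∉ K'

section Ord

variable {X : ℕ → Prop} {r n : ℕ}

/-- Two fibres with at least two members. -/
theorem ord_b {lo hi lo' hi' μ μ' : ℕ} {H H' K K' : Finset ℕ}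
    (h1 : r ≤ lo) (h2 : lo < hi) (h3 : hi < n) (h1' : r ≤ lo') (h2' : lo' < hi') (h3' : hi' < n)
    (hH : ∀ x ∈ H, hi ≤ x) (hH' : ∀ x ∈ H', hi' ≤ x)
    (hK : ∀ x ∈ K, x ∈ H ∨ (x = μ ∧ lo < μ ∧ μ < hi))
    (hK' : ∀ x ∈ K', x ∈ H' ∨ (x = μ' ∧ lo' < μ' ∧ μ' < hi'))
    (m1 : CoreN r n X H H' lo hi') (m2 : CoreN r n X H H' hi lo') : NM X K K' := by
  by_contra hc
  have key : ∀ x, X x → x ∈ K ∨ x ∈ K' := by
    intro x hx
    by_contra h
    exact hc ⟨x, hx, fun a => h (Or.inl a), fun a => h (Or.inr a)⟩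
  rcases m1 with m1 | m1 | ⟨x, hx, m1⟩
  · omega
  · omega
  rcases m2 with m2 | m2 | ⟨y, hy, m2⟩
  · omega
  · omega
  have a1 := key x hx
  have a2 := key y hy
  have b1 := hK x
  have b2 := hK y
  have b3 := hK' x
  have b4 := hK' y
  have c1 := hH x
  have c2 := hH y
  have c3 := hH' x
  have c4 := hH' y
  clear key hK hK' hH hH' hc
  grind

/-- A fibre with at least two members against one apex: the two ways to fail. -/
theorem ord_c (hX : ∀ x, X x → r < x) {lo hi u' μ : ℕ} {H H' K : Finset ℕ}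
    (h1 : r ≤ lo) (h2 : lo < hi) (h3 : hi < n)
    (hH : ∀ x ∈ H, hi ≤ x) (hH' : ∀ x ∈ H', u' ≤ x)
    (hK : ∀ x ∈ K, x ∈ H ∨ (x = μ ∧ lo < μ ∧ μ < hi))
    (m1 : CoreN r n X H H' lo u') (m2 : CoreN r n X H H' hi u') (hc : ¬ NM X K H') :
    (u' = μ ∧ lo < μ ∧ μ < hi ∧ μ ∉ H' ∧ X μ) ∨
      (u' ∈ H' ∧ X u' ∧ u' < hi ∧ (u' ≤ lo ∨ u' < μ)) := by
  have key : ∀ x, X x → x ∈ K ∨ x ∈ H' := by
    intro x hx
    by_contra h
    exact hc ⟨x, hx, fun a => h (Or.inl a), fun a => h (Or.inr a)⟩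
  rcases m1 with m1 | m1 | ⟨x, hx, m1⟩
  · rcases m2 with m2 | m2 | ⟨y, hy, m2⟩
    · omega
    · omega
    have a2 := key y hy
    have b2 := hK y
    have c2 := hH y
    have d2 := hX y hy
    clear key hK hH hH' hc hX
    grind
  · omega
  have a1 := key x hx
  have b1 := hK x
  have c1 := hH x
  have c3 := hH' x
  have d1 := hX x hx
  rcases m1 with m1 | m1
  · have e1 : x ∈ H' := by grind
    have e2 : x = u' := by grind
    subst e2
    exact Or.inr ⟨e1, hx, by omega, Or.inl m1.1⟩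
  have e1 : x = μ ∧ lo < μ ∧ μ < hi := by grind
  obtain ⟨rfl, e2, e3⟩ := e1
  rcases m2 with m2 | m2 | ⟨y, hy, m2⟩
  · omega
  · omega
  have a2 := key y hy
  have b2 := hK y
  have c2 := hH y
  have c4 := hH' y
  rcases m2 with m2 | m2
  · by_cases e4 : y ∈ H'
    · have e5 : y = u' := by grind
      subst e5
      have e6 : y ≠ x := fun h => m1.2.2.2 (h ▸ e4)
      exact Or.inr ⟨e4, hy, by omega, Or.inr (by omega)⟩
    · have e5 : y = x := by grind
      exact Or.inl ⟨by omega, e2, e3, m1.2.2.2, hx⟩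
  · exfalso
    grind

/-- An object whose marked apex gets unmarked, against an object whose new marks are old marks
beyond its apex. -/
theorem ord_d {u u' : ℕ} {H H' K : Finset ℕ}
    (hu' : u' ∈ H') (hz : u' + 1 < n) (hH' : ∀ x ∈ H', u' ≤ x)
    (hK : ∀ x ∈ K, x ∈ H ∧ u < x) (m : CoreN r n X H H' u u') : NM X K (H'.erase u') := by
  rcases m with m | m | ⟨x, hx, m⟩
  · exact absurd (m.2.1 ▸ hu') m.2.2.2
  · omega
  refine ⟨x, hx, ?_, ?_⟩
  · intro h
    have := hK x h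
    grind
  · intro h
    rw [Finset.mem_erase] at h
    have := hH' x h.2
    grind

/-- A candidate of smaller index `ν'` against an object with apex `hi` at least `ν`. -/
theorem ord_p2 {ν ν' hi : ℕ} {H H1 H2 K : Finset ℕ}
    (hν' : ν' ∈ H2) (hlt : ν' < ν) (hz : ν < n) (hhi : ν ≤ hi)
    (hH1 : ∀ x ∈ H1, ν ≤ x) (he : H2.erase ν' = H1.erase ν)
    (hK : ∀ x ∈ K, ν ≤ x ∧ (x ∈ H ∨ x < hi)) (hm : ν = hi → hi ∈ H)
    (m : CoreN r n X H H2 hi ν') : NM X K H1 := by
  rcases m with m | m | ⟨x, hx, m⟩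
  · exact absurd (m.2.1 ▸ hν') m.2.2.2
  · omega
  refine ⟨x, hx, ?_, ?_⟩
  · intro h
    have := hK x h
    grind
  · intro h
    have h1 := hH1 x h
    rcases m with m | m
    · omega
    · by_cases hxν : x = ν
      · have : ν = hi := by omega
        exact m.2.2.1 (by rw [hxν, this]; exact hm this)
      · have : x ∈ H2.erase ν' := by rw [he]; exact Finset.mem_erase.2 ⟨hxν, h⟩
        exact m.2.2.2 (Finset.mem_of_mem_erase this)

end Ord

end Pool.Agent.Lib.MP_04fdae_co.X
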