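import Pool.Agent.Lib.MP_04fdae_co.X.Lab

/-! The labelling map is injective. -/

namespace Pool.Agent.Lib.MP_04fdae_co.X

open Finset

variable {n l : ℕ} {E : Finset EOb}

theorem bad_partner (hl : l + 3 < n) (hE : FamE n l E) {e : EOb} (he : e ∈ E)
    (h1 : Lower E e) (h2 : Upper E e) (h3 : Bad l E e) : ∃ s ∈ E, s.u = e.u ∧ (0, e.u) ∈ s.R ∧
      (¬ ∃ i ∈ e.Z, i ∈ s.Z) ∧ (∀ p ∈ e.R, p ∈ s.R → p.1 = 0) ∧
      (∀ x, (0, x) ∈ e.R → (0, x) ∈ s.R → x = e.u ∨ x ∈ e.H ∨ x ∈ s.H) ∧ ∀ x ∈ s.H, e.u < x := by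
  obtain ⟨s, hs, -, -, s1, s2⟩ := h3
  obtain ⟨a, ha, ⟨a1, -, a2, a3⟩, a4⟩ := h1
  obtain ⟨b, hb, ⟨b1, -, b2, b3⟩, b4⟩ := h2
  have t1 : ¬ ∃ i ∈ e.Z, i ∈ s.Z := fun ⟨i, c, d⟩ => s2 (Or.inl ⟨i, c, mem_insert_of_mem d⟩)
  have t2 : ∀ p ∈ e.R, p ∈ s.R → p.1 = 0 ∧ (p.2 ∈ insert e.u e.H ∨ p.2 ∈ s.H) := fun p c d => by
    by_contra h
    exact s2 (Or.inr ⟨p, c, d, h⟩)
  have t3 : ∀ x, (0, x) ∈ e.R → (0, x) ∈ s.R → x = e.u ∨ x ∈ e.H ∨ x ∈ s.H := fun x c d => by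
    simpa [or_assoc] using (t2 _ c d).2
  have t4 : ∀ g : EOb, g.Z = e.Z → g.R = e.R → ¬ Easy g s := fun g c d => by
    rw [Easy, c, d]
    rintro (h | ⟨p, c, d, h⟩)
    · exact t1 h
    · exact h (t2 p c d).1
  have k1 := (hE.meet a ha s hs).resolve_left (t4 a a1 a2)
  have k2 := (hE.meet b hb s hs).resolve_left (t4 b b1 b2)
  have r1 := (hE.val a ha).bd hl
  have r2 := (hE.val b hb).bd hl
  have m1 : ∀ x ∈ e.H, b.u ≤ x := fun x hx => ((hE.val b hb).mark x (b3 ▸ hx)).1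
  have m2 : ∀ x ∈ s.H, s.u ≤ x := fun x hx => ((hE.val s hs).mark x hx).1
  simp only [CoreN, a2, a3, b2, b3] at k1 k2
  have k : s.u = e.u ∧ (0, e.u) ∈ s.R := by grind (splits := 40)
  exact ⟨s, hs, k.1, k.2, t1, fun p c d => (t2 p c d).1, t3, fun x hx =>
    lt_of_le_of_ne (k.1 ▸ m2 x hx) fun h => s1 (by rw [k.1, h]; exact hx)⟩

/-- The fibre over the flipped triangulation is empty. -/
theorem moved_empty' (hl : l + 3 < n) (hE : FamE n l E) {e g : EOb} (he : e ∈ E) (hg : g ∈ E)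
    (h1 : Lower E e) (h2 : Upper E e) (h3 : Bad l E e) (hZ : g.Z = e.Z)
    (hR : g.R = flp n (l + 1) e.R e.u) (hH : g.H = e.H) : False := by
  obtain ⟨s, hs, s1, s2, s3, s4, s5, s6⟩ := bad_partner hl hE he h1 h2 h3
  obtain ⟨i1, i2⟩ := inner_mem hl hE he h1 h2
  obtain ⟨-, f2, -, f4⟩ := flp_spec (hE.val e he).tri i1
  rw [← hR] at f2 f4
  have f5 : ∀ p ∈ g.R, p ∈ s.R → p ∈ e.R := fun p c d =>
    (f4 p c).resolve_right ((hE.val s hs).tri.nc p d _ s2)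
  have w := (hE.val e he).tri.wch i1
  rcases hE.meet g hg s hs with (h | ⟨p, c, d, h⟩) | k
  · exact s3 (hZ ▸ h)
  · exact h (s4 p (f5 p c d) d)
  · simp only [CoreN, hH, s1] at k
    grind (splits := 40)

theorem moved_le (hl : l + 3 < n) (hE : FamE n l E) {e e' : EOb} (he : e ∈ E) (he' : e' ∈ E)
    (h1 : Lower E e) (h2 : Upper E e) (h3 : Bad l E e) (h1' : Lower E e') (h2' : Upper E e')
    (hZ : e'.Z = e.Z) (hR : flp n (l + 1) e'.R e'.u = flp n (l + 1) e.R e.u) (hH : e'.H = e.H) :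
    e'.u = e.u := by
  by_contra hne
  obtain ⟨s, hs, s1, s2, s3, s4, s5, s6⟩ := bad_partner hl hE he h1 h2 h3
  obtain ⟨i1, i2⟩ := inner_mem hl hE he h1 h2
  obtain ⟨j1, j2⟩ := inner_mem hl hE he' h1' h2'
  obtain ⟨-, f2, -, f4⟩ := flp_spec (hE.val e he).tri i1
  obtain ⟨-, -, g3, -⟩ := flp_spec (hE.val e' he').tri j1
  rw [hR] at g3
  have f5 : ∀ p ∈ e'.R, p ∈ s.R → p ≠ (0, e'.u) → p ∈ e.R ∧ p ≠ (0, e.u) := fun p c d x =>
    ⟨(f4 p (g3 p c x)).resolve_right ((hE.val s hs).tri.nc p d _ s2), fun h => f2 (h ▸ g3 p c x)⟩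
  have f6 : ∀ x, (0, x) ∈ e'.R → (0, x) ∈ s.R → x = e'.u ∨ x ∈ e.H ∨ x ∈ s.H := fun x c d => by
    by_cases h : x = e'.u
    · exact Or.inl h
    · have := f5 _ c d (by simpa using h)
      exact Or.inr ((s5 x this.1 d).resolve_left (by simpa using this.2))
  have t4 : ∀ g : EOb, g.Z = e'.Z → g.R = e'.R → ¬ Easy g s := fun g c d => by
    rw [Easy, c, d, hZ]
    rintro (h | ⟨p, c, d, h⟩)
    · exact s3 h
    · exact h (s4 p (f5 p c d fun x => h (by rw [x])).1 d)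
  obtain ⟨a, ha, ⟨a1, -, a2, a3⟩, a4⟩ := h1'
  obtain ⟨b, hb, ⟨b1, -, b2, b3⟩, b4⟩ := h2'
  have k1 := (hE.meet a ha s hs).resolve_left (t4 a a1 a2)
  have k2 := (hE.meet b hb s hs).resolve_left (t4 b b1 b2)
  have w := (hE.val e he).tri.wch i1
  simp only [CoreN, a2, a3, b2, b3, hH, s1] at k1 k2
  grind (splits := 40)

theorem lab_inj' (hl : l + 3 < n) (hE : FamE n l E) {e e' : EOb} (he : e ∈ E) (he' : e' ∈ E)
    (h : lab n l E e = lab n l E e') : e = e' := by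
  have nl : ∀ g ∈ E, l ∉ g.Z := fun g hg x => by simpa using (hE.val g hg).red x
  have n1 := nl e he
  have n2 := nl e' he'
  have ins : insert l e.Z = insert l e'.Z → e.Z = e'.Z := fun x => by
    rw [← erase_insert n1, x, erase_insert n2]
  have a1 : insert l e.Z ≠ e'.Z := fun x => n2 (x ▸ mem_insert_self _ _)
  have a2 : e.Z ≠ insert l e'.Z := fun x => n1 (x ▸ mem_insert_self _ _)
  rcases lab_cases n l E e with ⟨p, q⟩ | ⟨-, p, q⟩ | ⟨-, p, q⟩ | ⟨p, p1, p2, q⟩ | ⟨p, p1, -, q⟩ <;>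
  rcases lab_cases n l E e' with
    ⟨p', q'⟩ | ⟨-, p', q'⟩ | ⟨-, p', q'⟩ | ⟨p', p1', p2', q'⟩ | ⟨p', p1', -, q'⟩ <;>
  rw [q, q'] at h <;>
  simp only [obD, obR, obB, obM, obU, Ob.mk.injEq, List.cons.injEq, a1, a2, false_and,
    true_and, Fin.reduceEq, and_false] at h
  · obtain ⟨c1, c2, c3, c4⟩ := h
    have u : e.u = e'.u := le_antisymm (p.2 e' he' p'.1 c1.symm c2.symm c3.symm c4.symm)
      (p'.2 e he p.1 c1 c2 c3 c4)
    refine EOb.ext c1 c2 c3 ?_ u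
    rw [← insert_erase p.1.2.2, c4, u, insert_erase p'.1.2.2]
  · obtain ⟨c1, c2, c3, c4⟩ := h
    have c1 := ins c1
    exact EOb.ext c1 c2 c3 c4 (le_antisymm
      (not_lt.1 fun x => p ⟨e', he', ⟨c1.symm, c2.symm, c3.symm, c4.symm⟩, x⟩)
      (not_lt.1 fun x => p' ⟨e, he, ⟨c1, c2, c3, c4⟩, x⟩))
  · exact (moved_empty' hl hE he' he p' p1' p2' (ins h.1) h.2.2.1 h.2.2.2).elim
  · obtain ⟨c1, c2, c3, c4⟩ := h
    exact EOb.ext c1 c2 c3 c4 (le_antisymm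
      (not_lt.1 fun x => p' ⟨e, he, ⟨c1, c2, c3, c4⟩, x⟩)
      (not_lt.1 fun x => p ⟨e', he', ⟨c1.symm, c2.symm, c3.symm, c4.symm⟩, x⟩))
  · exact (moved_empty' hl hE he he' p p1 p2 (ins h.1).symm h.2.2.1.symm h.2.2.2.symm).elim
  · obtain ⟨c1, c2, c3, c4⟩ := h
    have c1 := ins c1
    have u := moved_le hl hE he' he p' p1' p2' p p1 c1 c3 c4
    have i1 := (inner_mem hl hE he p p1).1
    have j1 := (inner_mem hl hE he' p' p1').1
    obtain ⟨f1, -, f3, -⟩ := flp_spec (hE.val e he).tri i1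
    obtain ⟨-, -, g3, -⟩ := flp_spec (hE.val e' he').tri j1
    rw [← c3, ← u] at g3
    rw [← u] at j1
    refine EOb.ext c1 c2 (tri_eq (hE.val e he).tri (hE.val e' he').tri fun x hx y hy => ?_) c4 u
    by_cases x0 : x = (0, e.u)
    · exact (hE.val e' he').tri.nc x (x0 ▸ j1) y hy
    by_cases y0 : y = (0, e.u)
    · exact (hE.val e he).tri.nc x hx y (y0 ▸ i1)
    exact f1.nc x (f3 x hx x0) y (g3 y hy y0)
  · obtain ⟨c1, c2, c3, c4⟩ := h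
    have i2 := (inner_mem hl hE he p p1).2
    have j2 := (inner_mem hl hE he' p' p1').2
    have u : e.u = e'.u := by
      have x1 : e.u ∈ insert e'.u e'.H := c4 ▸ mem_insert_self _ _
      have x2 : e'.u ∈ insert e.u e.H := c4 ▸ mem_insert_self _ _
      rw [mem_insert] at x1 x2
      grind
    refine EOb.ext c1 c2 c3 ?_ u
    rw [← erase_insert (fun x => lt_irrefl _ (i2 _ x)), c4, u,
      erase_insert fun x => lt_irrefl _ (j2 _ x)]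

end Pool.Agent.Lib.MP_04fdae_co.X
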