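import Pool.Agent.Lib.MP_04fdae_co.X.Ord33

/-! The labelling map keeps the meeting property. -/

namespace Pool.Agent.Lib.MP_04fdae_co.X

open Finset

variable {n l : ℕ} {E : Finset EOb}

/-- Common inner neighbours of `0`. -/
def CX (e e' : EOb) : ℕ → Prop := fun x => (0, x) ∈ e.R ∧ (0, x) ∈ e'.R

/-- The new object `o` keeps what `e` has outside the marks `K`. -/
def Dom (e : EOb) (K : Finset ℕ) (o : Ob) : Prop :=
  e.Z ⊆ o.Z ∧ (∀ p ∈ e.R, p.1 ≠ 0 → p ∈ o.S) ∧ ∀ x, (0, x) ∈ e.R → x ∉ K → (0, x) ∈ o.S ∧ x ∉ o.H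

/-- Member of a fibre with two apexes, with new marks `K`. -/
def TF (E : Finset EOb) (e : EOb) (K : Finset ℕ) (μ : ℕ) : Prop :=
  ∃ a ∈ E, ∃ b ∈ E, Key e a ∧ Key e b ∧ a.u < b.u ∧ ∀ x ∈ K, x ∈ e.H ∨ (x = μ ∧ a.u < μ ∧ μ < b.u)

theorem meet_symm33 {o o' : Ob} (h : Meet o o') : Meet o' o := by
  rcases h with ⟨i, h1, h2⟩ | ⟨p, h1, h2, h3⟩
  · exact Or.inl ⟨i, h2, h1⟩
  · exact Or.inr ⟨p, h2, h1, fun h => h3 ⟨h.1, h.2.symm⟩⟩

theorem meet_of_dom {e e' : EOb} {K K' : Finset ℕ} {o o' : Ob} (h : Dom e K o) (h' : Dom e' K' o')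
    (m : Easy e e' ∨ NM (CX e e') K K') : Meet o o' := by
  rcases m with (⟨i, h1, h2⟩ | ⟨p, h1, h2, h3⟩) | ⟨x, h1, h2, h3⟩
  · exact Or.inl ⟨i, h.1 h1, h'.1 h2⟩
  · exact Or.inr ⟨p, h.2.1 p h1 h3, h'.2.1 p h2 h3, fun hh => h3 hh.1⟩
  · have a := h.2.2 x h1.1 h2
    have b := h'.2.2 x h1.2 h3
    exact Or.inr ⟨(0, x), a.1, b.1, fun hh => hh.2.elim a.2 b.2⟩

theorem key_refl33 (e : EOb) : Key e e := ⟨rfl, rfl, rfl, rfl⟩

theorem meet_key (hE : FamE n l E) {e e' a a' : EOb} (ha : a ∈ E) (ha' : a' ∈ E) (k : Key e a)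
    (k' : Key e' a') : Easy e e' ∨ CoreN (l + 2) n (CX e e') e.H e'.H a.u a'.u := by
  have h := hE.meet a ha a' ha'
  unfold MeetE Easy at h
  rw [k.1, k.2.2.1, k.2.2.2, k'.1, k'.2.2.1, k'.2.2.2] at h
  exact h

theorem mark_key (hE : FamE n l E) {e a : EOb} (ha : a ∈ E) (k : Key e a) :
    ∀ x ∈ e.H, a.u ≤ x := fun x hx => ((hE.val a ha).mark x (k.2.2.2 ▸ hx)).1

theorem cx_lt (hE : FamE n l E) {e e' : EOb} (he : e ∈ E) : ∀ x, CX e e' x → l + 2 < x := by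
  intro x hx
  have := (hE.val e he).tri.wch hx.1
  omega

theorem marked_lt (hl : l + 3 < n) (hE : FamE n l E) {e : EOb} (he : e ∈ E) (h : e.u ∈ e.H) :
    e.u + 1 < n := by
  rcases ((hE.val e he).mark _ h).2 with h1 | h1
  · exact ((hE.val e he).tri.wch h1).2
  · omega

theorem pair_FF (hl : l + 3 < n) (hE : FamE n l E) {e e' : EOb} {K K' : Finset ℕ} {μ μ' : ℕ}
    (h : TF E e K μ) (h' : TF E e' K' μ') : Easy e e' ∨ NM (CX e e') K K' := by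
  obtain ⟨a, ha, b, hb, ka, kb, hab, hK⟩ := h
  obtain ⟨a', ha', b', hb', ka', kb', hab', hK'⟩ := h'
  rcases meet_key hE ha hb' ka kb' with m1 | m1
  · exact Or.inl m1
  rcases meet_key hE hb ha' kb ka' with m2 | m2
  · exact Or.inl m2
  exact Or.inr (ord_b ((hE.val a ha).bd hl).1 hab ((hE.val b hb).bd hl).2 ((hE.val a' ha').bd hl).1
    hab' ((hE.val b' hb').bd hl).2 (mark_key hE hb kb) (mark_key hE hb' kb') hK hK' m1 m2)

/-- The two ways to fail, for a fibre against any object that keeps its marks. -/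
theorem pair_Fc (hl : l + 3 < n) (hE : FamE n l E) {e e' a b : EOb} {K : Finset ℕ} {μ : ℕ}
    (he : e ∈ E) (he' : e' ∈ E) (ha : a ∈ E) (hb : b ∈ E) (ka : Key e a) (kb : Key e b)
    (hab : a.u < b.u) (hK : ∀ x ∈ K, x ∈ e.H ∨ (x = μ ∧ a.u < μ ∧ μ < b.u)) :
    (Easy e e' ∨ NM (CX e e') K e'.H) ∨ (¬ Easy e e' ∧
      ((e'.u = μ ∧ a.u < μ ∧ μ < b.u ∧ μ ∉ e'.H ∧ CX e e' μ) ∨
      (e'.u ∈ e'.H ∧ CX e e' e'.u ∧ e'.u < b.u ∧ (e'.u ≤ a.u ∨ e'.u < μ)))) := by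
  by_cases h0 : Easy e e'
  · exact Or.inl (Or.inl h0)
  by_cases h1 : NM (CX e e') K e'.H
  · exact Or.inl (Or.inr h1)
  have m1 := (meet_key hE ha he' ka (key_refl33 e')).resolve_left h0
  have m2 := (meet_key hE hb he' kb (key_refl33 e')).resolve_left h0
  exact Or.inr ⟨h0, ord_c (cx_lt hE he) ((hE.val a ha).bd hl).1 hab ((hE.val b hb).bd hl).2
    (mark_key hE hb kb) (mark_key hE he' (key_refl33 e')) hK m1 m2 h1⟩

theorem pair_FD (hl : l + 3 < n) (hE : FamE n l E) {e e' : EOb} {K : Finset ℕ} {μ : ℕ}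
    (he : e ∈ E) (he' : e' ∈ E) (h : TF E e K μ) (h' : e'.u ∈ e'.H) :
    Easy e e' ∨ NM (CX e e') K (e'.H.erase e'.u) := by
  obtain ⟨a, ha, b, hb, ka, kb, hab, hK⟩ := h
  rcases pair_Fc hl hE he he' ha hb ka kb hab hK with (m | ⟨x, h1, h2, h3⟩) | ⟨-, m | m⟩
  · exact Or.inl m
  · exact Or.inr ⟨x, h1, h2, fun hh => h3 (mem_of_mem_erase hh)⟩
  · exact absurd (m.1 ▸ h') m.2.2.2.1
  · refine Or.inr ⟨e'.u, m.2.1, fun hh => ?_, notMem_erase _ _⟩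
    rcases hK _ hh with h1 | h1
    · have := mark_key hE hb kb _ h1
      omega
    · omega

/-- A candidate that does not take the slot has a smaller rival. -/
theorem rival {e : EOb} (h1 : ¬ Lower E e) (h2 : ¬ Upper E e) (h3 : e.u ∈ e.H)
    (h4 : ¬ TakesD E e) : ∃ k ∈ E, k.u ∈ k.H ∧ k.Z = e.Z ∧ k.R = e.R ∧
      k.H.erase k.u = e.H.erase e.u ∧ k.u < e.u := by
  by_contra hc
  refine h4 ⟨⟨h1, h2, h3⟩, fun k hk c hZ _ hR hH => ?_⟩
  by_contra hlt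
  exact hc ⟨k, hk, c.2.2, hZ, hR, hH, by omega⟩

theorem meet_rival (hE : FamE n l E) {e e' a k : EOb} (ha : a ∈ E) (hk : k ∈ E) (ka : Key e a)
    (hZ : k.Z = e'.Z) (hR : k.R = e'.R) :
    Easy e e' ∨ CoreN (l + 2) n (CX e e') e.H k.H a.u k.u := by
  have h := meet_key hE ha hk ka (key_refl33 k)
  unfold Easy CX at h
  rw [hZ, hR] at h
  exact h

theorem pair_FS2 (hl : l + 3 < n) (hE : FamE n l E) {e e' : EOb} {K : Finset ℕ} {μ : ℕ}
    (he : e ∈ E) (he' : e' ∈ E) (h : TF E e K μ) (h1 : ¬ Lower E e') (h2 : ¬ Upper E e')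
    (h3 : e'.u ∈ e'.H) (h4 : ¬ TakesD E e') : Easy e e' ∨ NM (CX e e') K e'.H := by
  obtain ⟨a, ha, b, hb, ka, kb, hab, hK⟩ := h
  rcases pair_Fc hl hE he he' ha hb ka kb hab hK with m | ⟨h0, m | m⟩
  · exact m
  · exact absurd (m.1 ▸ h3) m.2.2.2.1
  obtain ⟨k, hk, k1, kZ, kR, kH, klt⟩ := rival h1 h2 h3 h4
  have m2 := (meet_rival hE hb hk kb kZ kR).resolve_left h0
  refine Or.inr (ord_p2 k1 klt ((hE.val e' he').bd hl).2 m.2.2.1.le
    (mark_key hE he' (key_refl33 e')) kH (fun x hx => ?_) (fun hh => by omega) m2)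
  rcases hK x hx with h5 | h5
  · have := mark_key hE hb kb x h5
    exact ⟨by omega, Or.inl h5⟩
  · exact ⟨by omega, Or.inr (by omega)⟩

theorem pair_DD (hl : l + 3 < n) (hE : FamE n l E) {e e' : EOb} (he : e ∈ E) (he' : e' ∈ E)
    (h' : e'.u ∈ e'.H) : Easy e e' ∨ NM (CX e e') (e.H.erase e.u) (e'.H.erase e'.u) := by
  rcases meet_key hE he he' (key_refl33 e) (key_refl33 e') with m | m
  · exact Or.inl m
  refine Or.inr (ord_d h' (marked_lt hl hE he' h') (mark_key hE he' (key_refl33 e'))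
    (fun x hx => ?_) m)
  rw [mem_erase] at hx
  have := mark_key hE he (key_refl33 e) x hx.2
  exact ⟨hx.2, by omega⟩

theorem pair_SD (hl : l + 3 < n) (hE : FamE n l E) {e e' : EOb} (he : e ∈ E) (he' : e' ∈ E)
    (h1 : ¬ Lower E e) (h2 : ¬ Upper E e) (h4 : ¬ TakesD E e) (h' : e'.u ∈ e'.H) :
    Easy e e' ∨ NM (CX e e') e.H (e'.H.erase e'.u) := by
  by_cases h0 : Easy e e'
  · exact Or.inl h0
  have m := (meet_key hE he he' (key_refl33 e) (key_refl33 e')).resolve_left h0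
  have hm := mark_key hE he (key_refl33 e)
  have hm' := mark_key hE he' (key_refl33 e')
  by_cases h3 : e.u ∈ e.H
  · by_cases h5 : e.u ≤ e'.u
    · obtain ⟨k, hk, k1, kZ, kR, kH, klt⟩ := rival h1 h2 h3 h4
      by_cases h6 : e.u = e'.u ∨ e.u < e'.u
      · rcases meet_rival (e := e') (e' := e) hE he' hk (key_refl33 e') kZ kR with m2 | m2
        · rcases m2 with ⟨i, a, b⟩ | ⟨p, a, b, c⟩
          · exact absurd (Or.inl ⟨i, b, a⟩) h0
          · exact absurd (Or.inr ⟨p, b, a, c⟩) h0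
        obtain ⟨x, a, b, c⟩ := ord_p2 (K := e'.H.erase e'.u) k1 klt ((hE.val e he).bd hl).2 h5 hm kH
          (fun x hx => ⟨le_trans h5 (hm' x (mem_of_mem_erase hx)), Or.inl (mem_of_mem_erase hx)⟩)
          (fun _ => h') m2
        exact Or.inr ⟨x, ⟨a.2, a.1⟩, c, b⟩
      · omega
    · rcases m with m | m | ⟨x, hx, m⟩
      · exact absurd (m.1 ▸ h3) m.2.2.1
      · omega
      refine Or.inr ⟨x, hx, fun hh => ?_, fun hh => ?_⟩
      · have := hm x hh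
        rcases m with m | m
        · omega
        · exact m.2.2.1 hh
      · rw [mem_erase] at hh
        have := hm' x hh.2
        rcases m with m | m
        · omega
        · exact m.2.2.2 hh.2
  · refine Or.inr (ord_d h' (marked_lt hl hE he' h') hm' (fun x hx => ⟨hx, ?_⟩) m)
    have h5 := hm x hx
    have h6 : x ≠ e.u := fun hh => h3 (hh ▸ hx)
    omega

theorem pair_BS1 (hl : l + 3 < n) (hE : FamE n l E) {e e' : EOb} (he : e ∈ E) (he' : e' ∈ E)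
    (h : Lower E e) (h3 : e'.u ∉ e'.H) : Easy e e' ∨ NM (CX e e') e.H e'.H := by
  obtain ⟨a, ha, ka, hlt⟩ := h
  rcases pair_Fc (K := e.H) (μ := 0) hl hE he he' ha he ka (key_refl33 e) hlt
    (fun x hx => Or.inl hx) with m | ⟨-, m | m⟩
  · exact m
  · omega
  · exact absurd m.1 h3

theorem tf_low {e : EOb} (he : e ∈ E) (h : Lower E e) : TF E e e.H 0 := by
  obtain ⟨a, ha, ka, hlt⟩ := h
  exact ⟨a, ha, e, he, ka, key_refl33 e, hlt, fun x hx => Or.inl hx⟩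

theorem tf_up {e : EOb} (he : e ∈ E) (h : Upper E e) : TF E e e.H 0 := by
  obtain ⟨a, ha, ka, hlt⟩ := h
  exact ⟨e, he, a, ha, key_refl33 e, ka, hlt, fun x hx => Or.inl hx⟩

theorem tf_in {e : EOb} (h : Lower E e) (h' : Upper E e) : TF E e (insert e.u e.H) e.u := by
  obtain ⟨a, ha, ka, hlt⟩ := h
  obtain ⟨b, hb, kb, hlt'⟩ := h'
  refine ⟨a, ha, b, hb, ka, kb, by omega, fun x hx => ?_⟩
  rcases mem_insert.1 hx with h1 | h1
  · exact Or.inr ⟨h1, hlt, hlt'⟩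
  · exact Or.inl h1

theorem dom_R (e : EOb) : Dom e e.H (obR l e) :=
  ⟨subset_insert _ _, fun _ h _ => h, fun _ h1 h2 => ⟨h1, h2⟩⟩

theorem dom_B (e : EOb) : Dom e e.H (obB e) :=
  ⟨Subset.refl _, fun _ h _ => h, fun _ h1 h2 => ⟨h1, h2⟩⟩

theorem dom_U (e : EOb) : Dom e (insert e.u e.H) (obU e) :=
  ⟨Subset.refl _, fun _ h _ => h, fun _ h1 h2 => ⟨h1, h2⟩⟩

theorem dom_D (e : EOb) : Dom e (e.H.erase e.u) (obD e) :=
  ⟨Subset.refl _, fun _ h _ => h, fun _ h1 h2 => ⟨h1, h2⟩⟩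

theorem dom_M (hl : l + 3 < n) (hE : FamE n l E) {e : EOb} (he : e ∈ E) (h1 : Lower E e)
    (h2 : Upper E e) : Dom e (insert e.u e.H) (obM n l e) := by
  have h := (flp_spec (hE.val e he).tri (inner_mem hl hE he h1 h2).1).2.2.1
  refine ⟨subset_insert _ _, fun p hp h0 => h p hp (fun hh => h0 (by rw [hh])),
    fun x hx hK => ⟨h _ hx (fun hh => hK ?_), fun hh => hK (mem_insert_of_mem hh)⟩⟩
  rw [(Prod.mk.inj hh).2]
  exact mem_insert_self _ _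

/-- Three kinds of new objects. -/
theorem lab_kind (hl : l + 3 < n) (hE : FamE n l E) {e : EOb} (he : e ∈ E) :
    (e.u ∈ e.H ∧ Dom e (e.H.erase e.u) (lab n l E e)) ∨
    (¬ Lower E e ∧ ¬ Upper E e ∧ ¬ TakesD E e ∧ lab n l E e = obR l e) ∨
    ∃ K μ, TF E e K μ ∧ Dom e K (lab n l E e) ∧ (l ∈ (lab n l E e).Z ∨ (Lower E e ∧ K = e.H) ∨
      (¬ Bad l E e ∧ lab n l E e = obU e)) := by
  rcases lab_cases n l E e with h | h | h | h | h
  · exact Or.inl ⟨h.1.1.2.2, h.2 ▸ dom_D e⟩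
  · by_cases h2 : Upper E e
    · refine Or.inr (Or.inr ⟨_, _, tf_up he h2, h.2.2 ▸ dom_R e, Or.inl ?_⟩)
      rw [h.2.2]
      exact mem_insert_self _ _
    · exact Or.inr (Or.inl ⟨h.2.1, h2, h.1, h.2.2⟩)
  · exact Or.inr (Or.inr ⟨_, _, tf_low he h.1, h.2.2 ▸ dom_B e, Or.inr (Or.inl ⟨h.1, rfl⟩)⟩)
  · refine Or.inr (Or.inr ⟨_, _, tf_in h.1 h.2.1, h.2.2.2 ▸ dom_M hl hE he h.1 h.2.1, Or.inl ?_⟩)
    rw [h.2.2.2]
    exact mem_insert_self _ _
  · exact Or.inr (Or.inr ⟨_, _, tf_in h.1 h.2.1, h.2.2.2 ▸ dom_U e,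
      Or.inr (Or.inr ⟨h.2.2.1, h.2.2.2⟩)⟩)

theorem meet_FS (hl : l + 3 < n) (hE : FamE n l E) {e e' : EOb} (he : e ∈ E) (he' : e' ∈ E)
    {K : Finset ℕ} {μ : ℕ} (t : TF E e K μ) (d : Dom e K (lab n l E e))
    (c : l ∈ (lab n l E e).Z ∨ (Lower E e ∧ K = e.H) ∨ (¬ Bad l E e ∧ lab n l E e = obU e))
    (h1 : ¬ Lower E e') (h2 : ¬ Upper E e') (h4 : ¬ TakesD E e') :
    Meet (lab n l E e) (obR l e') := by
  by_cases h3 : e'.u ∈ e'.H
  · exact meet_of_dom d (dom_R e') (pair_FS2 hl hE he he' t h1 h2 h3 h4)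
  rcases c with c | c | c
  · exact Or.inl ⟨l, c, mem_insert_self _ _⟩
  · obtain ⟨c1, rfl⟩ := c
    exact meet_of_dom d (dom_R e') (pair_BS1 hl hE he he' c1 h3)
  · rw [c.2]
    by_contra hc
    exact c.1 ⟨e', he', h1, h2, h3, hc⟩

theorem lab_meet' (hl : l + 3 < n) (hE : FamE n l E) {e e' : EOb} (he : e ∈ E) (he' : e' ∈ E) :
    Meet (lab n l E e) (lab n l E e') := by
  rcases lab_kind hl hE he with h | h | ⟨K, μ, t, d, c⟩
  · rcases lab_kind hl hE he' with h' | h' | ⟨K', μ', t', d', c'⟩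
    · exact meet_of_dom h.2 h'.2 (pair_DD hl hE he he' h'.1)
    · refine meet_symm33 (meet_of_dom ?_ h.2 (pair_SD hl hE he' he h'.1 h'.2.1 h'.2.2.1 h.1))
      rw [h'.2.2.2]
      exact dom_R e'
    · exact meet_symm33 (meet_of_dom d' h.2 (pair_FD hl hE he' he t' h.1))
  · rcases lab_kind hl hE he' with h' | h' | ⟨K', μ', t', d', c'⟩
    · refine meet_of_dom ?_ h'.2 (pair_SD hl hE he he' h.1 h.2.1 h.2.2.1 h'.1)
      rw [h.2.2.2]
      exact dom_R e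
    · rw [h.2.2.2, h'.2.2.2]
      exact Or.inl ⟨l, mem_insert_self _ _, mem_insert_self _ _⟩
    · rw [h.2.2.2]
      exact meet_symm33 (meet_FS hl hE he' he t' d' c' h.1 h.2.1 h.2.2.1)
  · rcases lab_kind hl hE he' with h' | h' | ⟨K', μ', t', d', c'⟩
    · exact meet_of_dom d h'.2 (pair_FD hl hE he he' t h'.1)
    · rw [h'.2.2.2]
      exact meet_FS hl hE he he' t d c h'.1 h'.2.1 h'.2.2.1
    · exact meet_of_dom d d' (pair_FF hl hE t t')

end Pool.Agent.Lib.MP_04fdae_co.X
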