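import Pool.Agent.Lib.MP_04fdae_co.X.StepVal
import Pool.Agent.Lib.MP_04fdae_co.X.StepMeet33
import Pool.Agent.Lib.MP_04fdae_co.X.StepInj

/-! The labelling map is injective and keeps validity and meeting. -/

namespace Pool.Agent.Lib.MP_04fdae_co.X

open Finset

variable {n l : ℕ} {E : Finset EOb}

theorem lab_val (hl : l + 3 < n) (hE : FamE n l E) {e : EOb} (he : e ∈ E) :
    Val n (l + 1) (lab n l E e) :=
  lab_val' hl hE he

theorem lab_meet (hl : l + 3 < n) (hE : FamE n l E) {e e' : EOb} (he : e ∈ E) (he' : e' ∈ E) :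
    Meet (lab n l E e) (lab n l E e') :=
  lab_meet' hl hE he he'

/-- The fibre over the flipped triangulation is empty. -/
theorem moved_empty (hl : l + 3 < n) (hE : FamE n l E) {e g : EOb} (he : e ∈ E) (hg : g ∈ E)
    (h1 : Lower E e) (h2 : Upper E e) (h3 : Bad l E e) (hZ : g.Z = e.Z)
    (hR : g.R = flp n (l + 1) e.R e.u) (hH : g.H = e.H) : False :=
  moved_empty' hl hE he hg h1 h2 h3 hZ hR hH

theorem lab_inj (hl : l + 3 < n) (hE : FamE n l E) {e e' : EOb} (he : e ∈ E) (he' : e' ∈ E)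
    (h : lab n l E e = lab n l E e') : e = e' :=
  lab_inj' hl hE he he' h

end Pool.Agent.Lib.MP_04fdae_co.X
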