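import Pool.Agent.Lib.MP_04fdae_co.X.Lab

/-! The labelling map keeps meeting. -/

namespace Pool.Agent.Lib.MP_04fdae_co.X

open Finset

section
variable {r n a b a' b' m m' u k : ℕ} {X : ℕ → Prop} {H H' K : Finset ℕ}

theorem core_symm (h : CoreN r n X H H' a b) : CoreN r n X H' H b a := by
  unfold CoreN at *
  rcases h with h | h | ⟨x, h, h'⟩
  · exact .inl ⟨h.2.1, h.1, h.2.2.2, h.2.2.1⟩
  · exact .inr (.inl h.symm)
  · exact .inr (.inr ⟨x, h, h'.imp And.symm fun t => ⟨t.2.1, t.1, t.2.2.2, t.2.2.1⟩⟩)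

/-- A lower apex against an upper apex. -/
theorem core_lh (h : CoreN r n X H H' a b) (h1 : a + 1 < n) (h2 : r < b) :
    ∃ x, X x ∧ ((x ≤ a ∧ x ≤ b) ∨ (a ≤ x ∧ b ≤ x ∧ x ∉ H ∧ x ∉ H')) := by
  rcases h with h | h | h
  · omega
  · omega
  · exact h

/-- Against a marked apex. -/
theorem core_mk (h : CoreN r n X H H' a u) (h1 : u + 1 < n) (h2 : u ∈ H') :
    ∃ x, X x ∧ ((x ≤ a ∧ x ≤ u) ∨ (a ≤ x ∧ u < x ∧ x ∉ H ∧ x ∉ H')) := by
  rcases h with h | h | ⟨x, h, h'⟩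
  · exact absurd (h.2.1 ▸ h2) h.2.2.2
  · omega
  · exact ⟨x, h, h'.imp_right fun t =>
      ⟨t.1, lt_of_le_of_ne t.2.1 fun e => t.2.2.2 (e ▸ h2), t.2.2⟩⟩

theorem ord_bb (h1 : CoreN r n X H H' a b') (h2 : CoreN r n X H H' b a') (ra : r ≤ a)
    (ra' : r ≤ a') (ab : a < b) (ab' : a' < b') (bn : b < n) (bn' : b' < n)
    (hH : ∀ x ∈ H, b ≤ x) (hH' : ∀ x ∈ H', b' ≤ x) :
    ∃ x, X x ∧ x ∉ H ∧ x ∉ H' ∧ (a < m → m < b → x ≠ m) ∧ (a' < m' → m' < b' → x ≠ m') := by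
  have n1 : ∀ x, x < b → x ∉ H := fun x h t => (hH x t).not_gt h
  have n2 : ∀ x, x < b' → x ∉ H' := fun x h t => (hH' x t).not_gt h
  obtain ⟨x, hx, h1⟩ := core_lh h1 (by omega) (by omega)
  obtain ⟨y, hy, h2⟩ := core_lh (core_symm h2) (by omega) (by omega)
  rcases h1 with h1 | h1 <;> rcases h2 with h2 | h2
  · rcases le_total x y with t | t
    · exact ⟨x, hx, n1 x (by omega), n2 x (by omega), by omega, by omega⟩
    · exact ⟨y, hy, n1 y (by omega), n2 y (by omega), by omega, by omega⟩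
  · by_cases t : a' < m' ∧ m' < b' ∧ y = m'
    · exact ⟨x, hx, n1 x (by omega), n2 x (by omega), by omega, by omega⟩
    · exact ⟨y, hy, h2.2.2.2, h2.2.2.1, by omega, by omega⟩
  · by_cases t : a < m ∧ m < b ∧ x = m
    · exact ⟨y, hy, n1 y (by omega), n2 y (by omega), by omega, by omega⟩
    · exact ⟨x, hx, h1.2.2.1, h1.2.2.2, by omega, by omega⟩
  · rcases le_total x y with t | t
    · exact ⟨y, hy, h2.2.2.2, h2.2.2.1, by omega, by omega⟩
    · exact ⟨x, hx, h1.2.2.1, h1.2.2.2, by omega, by omega⟩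

/-- A large fibre against a marked apex: a good chord, or only the marked apex is left. -/
theorem ord_bm (h1 : CoreN r n X H H' a u) (h2 : CoreN r n X H H' b u) (ab : a < b)
    (un : u + 1 < n) (hu : u ∈ H') (hH : ∀ x ∈ H, b ≤ x) (hH' : ∀ x ∈ H', u ≤ x) :
    ∃ x, X x ∧ x ∉ H ∧ (a < m → m < b → x ≠ m) ∧
      (x ∉ H' ∨ (x = u ∧ u < b ∧ (a < m → m < b → u < m))) := by
  have n1 : ∀ x, x < b → x ∉ H := fun x h t => (hH x t).not_gt h
  have n2 : ∀ x, x < u → x ∉ H' := fun x h t => (hH' x t).not_gt h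
  obtain ⟨y, hy, h1 | h1⟩ := core_mk h1 un hu
  · refine ⟨y, hy, n1 y (by omega), by omega, ?_⟩
    rcases h1.2.lt_or_eq with t | t
    · exact .inl (n2 y t)
    · exact .inr (by omega)
  · by_cases s : a < m ∧ m < b ∧ y = m
    · obtain ⟨x, hx, h2 | h2⟩ := core_mk h2 un hu
      · refine ⟨x, hx, n1 x (by omega), by omega, ?_⟩
        rcases h2.2.lt_or_eq with t | t
        · exact .inl (n2 x t)
        · exact .inr (by omega)
      · exact ⟨x, hx, h2.2.2.1, by omega, .inl h2.2.2.2⟩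
    · exact ⟨y, hy, h1.2.2.1, by omega, .inl h1.2.2.2⟩

theorem ord_bc (h1 : CoreN r n X H H' a u) (h2 : CoreN r n X H H' b u)
    (h3 : CoreN r n X H K b k) (ab : a < b) (un : u + 1 < n) (hu : u ∈ H') (hk : k ∈ K)
    (ku : k < u) (hK : K.erase k = H'.erase u) (hH : ∀ x ∈ H, b ≤ x) (hH' : ∀ x ∈ H', u ≤ x) :
    ∃ x, X x ∧ x ∉ H ∧ (a < m → m < b → x ≠ m) ∧ x ∉ H' := by
  obtain ⟨y, hy, y1, y2, t | t⟩ := ord_bm (m := m) h1 h2 ab un hu hH hH'
  · exact ⟨y, hy, y1, y2, t⟩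
  · obtain ⟨x, hx, h | h⟩ := core_mk h3 (by omega) hk
    · exact ⟨x, hx, fun s => by have := hH x s; omega, by omega,
        fun s => by have := hH' x s; omega⟩
    · exact ⟨x, hx, h.2.2.1, by omega, fun s =>
        h.2.2.2 (mem_of_mem_erase (hK ▸ mem_erase.2 ⟨by omega, s⟩))⟩

theorem ord_bs (h1 : CoreN r n X H H' a u) (h2 : CoreN r n X H H' b u) (ra : r ≤ a) (ab : a < b)
    (bn : b < n) (rn : r + 1 < n) (hX : ∀ x, X x → r < x) (hu : u ∉ H') (hH : ∀ x ∈ H, b ≤ x)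
    (hH' : ∀ x ∈ H', u ≤ x) : ∃ x, X x ∧ x ∉ H ∧ x ∉ H' := by
  rcases h1 with h | h | ⟨y, hy, h | h⟩
  · obtain ⟨x, hx, t | t⟩ := core_lh (core_symm h2) (by omega) (by omega)
    · have := hX x hx
      omega
    · exact ⟨x, hx, t.2.2.2, t.2.2.1⟩
  · omega
  · exact ⟨y, hy, fun s => by have := hH y s; omega,
      fun s => hu (le_antisymm h.2 (hH' y s) ▸ s)⟩
  · exact ⟨y, hy, h.2.2⟩

end

variable {n l : ℕ} {E : Finset EOb}

theorem meet_symm {o o' : Ob} (h : Meet o o') : Meet o' o :=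
  h.imp (fun ⟨i, a, b⟩ => ⟨i, b, a⟩) fun ⟨p, a, b, c⟩ => ⟨p, b, a, fun t => c ⟨t.1, t.2.symm⟩⟩

theorem ValE.mk_lt (hl : l + 3 < n) {e : EOb} (h : ValE n l e) (hu : e.u ∈ e.H) : e.u + 1 < n := by
  rcases (h.mark _ hu).2 with t | t
  · exact (h.tri.wch t).2
  · omega

/-- What the label keeps. -/
theorem lab_keep (hl : l + 3 < n) (hE : FamE n l E) {e : EOb} (he : e ∈ E) :
    e.Z ⊆ (lab n l E e).Z ∧ (∀ p ∈ e.R, p.1 ≠ 0 → p ∈ (lab n l E e).S) ∧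
      ∀ x, (0, x) ∈ e.R → (x ∉ e.H ∨ (TakesD E e ∧ x = e.u)) → (Lower E e → Upper E e → x ≠ e.u) →
        (0, x) ∈ (lab n l E e).S ∧ x ∉ (lab n l E e).H := by
  have nd : Lower E e → ¬ TakesD E e := fun h t => t.1.1 h
  rcases lab_cases n l E e with ⟨h, q⟩ | ⟨h, h', q⟩ | ⟨h, -, q⟩ | ⟨h, h', -, q⟩ | ⟨h, h', -, q⟩ <;>
    rw [q]
  · exact ⟨Subset.rfl, fun _ t _ => t, fun x t s _ => ⟨t, fun z =>
      s.elim (fun s => s (mem_of_mem_erase z)) fun s => (mem_erase.1 z).1 s.2⟩⟩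
  · exact ⟨subset_insert _ _, fun _ t _ => t, fun x t s _ => ⟨t, s.resolve_right fun s => h s.1⟩⟩
  · exact ⟨Subset.rfl, fun _ t _ => t, fun x t s _ => ⟨t, s.resolve_right fun s => nd h s.1⟩⟩
  · have k := (flp_spec (hE.val e he).tri (inner_mem hl hE he h h').1).2.2.1
    exact ⟨subset_insert _ _, fun p t s => k p t fun z => s (congrArg Prod.fst z), fun x t s z =>
      ⟨k _ t fun y => z h h' (congrArg Prod.snd y), s.resolve_right fun s => nd h s.1⟩⟩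
  · exact ⟨Subset.rfl, fun _ t _ => t, fun x t s z => ⟨t, fun y => (mem_insert.1 y).elim (z h h')
      (s.resolve_right fun s => nd h s.1)⟩⟩

theorem lab_red {e : EOb} (h : ¬ TakesD E e) (h' : ¬ Lower E e) : lab n l E e = obR l e := by
  unfold lab
  rw [if_neg h, if_pos h']

/-- The two ends of a large fibre. -/
theorem big_ends {e : EOb} (he : e ∈ E) (h : Lower E e ∨ Upper E e) :
    ∃ a ∈ E, ∃ b ∈ E, Key e a ∧ Key e b ∧ a.u < b.u ∧
      (Lower E e → Upper E e → a.u < e.u ∧ e.u < b.u) := by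
  have k : Key e e := ⟨rfl, rfl, rfl, rfl⟩
  by_cases h1 : Lower E e <;> by_cases h2 : Upper E e
  · obtain ⟨a, ha, ka, t⟩ := h1
    obtain ⟨b, hb, kb, s⟩ := h2
    exact ⟨a, ha, b, hb, ka, kb, t.trans s, fun _ _ => ⟨t, s⟩⟩
  · obtain ⟨a, ha, ka, t⟩ := h1
    exact ⟨a, ha, e, he, ka, k, t, fun _ s => absurd s h2⟩
  · obtain ⟨b, hb, kb, s⟩ := h2
    exact ⟨e, he, b, hb, k, kb, s, fun t => absurd t h1⟩
  · exact (h.elim h1 h2).elim

theorem core_of (hE : FamE n l E) {e e' a a' : EOb} (h : ¬ Easy e e') (ha : a ∈ E) (ha' : a' ∈ E)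
    (h1 : a.Z = e.Z) (h2 : a.R = e.R) (h3 : a'.Z = e'.Z) (h4 : a'.R = e'.R) :
    CoreN (l + 2) n (fun x => (0, x) ∈ e.R ∧ (0, x) ∈ e'.R) a.H a'.H a.u a'.u := by
  have k := hE.meet a ha a' ha'
  unfold MeetE Easy at k
  rw [h1, h2, h3, h4] at k
  exact k.resolve_left h

theorem small_cand {e : EOb} (h : Cand E e) (h' : ¬ TakesD E e) : ∃ k ∈ E, k.u ∈ k.H ∧ k.Z = e.Z ∧
    k.R = e.R ∧ k.H.erase k.u = e.H.erase e.u ∧ k.u < e.u := by
  by_contra t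
  exact h' ⟨h, fun k hk c h1 _ h2 h3 => not_lt.1 fun s => t ⟨k, hk, c.2.2, h1, h2, h3, s⟩⟩

theorem meet_of (hl : l + 3 < n) (hE : FamE n l E) {e e' : EOb} (he : e ∈ E) (he' : e' ∈ E) {x : ℕ}
    (hx : (0, x) ∈ e.R ∧ (0, x) ∈ e'.R) (h1 : x ∉ e.H ∨ (TakesD E e ∧ x = e.u))
    (h2 : Lower E e → Upper E e → x ≠ e.u) (h3 : x ∉ e'.H ∨ (TakesD E e' ∧ x = e'.u))
    (h4 : Lower E e' → Upper E e' → x ≠ e'.u) : Meet (lab n l E e) (lab n l E e') := by
  obtain ⟨a, b⟩ := (lab_keep hl hE he).2.2 x hx.1 h1 h2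
  obtain ⟨c, d⟩ := (lab_keep hl hE he').2.2 x hx.2 h3 h4
  exact .inr ⟨(0, x), a, c, fun t => t.2.elim b d⟩

theorem meet_big (hl : l + 3 < n) (hE : FamE n l E) {e e' : EOb} (he : e ∈ E) (he' : e' ∈ E)
    (h : ¬ Easy e e') (hb : Lower E e ∨ Upper E e) : Meet (lab n l E e) (lab n l E e') := by
  obtain ⟨a, ha, b, hb, ka, kb, ab, m⟩ := big_ends he hb
  have va := (hE.val a ha).bd hl
  have vb := (hE.val b hb).bd hl
  have hH : ∀ x ∈ e.H, b.u ≤ x := fun x hx => ((hE.val b hb).mark x (kb.2.2.2 ▸ hx)).1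
  have ca := fun a' ha' => ka.2.2.2 ▸ core_of (a' := a') hE h ha ha' ka.1 ka.2.2.1
  have cb := fun a' ha' => kb.2.2.2 ▸ core_of (a' := a') hE h hb ha' kb.1 kb.2.2.1
  by_cases hb' : Lower E e' ∨ Upper E e'
  · obtain ⟨a', ha', b', hb', ka', kb', ab', m'⟩ := big_ends he' hb'
    obtain ⟨x, hx, x1, x2, x3, x4⟩ := ord_bb (m := e.u) (m' := e'.u)
      (kb'.2.2.2 ▸ ca b' hb' kb'.1 kb'.2.2.1) (ka'.2.2.2 ▸ cb a' ha' ka'.1 ka'.2.2.1) va.1
      ((hE.val a' ha').bd hl).1 ab ab' vb.2 ((hE.val b' hb').bd hl).2 hH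
      fun x hx => ((hE.val b' hb').mark x (kb'.2.2.2 ▸ hx)).1
    exact meet_of hl hE he he' hx (.inl x1) (fun s t => x3 (m s t).1 (m s t).2) (.inl x2)
      fun s t => x4 (m' s t).1 (m' s t).2
  obtain ⟨h1, h2⟩ := not_or.1 hb'
  have hH' : ∀ x ∈ e'.H, e'.u ≤ x := fun x hx => ((hE.val e' he').mark x hx).1
  by_cases hu : e'.u ∈ e'.H
  · have un := (hE.val e' he').mk_lt hl hu
    by_cases hd : TakesD E e'
    · obtain ⟨x, hx, x1, x2, x3⟩ := ord_bm (m := e.u) (ca e' he' rfl rfl) (cb e' he' rfl rfl) ab un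
        hu hH hH'
      exact meet_of hl hE he he' hx (.inl x1) (fun s t => x2 (m s t).1 (m s t).2)
        (x3.imp_right fun t => ⟨hd, t.1⟩) fun s => absurd s h1
    · obtain ⟨k, hk, k1, k2, k3, k4, k5⟩ := small_cand ⟨h1, h2, hu⟩ hd
      obtain ⟨x, hx, x1, x2, x3⟩ := ord_bc (m := e.u) (ca e' he' rfl rfl) (cb e' he' rfl rfl)
        (cb k hk k2 k3) ab un hu k1 k5 k4 hH hH'
      exact meet_of hl hE he he' hx (.inl x1) (fun s t => x2 (m s t).1 (m s t).2) (.inl x3)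
        fun s => absurd s h1
  by_cases hi : Lower E e ∧ Upper E e
  · rw [lab_red (fun t => hu t.1.2.2) h1]
    rcases lab_cases n l E e with ⟨t, -⟩ | ⟨-, t, -⟩ | ⟨-, t, -⟩ | ⟨-, -, -, q⟩ | ⟨-, -, t, q⟩
    · exact absurd hi.1 t.1.1
    · exact absurd hi.1 t
    · exact absurd hi.2 t
    · exact q ▸ .inl ⟨l, mem_insert_self _ _, mem_insert_self _ _⟩
    · exact q ▸ not_not.1 fun s => t ⟨e', he', h1, h2, hu, s⟩
  · obtain ⟨x, hx, x1, x2⟩ := ord_bs (ca e' he' rfl rfl) (cb e' he' rfl rfl) va.1 ab vb.2 hl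
      (fun x hx => ((hE.val e he).tri.wch hx.1).1) hu hH hH'
    exact meet_of hl hE he he' hx (.inl x1) (fun s t => absurd ⟨s, t⟩ hi) (.inl x2)
      fun s => absurd s h1

theorem meet_down (hl : l + 3 < n) (hE : FamE n l E) {e e' : EOb} (he : e ∈ E) (he' : e' ∈ E)
    (h : ¬ Easy e e') (hb : ¬ (Lower E e ∨ Upper E e)) (hd : TakesD E e') :
    Meet (lab n l E e) (lab n l E e') := by
  obtain ⟨h1, h2⟩ := not_or.1 hb
  have hu := hd.1.2.2
  have un := (hE.val e' he').mk_lt hl hu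
  have hH : ∀ x ∈ e.H, e.u ≤ x := fun x hx => ((hE.val e he).mark x hx).1
  have lw : ∀ x, x ≤ e'.u → x ∉ e'.H ∨ (TakesD E e' ∧ x = e'.u) := fun x t =>
    (em _).symm.imp_right fun s => ⟨hd, le_antisymm t ((hE.val e' he').mark x s).1⟩
  have f := fun x hx s t => meet_of (x := x) hl hE he he' hx s (fun s => absurd s h1) t
    fun s => absurd s hd.1.1
  obtain ⟨x, hx, t | t⟩ := core_mk (core_of hE h he he' rfl rfl rfl rfl) un hu
  · by_cases s : x ∈ e.H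
    · have xe := le_antisymm t.1 (hH x s)
      by_cases hd' : TakesD E e
      · exact f x hx (.inr ⟨hd', xe⟩) (lw x t.2)
      · obtain ⟨k, hk, k1, k2, k3, k4, k5⟩ := small_cand ⟨h1, h2, xe ▸ s⟩ hd'
        obtain ⟨z, hz, y | y⟩ := core_mk (core_of hE h hk he' k2 k3 rfl rfl) un hu
        · exact f z hz (.inl fun s => by have := hH z s; omega) (lw z y.2)
        · exact f z hz (.inl fun s => y.2.2.1
            (mem_of_mem_erase (k4 ▸ mem_erase.2 ⟨by omega, s⟩))) (.inl y.2.2.2)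
    · exact f x hx (.inl s) (lw x t.2)
  · exact f x hx (.inl t.2.2.1) (.inl t.2.2.2)

theorem lab_meet' (hl : l + 3 < n) (hE : FamE n l E) {e e' : EOb} (he : e ∈ E) (he' : e' ∈ E) :
    Meet (lab n l E e) (lab n l E e') := by
  by_cases h : Easy e e'
  · obtain ⟨a, b, -⟩ := lab_keep hl hE he
    obtain ⟨c, d, -⟩ := lab_keep hl hE he'
    exact h.imp (fun ⟨i, s, t⟩ => ⟨i, a s, c t⟩) fun ⟨p, s, t, z⟩ =>
      ⟨p, b p s z, d p t z, fun y => z y.1⟩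
  have h' : ¬ Easy e' e := fun t =>
    h (t.imp (fun ⟨i, a, b⟩ => ⟨i, b, a⟩) fun ⟨p, a, b, c⟩ => ⟨p, b, a, c⟩)
  by_cases b : Lower E e ∨ Upper E e
  · exact meet_big hl hE he he' h b
  by_cases b' : Lower E e' ∨ Upper E e'
  · exact meet_symm (meet_big hl hE he' he h' b')
  by_cases d' : TakesD E e'
  · exact meet_down hl hE he he' h b d'
  by_cases d : TakesD E e
  · exact meet_symm (meet_down hl hE he' he h' b' d)
  rw [lab_red d fun t => b (.inl t), lab_red d' fun t => b' (.inl t)]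
  exact .inl ⟨l, mem_insert_self _ _, mem_insert_self _ _⟩

end Pool.Agent.Lib.MP_04fdae_co.X
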