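import Pool.Agent.Lib.MP_04fdae_co.X.Lab

/-! The labelling map gives valid objects. -/

namespace Pool.Agent.Lib.MP_04fdae_co.X

open Finset

variable {n l : ℕ} {E : Finset EOb}

theorem lab_val' (hl : l + 3 < n) (hE : FamE n l E) {e : EOb} (he : e ∈ E) :
    Val n (l + 1) (lab n l E e) := by
  have hv := hE.val e he
  have hb := hv.bd hl
  have hc : e.Z.card ≤ l := by simpa using card_le_card hv.red
  have e1 : l + 1 - e.Z.card = l - e.Z.card + 1 := by omega
  have r1 : e.Z ⊆ range (l + 1) := hv.red.trans (range_subset_range.2 l.le_succ)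
  have r2 : insert l e.Z ⊆ range (l + 1) := insert_subset (self_mem_range_succ l) r1
  have w2 : e.w ∈ MzF (l + 1 - (insert l e.Z).card) e.H.card := by
    rw [card_insert_of_notMem fun h => notMem_range_self (hv.red h), Nat.add_sub_add_right]
    exact hv.word
  have lo : Lower E e → ∀ x ∈ e.H, (0, x) ∈ e.R := fun ⟨a, ha, _, h⟩ x hx =>
    (hv.mark x hx).2.resolve_right fun t => by
      have := (hE.val a ha).bd hl
      have := (hv.mark x hx).1
      omega
  rcases lab_cases n l E e with ⟨h, q⟩ | ⟨h, h', q⟩ | ⟨h, -, q⟩ | ⟨h, h', -, q⟩ | ⟨h, h', -, q⟩ <;>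
    rw [q]
  · refine ⟨r1, ?_, hv.tri, fun x hx => ?_⟩
    · change (2 : Fin 3) :: e.w ∈ MzF (l + 1 - e.Z.card) (e.H.erase e.u).card
      rw [e1, mz_down, card_erase_add_one h.1.2.2]
      exact hv.word
    · obtain ⟨h1, h2⟩ := mem_erase.1 hx
      have := hv.mark x h2
      exact this.2.resolve_right (by omega)
  · refine ⟨r2, w2, hv.tri, fun x hx => (hv.mark x hx).2.resolve_right fun t => h ?_⟩
    have h1 : e.u = x := by
      have := (hv.mark x hx).1
      omega
    refine ⟨⟨h', fun ⟨b, hb', k, h2⟩ => ?_, h1 ▸ hx⟩, fun k hk _ _ _ _ _ => ?_⟩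
    · have := ((hE.val b hb').mark x (k.2.2.2 ▸ hx)).1
      omega
    · have := (hE.val k hk).bd hl
      omega
  · refine ⟨r1, ?_, hv.tri, lo h⟩
    change (0 : Fin 3) :: e.w ∈ MzF (l + 1 - e.Z.card) e.H.card
    rw [e1, mz_flat]
    exact hv.word
  · obtain ⟨h1, h2⟩ := inner_mem hl hE he h h'
    obtain ⟨h3, -, h4, -⟩ := flp_spec hv.tri h1
    exact ⟨r2, w2, h3, fun x hx => h4 _ (lo h x hx) fun t => (h2 x hx).ne' (Prod.ext_iff.1 t).2⟩
  · obtain ⟨h1, h2⟩ := inner_mem hl hE he h h'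
    refine ⟨r1, ?_, hv.tri, fun x hx => ?_⟩
    · change (1 : Fin 3) :: e.w ∈ MzF (l + 1 - e.Z.card) (insert e.u e.H).card
      rw [e1, card_insert_of_notMem fun t => (h2 _ t).false, mz_up]
      exact hv.word
    · rcases mem_insert.1 hx with rfl | hx
      · exact h1
      · exact lo h x hx

end Pool.Agent.Lib.MP_04fdae_co.X
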