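import Pool.Agent.Lib.MP_04fdae_co.X.Main
import Pool.Agent.Lib.MP_04fdae_co.X.Low

/-! Transfer to `Fin n`. -/

namespace Pool.Agent.Lib.MP_04fdae_co.X

/-- Map `T` to its image under `p ↦ (p.1.val, p.2.val)`, a bijection from `Tri` onto `Tri n 0`; use
`main_nat` for `F` and for the star of `d`, and `low_ear`. -/
theorem top :
  ∀ n : ℕ, 4 ≤ n →
  ∀ Tr : Set (Finset (Fin n × Fin n)),
    (∀ T : Finset (Fin n × Fin n), T ∈ Tr ↔
      ((∀ p ∈ T, p.1.val + 2 ≤ p.2.val ∧ ¬ (p.1.val = 0 ∧ p.2.val = n - 1)) ∧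
       (∀ p ∈ T, ∀ q ∈ T,
          ¬ ((p.1 < q.1 ∧ q.1 < p.2 ∧ p.2 < q.2) ∨ (q.1 < p.1 ∧ p.1 < q.2 ∧ q.2 < p.2))) ∧
       (∀ p : Fin n × Fin n,
          (p.1.val + 2 ≤ p.2.val ∧ ¬ (p.1.val = 0 ∧ p.2.val = n - 1)) →
          (∀ q ∈ T,
            ¬ ((p.1 < q.1 ∧ q.1 < p.2 ∧ p.2 < q.2) ∨ (q.1 < p.1 ∧ p.1 < q.2 ∧ q.2 < p.2))) →
          p ∈ T))) →
    ∀ F : Finset (Finset (Fin n × Fin n)),
      (∀ T ∈ F, T ∈ Tr) →
      (∀ T₁ ∈ F, ∀ T₂ ∈ F, (T₁ ∩ T₂).Nonempty) →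
      F.card ≤ catalan (n - 3) ∧
      (F.card = catalan (n - 3) ↔
        ∃ d : Fin n × Fin n,
          (d.2.val = d.1.val + 2 ∨ (d.1.val = 0 ∧ d.2.val = n - 2) ∨
            (d.1.val = 1 ∧ d.2.val = n - 1)) ∧
          ∀ T : Finset (Fin n × Fin n), T ∈ F ↔ (T ∈ Tr ∧ d ∈ T)) := by
  intro n hn Tr hTr
  classical
  let φ : Fin n × Fin n → ℕ × ℕ := fun p => (p.1.val, p.2.val)
  have hφ : Function.Injective φ := by
    intro p q h
    simp only [φ, Prod.mk.injEq] at h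
    exact Prod.ext (Fin.ext h.1) (Fin.ext h.2)
  have hΦ : Function.Injective (fun T : Finset (Fin n × Fin n) => T.image φ) :=
    Finset.image_injective hφ
  have hdg : ∀ p : Fin n × Fin n,
      Dg n 0 (φ p) ↔ (p.1.val + 2 ≤ p.2.val ∧ ¬ (p.1.val = 0 ∧ p.2.val = n - 1)) := by
    intro p
    have h2 := p.2.isLt
    simp only [Dg, φ]
    omega
  have hcr : ∀ p q : Fin n × Fin n, Cr (φ p) (φ q) ↔
      ((p.1 < q.1 ∧ q.1 < p.2 ∧ p.2 < q.2) ∨ (q.1 < p.1 ∧ p.1 < q.2 ∧ q.2 < p.2)) := by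
    intro p q
    simp only [Cr, φ, Fin.lt_def]
  have hsur : ∀ c : ℕ × ℕ, c.1 < n → c.2 < n → ∃ p, φ p = c := by
    intro c h1 h2
    exact ⟨(⟨c.1, h1⟩, ⟨c.2, h2⟩), rfl⟩
  have hdgs : ∀ c : ℕ × ℕ, Dg n 0 c → ∃ p, φ p = c := by
    intro c hc
    apply hsur <;> (simp only [Dg] at hc; omega)
  have hmem : ∀ (T : Finset (Fin n × Fin n)) (p : Fin n × Fin n), φ p ∈ T.image φ ↔ p ∈ T := by
    intro T p
    constructor
    · intro h
      obtain ⟨q, hq, hqp⟩ := Finset.mem_image.1 h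
      rw [← hφ hqp]; exact hq
    · intro h
      exact Finset.mem_image_of_mem φ h
  have htri : ∀ T : Finset (Fin n × Fin n), T ∈ Tr ↔ Tri n 0 (T.image φ) := by
    intro T
    rw [hTr]
    constructor
    · rintro ⟨h1, h2, h3⟩
      refine ⟨?_, ?_, ?_⟩
      · intro c hc
        obtain ⟨p, hp, rfl⟩ := Finset.mem_image.1 hc
        exact (hdg p).2 (h1 p hp)
      · intro c hc c' hc'
        obtain ⟨p, hp, rfl⟩ := Finset.mem_image.1 hc
        obtain ⟨q, hq, rfl⟩ := Finset.mem_image.1 hc'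
        rw [hcr]
        exact h2 p hp q hq
      · intro c hc hno
        obtain ⟨p, rfl⟩ := hdgs c hc
        refine (hmem T p).2 (h3 p ((hdg p).1 hc) ?_)
        intro q hq
        rw [← hcr]
        exact hno _ ((hmem T q).2 hq)
    · intro h
      refine ⟨?_, ?_, ?_⟩
      · intro p hp
        exact (hdg p).1 (h.dg _ ((hmem T p).2 hp))
      · intro p hp q hq
        rw [← hcr]
        exact h.nc _ ((hmem T p).2 hp) _ ((hmem T q).2 hq)
      · intro p hp hno
        refine (hmem T p).1 (h.mx _ ((hdg p).2 hp) ?_)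
        intro c hc
        obtain ⟨q, hq, rfl⟩ := Finset.mem_image.1 hc
        rw [hcr]
        exact hno q hq
  have hlift : ∀ S : Finset (ℕ × ℕ), Tri n 0 S →
      ∃ T : Finset (Fin n × Fin n), T.image φ = S := by
    intro S hS
    refine ⟨Finset.univ.filter fun p => φ p ∈ S, ?_⟩
    ext c
    constructor
    · intro hc
      obtain ⟨p, hp, rfl⟩ := Finset.mem_image.1 hc
      exact (Finset.mem_filter.1 hp).2
    · intro hc
      obtain ⟨p, rfl⟩ := hdgs c (hS.dg c hc)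
      exact Finset.mem_image_of_mem φ (Finset.mem_filter.2 ⟨Finset.mem_univ _, hc⟩)
  have hmain : ∀ F : Finset (Finset (Fin n × Fin n)), (∀ T ∈ F, T ∈ Tr) →
      (∀ T₁ ∈ F, ∀ T₂ ∈ F, (T₁ ∩ T₂).Nonempty) →
      F.card ≤ catalan (n - 3) ∧
        (F.card = catalan (n - 3) → ∃ c, Ear n c ∧ ∀ T ∈ F, c ∈ T.image φ) := by
    intro F h1 h2
    have hcard : (F.image fun T : Finset (Fin n × Fin n) => T.image φ).card = F.card :=
      Finset.card_image_of_injective F hΦ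
    have hm := main_nat hn (F.image fun T : Finset (Fin n × Fin n) => T.image φ) (by
      intro S hS
      obtain ⟨T, hT, rfl⟩ := Finset.mem_image.1 hS
      exact (htri T).1 (h1 T hT)) (by
      intro S hS S' hS'
      obtain ⟨T, hT, rfl⟩ := Finset.mem_image.1 hS
      obtain ⟨T', hT', rfl⟩ := Finset.mem_image.1 hS'
      obtain ⟨p, hp⟩ := h2 T hT T' hT'
      exact ⟨φ p, (hmem T p).2 (Finset.mem_inter.1 hp).1, (hmem T' p).2 (Finset.mem_inter.1 hp).2⟩)
    rw [hcard] at hm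
    refine ⟨hm.1, fun hc => ?_⟩
    obtain ⟨c, hc1, hc2⟩ := hm.2 hc
    exact ⟨c, hc1, fun T hT => hc2 _ (Finset.mem_image_of_mem _ hT)⟩
  intro F h1 h2
  refine ⟨(hmain F h1 h2).1, ?_, ?_⟩
  · intro hc
    obtain ⟨c, hear, hall⟩ := (hmain F h1 h2).2 hc
    have hlt : c.1 < n ∧ c.2 < n := by
      rcases hear with h | h | h
      · omega
      · rw [h]; simp only; omega
      · rw [h]; simp only; omega
    obtain ⟨d, rfl⟩ := hsur c hlt.1 hlt.2
    have hdF : ∀ T ∈ F, d ∈ T := fun T hT => (hmem T d).1 (hall T hT)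
    refine ⟨d, ?_, fun T => ⟨fun hT => ⟨h1 T hT, hdF T hT⟩, ?_⟩⟩
    · rcases hear with h | h | h
      · exact Or.inl h.1
      · simp only [φ, Prod.mk.injEq] at h
        exact Or.inr (Or.inl h)
      · simp only [φ, Prod.mk.injEq] at h
        exact Or.inr (Or.inr h)
    · rintro ⟨hT, hd⟩
      by_contra hTF
      have hd' : ∀ U ∈ insert T F, d ∈ U := by
        intro U hU
        rcases Finset.mem_insert.1 hU with rfl | hU
        · exact hd
        · exact hdF U hU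
      have hb := (hmain (insert T F) (by
        intro U hU
        rcases Finset.mem_insert.1 hU with rfl | hU
        · exact hT
        · exact h1 U hU) (by
        intro U hU U' hU'
        exact ⟨d, Finset.mem_inter.2 ⟨hd' U hU, hd' U' hU'⟩⟩)).1
      rw [Finset.card_insert_of_notMem hTF] at hb
      omega
  · rintro ⟨d, hd, hF⟩
    have hear : Ear n (φ d) := by
      have h2' := d.2.isLt
      rcases hd with h | h | h
      · exact Or.inl ⟨h, h2'⟩
      · exact Or.inr (Or.inl (Prod.ext h.1 h.2))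
      · exact Or.inr (Or.inr (Prod.ext h.1 h.2))
    obtain ⟨F0, hF0, hc0⟩ := low_ear hn hear
    have hsub : F0 ⊆ F.image fun T : Finset (Fin n × Fin n) => T.image φ := by
      intro S hS
      obtain ⟨T, rfl⟩ := hlift S (hF0 S hS).1
      exact Finset.mem_image_of_mem _
        ((hF T).2 ⟨(htri T).2 (hF0 _ hS).1, (hmem T d).1 (hF0 _ hS).2⟩)
    have hle := Finset.card_le_card hsub
    rw [Finset.card_image_of_injective F hΦ] at hle
    have := (hmain F h1 h2).1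
    omega

end Pool.Agent.Lib.MP_04fdae_co.X
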