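import Mathlib

/-! Weighted Boolean EKR: weights that increase with the size of the complement. -/

set_option autoImplicit false

namespace Pool.Agent.MP04fdae.X

open Finset

/-- size of level `k` of the star of a point in the cube on `d` points -/
def starLev (d k : ℕ) : ℕ := if k = 0 then 0 else (d - 1).choose (k - 1)

lemma starLev_add (d k : ℕ) (hd : 1 ≤ d) (hk : k ≤ d) :
    starLev d k + starLev d (d - k) = d.choose k := by
  unfold starLev
  obtain ⟨e, rfl⟩ : ∃ e, d = e + 1 := ⟨d - 1, by omega⟩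
  rcases Nat.eq_zero_or_pos k with rfl | hk0
  · simp
  · rcases Nat.eq_or_lt_of_le hk with rfl | hlt
    · simp
    · obtain ⟨j, rfl⟩ : ∃ j, k = j + 1 := ⟨k - 1, by omega⟩
      have h1 : e + 1 - (j + 1) ≠ 0 := by omega
      rw [if_neg (by omega), if_neg h1]
      have h2 : e + 1 - (j + 1) - 1 = e - (j + 1) := by omega
      simp only [Nat.add_sub_cancel]
      rw [h2, Nat.choose_symm (by omega), Nat.choose_succ_succ]

section
variable {d : ℕ} (Z : Finset (Finset (Fin d)))

/-- number of members of size `k` -/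
def lev (k : ℕ) : ℕ := #(Z.filter fun s => #s = k)

variable {Z}

lemma lev_le_star (h : ∀ s ∈ Z, ∀ t ∈ Z, (s ∩ t).Nonempty) {k : ℕ} (hk : 2 * k ≤ d) :
    lev Z k ≤ starLev d k := by
  unfold lev starLev
  split_ifs with h0
  · subst h0
    rw [Nat.le_zero, card_eq_zero, filter_eq_empty_iff]
    intro s hs hc
    have := h s hs s hs
    rw [inter_self, ← card_pos] at this
    omega
  · apply Finset.erdos_ko_rado
    · intro s hs t ht hd
      rw [mem_coe, mem_filter] at hs ht
      obtain ⟨x, hx⟩ := h s hs.1 t ht.1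
      rw [mem_inter] at hx
      exact (Finset.disjoint_left.1 hd) hx.1 hx.2
    · intro s hs
      rw [mem_coe, mem_filter] at hs
      exact hs.2
    · omega

lemma lev_add_le (h : ∀ s ∈ Z, ∀ t ∈ Z, (s ∩ t).Nonempty) {k : ℕ} (hk : k ≤ d) :
    lev Z k + lev Z (d - k) ≤ d.choose k := by
  classical
  unfold lev
  have hc : #((Z.filter fun s => #s = d - k).image compl) = #(Z.filter fun s => #s = d - k) :=
    card_image_of_injective _ compl_injective
  rw [← hc, ← card_union_of_disjoint]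
  · have : d.choose k = #(powersetCard k (univ : Finset (Fin d))) := by
      simp [card_powersetCard]
    rw [this]
    apply card_le_card
    intro s hs
    rw [mem_powersetCard]
    refine ⟨subset_univ _, ?_⟩
    rcases mem_union.1 hs with h1 | h1
    · exact (mem_filter.1 h1).2
    · obtain ⟨t, ht, rfl⟩ := mem_image.1 h1
      rw [card_compl, (mem_filter.1 ht).2]
      simp only [Fintype.card_fin]
      omega
  · rw [Finset.disjoint_left]
    intro s hs hs2
    obtain ⟨t, ht, rfl⟩ := mem_image.1 hs2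
    obtain ⟨x, hx⟩ := h _ (mem_filter.1 hs).1 t (mem_filter.1 ht).1
    rw [mem_inter, mem_compl] at hx
    exact hx.1 hx.2

lemma sum_eq_lev (M : ℕ → ℕ) :
    ∑ s ∈ Z, M (d - #s) = ∑ k ∈ range (d + 1), lev Z k * M (d - k) := by
  classical
  rw [← sum_fiberwise_of_maps_to (g := fun s : Finset (Fin d) => #s) (t := range (d + 1))]
  · apply sum_congr rfl
    intro k _
    unfold lev
    rw [card_eq_sum_ones, sum_mul]
    apply sum_congr rfl
    intro s hs
    rw [(mem_filter.1 hs).2, one_mul]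
  · intro s _
    rw [mem_range]
    have := card_le_univ s
    simp only [Fintype.card_fin] at this
    omega

lemma pair_nonneg (h : ∀ s ∈ Z, ∀ t ∈ Z, (s ∩ t).Nonempty) (hd : 1 ≤ d) (M : ℕ → ℕ)
    (hM : Monotone M) {k : ℕ} (hk : k ≤ d) :
    (0 : ℤ) ≤ ((starLev d k : ℤ) - lev Z k) * M (d - k)
      + ((starLev d (d - k) : ℤ) - lev Z (d - k)) * M k := by
  have h1 := starLev_add d k hd hk
  have h2 := lev_add_le h hk
  have h3 : (0 : ℤ) ≤ ((starLev d k : ℤ) - lev Z k) + ((starLev d (d - k) : ℤ) - lev Z (d - k)) := by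
    omega
  by_cases hc : 2 * k ≤ d
  · have h4 : (0 : ℤ) ≤ (starLev d k : ℤ) - lev Z k := by
      have := lev_le_star h hc; omega
    have h5 : (M k : ℤ) ≤ M (d - k) := by exact_mod_cast hM (by omega)
    have h6 : (0 : ℤ) ≤ M k := by positivity
    nlinarith [mul_nonneg h4 (sub_nonneg.2 h5), mul_nonneg h3 h6]
  · have h4 : (0 : ℤ) ≤ (starLev d (d - k) : ℤ) - lev Z (d - k) := by
      have := lev_le_star h (k := d - k) (by omega); omega
    have h5 : (M (d - k) : ℤ) ≤ M k := by exact_mod_cast hM (by omega)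
    have h6 : (0 : ℤ) ≤ M (d - k) := by positivity
    nlinarith [mul_nonneg h4 (sub_nonneg.2 h5), mul_nonneg h3 h6]

lemma two_mul_def (M : ℕ → ℕ) :
    2 * (((∑ k ∈ range (d + 1), starLev d k * M (d - k) : ℕ) : ℤ)
        - ((∑ s ∈ Z, M (d - #s) : ℕ) : ℤ))
      = ∑ k ∈ range (d + 1), (((starLev d k : ℤ) - lev Z k) * M (d - k)
        + ((starLev d (d - k) : ℤ) - lev Z (d - k)) * M k) := by
  rw [sum_eq_lev, sum_add_distrib]
  have hr : ∑ k ∈ range (d + 1), ((starLev d (d - k) : ℤ) - lev Z (d - k)) * M k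
      = ∑ k ∈ range (d + 1), ((starLev d k : ℤ) - lev Z k) * M (d - k) := by
    rw [← sum_range_reflect]
    apply sum_congr rfl
    intro k hk
    rw [mem_range] at hk
    have e1 : d + 1 - 1 - k = d - k := by omega
    have e2 : d - (d - k) = k := by omega
    rw [e1, e2]
  rw [hr]
  push_cast
  rw [← sum_sub_distrib, two_mul]
  congr 1 <;> exact sum_congr rfl fun k _ => by ring

/-- weighted EKR, bound -/
theorem wekr_le (h : ∀ s ∈ Z, ∀ t ∈ Z, (s ∩ t).Nonempty) (hd : 1 ≤ d) (M : ℕ → ℕ)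
    (hM : Monotone M) :
    ∑ s ∈ Z, M (d - #s) ≤ ∑ k ∈ range (d + 1), starLev d k * M (d - k) := by
  have h1 := two_mul_def (Z := Z) M
  have h2 : (0 : ℤ) ≤ ∑ k ∈ range (d + 1), (((starLev d k : ℤ) - lev Z k) * M (d - k)
        + ((starLev d (d - k) : ℤ) - lev Z (d - k)) * M k) :=
    sum_nonneg fun k hk => pair_nonneg h hd M hM (by rw [mem_range] at hk; omega)
  omega

/-- weighted EKR, equality forces a singleton -/
theorem wekr_eq (h : ∀ s ∈ Z, ∀ t ∈ Z, (s ∩ t).Nonempty) (hd : 2 ≤ d) (M : ℕ → ℕ)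
    (hM : Monotone M) (hs : M 1 < M (d - 1))
    (he : ∑ k ∈ range (d + 1), starLev d k * M (d - k) ≤ ∑ s ∈ Z, M (d - #s)) :
    ∃ i : Fin d, ∀ s ∈ Z, i ∈ s := by
  have hd1 : 1 ≤ d := by omega
  have h1 := two_mul_def (Z := Z) M
  have hnn : ∀ k ∈ range (d + 1), (0 : ℤ) ≤ (((starLev d k : ℤ) - lev Z k) * M (d - k)
        + ((starLev d (d - k) : ℤ) - lev Z (d - k)) * M k) :=
    fun k hk => pair_nonneg h hd1 M hM (by rw [mem_range] at hk; omega)
  have h2 := sum_nonneg hnn
  have h3 : ∑ k ∈ range (d + 1), (((starLev d k : ℤ) - lev Z k) * M (d - k)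
        + ((starLev d (d - k) : ℤ) - lev Z (d - k)) * M k) = 0 := by omega
  have h4 := (sum_eq_zero_iff_of_nonneg hnn).1 h3 1 (by rw [mem_range]; omega)
  have h5 := starLev_add d 1 hd1 hd1
  have h6 := lev_add_le h hd1
  have h7 := lev_le_star h (k := 1) (by omega)
  have h8 : starLev d 1 = 1 := by simp [starLev]
  have h9 : lev Z 1 = 1 := by
    by_contra hne
    have h10 : lev Z 1 = 0 := by omega
    have h11 : (M 1 : ℤ) < M (d - 1) := by exact_mod_cast hs
    have h12 : (0 : ℤ) ≤ 1 + ((starLev d (d - 1) : ℤ) - lev Z (d - 1)) := by omega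
    have h13 : (0 : ℤ) ≤ M 1 := by positivity
    rw [h8, h10] at h4
    push_cast at h4
    nlinarith [mul_nonneg h12 h13]
  unfold lev at h9
  obtain ⟨s, hs1⟩ := card_eq_one.1 h9
  have hs2 : s ∈ Z.filter fun s => #s = 1 := by rw [hs1]; exact mem_singleton_self _
  rw [mem_filter] at hs2
  obtain ⟨i, rfl⟩ := card_eq_one.1 hs2.2
  refine ⟨i, fun t ht => ?_⟩
  obtain ⟨x, hx⟩ := h _ hs2.1 t ht
  rw [mem_inter, mem_singleton] at hx
  exact hx.1 ▸ hx.2

end

end Pool.Agent.MP04fdae.X
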